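import Pool.Agent.H77.STAT.StaH
import Pool.Agent.H60.GEN.Par

/-!
# The strategy against the affine cells, one kit

`NumI.Lc`: the levels of the cells of an order: the fattest boxes, then the target. `NumI.PlN`: at
almost all windows of every order there is a strategy against the affine cells (`GmI`).
`PlN.play`: this gives the strategy `Play`, for all parameters of the cells. `gmI_lab`: the strategy
from the labels.
-/

set_option autoImplicit false

namespace Pool.STR.NumI

open MeasureTheory Set Filter Topology Pool.LEV Pool.RTS Pool.STA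
open Pool.GEN Pool.S6C Pool.STAT Pool.PB Pool.STK Pool.KS3 Pool.KA Pool.K2S
open Pool.STAT.DPP (Stc)

variable {P : ℝ → ℝ → ℝ} {ρ : ℝ → ℝ} (nk : NumI P ρ)

/-- **The levels of the cells** of the order `o`: the fattest boxes, then the target. -/
noncomputable def Lc (o : nk.O) (i : ℕ) : ℝ → ℝ → ℝ :=
  if h : i < nk.m then iso (nk.D o ⟨i, h⟩) else if i = nk.m then nk.PT o else fun a _ => a

/-- The diagonals of the levels; the last one is the diagonal of the target. -/
noncomputable def dg (o : nk.O) (i : ℕ) (a : ℝ) : ℝ :=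
  if h : i < nk.m then nk.D o ⟨i, h⟩ a else P a a

/-- The slopes, with the radius as the coordinate `0`. -/
noncomputable def sg (o : nk.O) (g : ℝ) : ℕ → ℝ
  | 0 => 1
  | i + 1 => deriv (nk.dg o i) g

theorem lc_lt (o : nk.O) {i : ℕ} (h : i < nk.m) : nk.Lc o i = iso (nk.D o ⟨i, h⟩) := by
  unfold Lc
  rw [dif_pos h]

theorem lc_m (o : nk.O) : nk.Lc o nk.m = nk.PT o := by
  unfold Lc
  rw [dif_neg (lt_irrefl _), if_pos rfl]

theorem lc_big (o : nk.O) {i : ℕ} (h : nk.m < i) (a w : ℝ) : nk.Lc o i a w = a := by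
  unfold Lc
  rw [dif_neg (by omega), if_neg (by omega)]

theorem lc_law (o : nk.O) (i : ℕ) : Law (nk.Lc o i) := by
  rcases Nat.lt_trichotomy i nk.m with h | h | h
  · rw [nk.lc_lt o h]
    exact iso_law (nk.hD o _)
  · rw [h, nk.lc_m]
    exact nk.hPT o
  · have : nk.Lc o i = fun a _ => a := by
      funext a w
      exact nk.lc_big o h a w
    rw [this]
    exact ⟨fun _ _ _ _ _ h _ => h, fun _ _ _ _ _ _ _ => le_rfl, fun _ _ _ _ _ _ _ =>
      min_le_right _ _⟩

theorem lc_low (o : nk.O) (i : ℕ) (a w : ℝ) (h0 : 0 ≤ w) (h1 : w ≤ a) (h2 : a ≤ 1) :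
    a ≤ nk.Lc o i a w := by
  rcases Nat.lt_trichotomy i nk.m with h | h | h
  · rw [nk.lc_lt o h]
    exact iso_low (nk.hD o _) h0 h1 h2
  · rw [h, nk.lc_m]
    exact (nk.lPT o a w h0 h1 h2).1
  · rw [nk.lc_big o h]

/-- **The row of a window**: the diagonals have slopes at least one, and the row is not full. -/
structure RwD (o : nk.O) (g : ℝ) : Prop where
  mem : g ∈ nk.Gs o
  g0 : 0 < g
  g1 : g < 1
  val : P g g < 1
  dif : ∀ i ≤ nk.m, DifferentiableAt ℝ (nk.dg o i) g
  one : ∀ i ≤ nk.m, 1 ≤ deriv (nk.dg o i) g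
  lt : ∀ i ≤ nk.m, nk.dg o i g < 1
  rdif : DifferentiableAt ℝ ρ (P g g)
  rlt : deriv ρ (P g g) < 1

/-- **The strategies at the windows.** -/
structure PlN (W : nk.O → Set ℝ) (Att : nk.O → Set (ℝ × ℝ)) : Prop where
  meas : ∀ o, MeasurableSet (W o)
  full : ∀ o, ∀ᵐ g : ℝ, g ∈ nk.Gs o → 0 < g → g < 1 → g ∈ W o
  att : ∀ o, AttN (Att o)
  lt : ∀ o, ∀ᵐ g : ℝ, g ∈ nk.Gs o → 0 < g → g < 1 → ∀ j, nk.D o j g < 1
  gm : ∀ o, ∀ᵐ g : ℝ, nk.RwD o g → GmI (fun _ : Unit => nk.Lc o) (fun _ _ _ => True) nk.m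
    (fun i => nk.sg o g (i + 1)) g (W o) (fun _ => Att o)

theorem dg_lt (o : nk.O) {i : ℕ} (h : i < nk.m) : nk.dg o i = nk.D o ⟨i, h⟩ := by
  funext a
  unfold dg
  rw [dif_pos h]

theorem dg_m (o : nk.O) : nk.dg o nk.m = fun a => P a a := by
  funext a
  unfold dg
  rw [dif_neg (lt_irrefl _)]

variable {nk}

/-- **The strategy**, for all parameters. -/
theorem PlN.play {W : nk.O → Set ℝ} {Att : nk.O → Set (ℝ × ℝ)} (H : nk.PlN W Att) (q : nk.Par) :
    Play q.cell := by
  have hcO := nk.cO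
  -- the null set
  obtain ⟨Z, hZ, hZ0⟩ : ∃ Z : Set ℝ, volume Z = 0 ∧ ∀ g ∉ Z, ∀ o, (g ∈ nk.Gs o → 0 < g → g < 1 →
      ∀ j, nk.D o j g < 1) ∧ (nk.RwD o g → GmI (fun _ : Unit => nk.Lc o) (fun _ _ _ => True) nk.m
      (fun i => nk.sg o g (i + 1)) g (W o) (fun _ => Att o)) := by
    have h1 := ae_all_iff.2 fun o => (H.lt o).and (H.gm o)
    refine ⟨_, h1, fun g hg o => ?_⟩
    rw [Set.mem_compl_iff, Set.mem_ofPred_eq, not_not] at hg
    exact hg o
  have hGs : ∀ (o : nk.O) (g : ℝ), g ∈ q.cell.G o → g ∈ nk.Gs o := fun o g h => h.1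
  have hdg : ∀ (o : nk.O) (i : ℕ), q.cell.dg o i = nk.dg o i := fun o i => rfl
  have hlv : ∀ (o : nk.O) (x : q.cell.α) (i : ℕ), i ≤ nk.m → q.cell.lv o x i = nk.Lc o i := by
    intro o x i hi
    unfold CellD.lv
    rcases hi.lt_or_eq with h | h
    · rw [nk.lc_lt o h]
      exact dif_pos (show i < q.cell.m from h)
    · rw [h, nk.lc_m]
      exact dif_neg (show ¬ nk.m < q.cell.m from lt_irrefl _)
  refine ⟨W, fun o _ => Att o, Z, H.meas, fun o => ?_, fun o _ => H.att o, hZ, ?_, ?_⟩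
  · filter_upwards [H.full o] with g h1 h2 h3 h4
    exact h1 (hGs o g h2) h3 h4
  · filter_upwards with Q hrow o ho j
    have h1 := ((hZ0 _ hrow.mem o).1 (hGs o _ ho) hrow.g0 hrow.g1) j
    exact ⟨h1, Or.inr fun x a w k1 k2 k3 => nk.cell_be x o j k1 k2 k3⟩
  · filter_upwards with Q hrow o c g R hlt
    have hg := R.eq
    have hmem : g ∉ Z := by
      rw [hg]
      exact hrow.mem
    have hgG := hGs o g R.mem
    have hdm : q.cell.dg o nk.m = fun a => P a a := q.cell.dg_m o
    have hR : nk.RwD o g := by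
      refine ⟨hgG, R.g0, R.g1, by rw [R.val]; exact hrow.Q1, fun i hi => ?_, fun i hi => ?_,
        fun i hi => ?_, by rw [R.val]; exact hrow.rdif, by rw [R.val]; exact hrow.rlt⟩
      · rw [← hdg]
        rcases hi.lt_or_eq with h | h
        · rw [q.cell.dg_i o i h]
          exact R.difD _
        · rw [h, hdm]
          exact R.dif
      · rw [← hdg]
        rcases hi.lt_or_eq with h | h
        · exact (hlt i h).1
        · rw [h, hdm]
          exact R.der
      · rw [← hdg]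
        rcases hi.lt_or_eq with h | h
        · exact (hlt i h).2
        · rw [h, hdm]
          show P g g < 1
          rw [R.val]
          exact hrow.Q1
    have h1 := (hZ0 g hmem o).2 hR
    intro s
    obtain ⟨ε, hε, e, he, r₁, hr₁, K, h2⟩ := h1 s
    refine ⟨ε, hε, e, he, r₁, hr₁, K, fun x r b k1 k2 k3 _ C k6 k7 => ?_⟩
    refine h2 () r b k1 k2 k3 trivial ?_ k6 k7
    refine ⟨C.lo, C.hi, C.one, fun i hi a' w' j1 j2 j3 => ?_, fun a' w' j1 j2 j3 => ?_,
      fun i hi v j1 j2 => ?_⟩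
    · have := C.bas i hi a' w' j1 j2 j3
      rwa [hlv o x i (le_of_lt hi)] at this
    · have := C.tgt a' w' j1 j2 j3
      rwa [show q.cell.lv o x q.cell.m = nk.Lc o nk.m from hlv o x _ le_rfl] at this
    · have := C.sl i hi v j1 j2
      rwa [hlv o x i hi] at this

/-- **The strategy at a window**, from the labels. -/
theorem gmI_lab {m : ℕ} {S : PCl m} {o : nk.O} {e : ℕ → Fin m} {L : ℕ → ℝ → ℝ → ℝ} {θ g : ℝ}
    {P' : List (Fin m) × Fin m → ℝ → ℝ → ℝ} {W : Set ℝ} {Att : Set (ℝ × ℝ)}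
    (H : Ctx S e nk.m L θ P' ρ) (hE : ExIn S e nk.m L W) (R : nk.RwD o g)
    (hdia : ∀ i ≤ nk.m, ∀ a, 0 ≤ a → a ≤ 1 → L (i + 1) a a = nk.dg o i a)
    (hlab : ∃ (p : ℕ → Prop) (_ : DecidablePred p), Stc p (nk.m + 1) ∧
      LabI S e nk.m L (fun _ : Unit => nk.Lc o) (fun _ _ _ => True) p (nk.sg o g) g W
        (fun _ => Att) (θ * g / 8)) :
    GmI (fun _ : Unit => nk.Lc o) (fun _ _ _ => True) nk.m
      (fun i => nk.sg o g (i + 1)) g W (fun _ => Att) := by
  obtain ⟨p, hdp, hp, hlab⟩ := hlab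
  have hg0 := R.g0
  have hg1 := R.g1
  refine gmI_of_labI H hp hE hlab hg0 (fun i hi => ?_) rfl (fun i => ?_) (fun i hi => ?_)
  · rcases i with _ | i
    · have e1 : (fun x => L 0 x x) = fun x => x := by
        funext x
        rw [H.zero]
      rw [e1]
      exact hasDerivAt_id g
    · have h2 : (fun x => L (i + 1) x x) =ᶠ[𝓝 g] nk.dg o i := by
        filter_upwards [Ioo_mem_nhds hg0 hg1] with x hx
        exact hdia i (by omega) x hx.1.le hx.2.le
      exact ((R.dif i (by omega)).hasDerivAt).congr_of_eventuallyEq h2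
  · rcases i with _ | i
    · exact le_rfl
    · show 1 ≤ deriv (nk.dg o i) g
      rcases Nat.lt_or_ge nk.m i with h | h
      · have e1 : nk.dg o i = nk.dg o nk.m := by
          rw [nk.dg_m]
          funext a
          unfold dg
          rw [dif_neg (by omega)]
        rw [e1]
        exact R.one nk.m le_rfl
      · exact R.one i h
  · rcases i with _ | i
    · rw [H.zero]
      exact hg1
    · rw [hdia i (by omega) g hg0.le hg1.le]
      exact R.lt i (by omega)

end Pool.STR.NumI
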