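import Pool.Agent.H77.STAT.RowN
import Pool.Agent.H64.STAT.Fam0
import Pool.Agent.H45.EXA.Stm

/-!
# The inputs of a row (row N2) for a family

* `CDat.addZ`: the labels together with the side information;
* `row_fam`: the structure `NDat.Row` of the system of a family, from exactness of the coordinates
  different from the height given closed labels, and from the rates of the rows of the height given
  all the other coordinates.
-/

set_option autoImplicit false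

namespace Pool.STAT

open Finset MvPolynomial
open Pool.Agent.H49.Ent Pool.Agent.H32.Dense Pool.STK Pool.KS3 Pool.KA Pool.KSAT Pool.PB Pool.GEN
open Pool.BFL (Pl CB Pb P2 MC alt)

variable {m J : ℕ}

namespace CDat

variable {F : Fam m J}

/-- The labels together with the side information. -/
def addZ (C : CDat F) : CDat F where
  V k := C.V k × F.ζ
  pt k y := (C.pt k y, y.2.2)
  li k s := (C.li k s, s.2.1)
  G k v := C.G k v.1
  R := C.R

theorem addZ_Ph (C : CDat F) (w₀ z k : ℕ) (ω : F.Ω) (i : ℕ) :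
    C.addZ.Ph w₀ z k ω i = C.Ph w₀ z k ω i := rfl

/-- The conditions with the side information. -/
theorem Cnd.addZ {C : CDat F} {e : ℕ → Fin m} {n K w₀ z M : ℕ} {g : ℕ → ℕ → ℕ}
    {C₁ : ℝ} {A : F.Ω → Prop} (h : C.Cnd e n K w₀ z M g C₁ A) :
    C.addZ.Cnd e n K w₀ z M g C₁ A :=
  ⟨fun k hk v => h.deg k hk v.1, fun k hk v => h.tri k hk v.1, h.Rdeg, h.Rtri,
    fun k hk ω hω => Prod.ext (h.cls k hk ω hω) rfl, h.pos, h.line⟩

/-- The labels contain the side information. -/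
def HasZ (C : CDat F) (w₀ z v : ℕ) : Prop :=
  ∀ ω ω', C.lab w₀ z v ω = C.lab w₀ z v ω' → F.Z ω = F.Z ω'

theorem hasZ_addZ (C : CDat F) (w₀ z v : ℕ) : C.addZ.HasZ w₀ z v := by
  intro ω ω' h
  have h1 := C.addZ.lab_val (le_refl v) h
  exact (Prod.ext_iff.mp h1).2

/-- **The variation in the cells.** Samples of `A` with the same label of level `v`, the same time
and the same cells of the coordinates before `i`: the variation of the label polynomial `i` is at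
most `L / 2 ^ (g v i + y)`. -/
def Vr (C : CDat F) (e : ℕ → Fin m) (n w₀ z v : ℕ) (g : ℕ → ℕ → ℕ) (y : ℕ) (L : ℝ)
    (A : F.Ω → Prop) : Prop :=
  ∀ ω ω', A ω → A ω' → C.lab w₀ z v ω = C.lab w₀ z v ω' → F.T ω = F.T ω' → ∀ i, 1 ≤ i → i ≤ n →
    (∀ j, 1 ≤ j → j < i → F.X J ω (e j) = F.X J ω' (e j)) →
    |eval (cx F e ω) (C.Ph w₀ z v ω i) - eval (cx F e ω') (C.Ph w₀ z v ω i)| ≤
      L / 2 ^ (g v i + y)

theorem Vr.sub {C : CDat F} {e : ℕ → Fin m} {n w₀ z v y : ℕ} {g : ℕ → ℕ → ℕ} {L : ℝ}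
    {A B : F.Ω → Prop} (h : C.Vr e n w₀ z v g y L A) (hB : ∀ ω, B ω → A ω) :
    C.Vr e n w₀ z v g y L B := fun ω ω' a b => h ω ω' (hB ω a) (hB ω' b)

/-- The labels of `addZ` are finer. -/
theorem addZ_lab {C : CDat F} {w₀ z v : ℕ} {ω ω' : F.Ω}
    (h : C.addZ.lab w₀ z v ω = C.addZ.lab w₀ z v ω') : C.lab w₀ z v ω = C.lab w₀ z v ω' := by
  refine Prod.ext ?_ (congrArg (·.2) h)
  funext k
  have h1 := congrFun (congrArg (·.1) h) k
  simp only [lab] at h1 ⊢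
  by_cases hk : k ≤ v
  · simp only [if_pos hk] at h1 ⊢
    exact congrArg some (Prod.ext_iff.mp (Option.some.inj h1)).1
  · simp only [if_neg hk]

theorem Vr.addZ {C : CDat F} {e : ℕ → Fin m} {n w₀ z v y : ℕ} {g : ℕ → ℕ → ℕ} {L : ℝ}
    {A : F.Ω → Prop} (h : C.Vr e n w₀ z v g y L A) : C.addZ.Vr e n w₀ z v g y L A :=
  fun ω ω' a b c => h ω ω' a b (addZ_lab c)

end CDat

namespace Cnr

variable {F : Fam m J} {C : CDat F} {e : ℕ → Fin m} {n K w₀ z M U v y : ℕ} {g : ℕ → ℕ → ℕ}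
  {d : ℕ → ℕ} {σ : ℕ → ℝ} {κ C₁ : ℝ} {q : F.Ω → ℝ}

/-- The order `e` of the coordinates: `e n` is the height. -/
structure Ord (e : ℕ → Fin m) (n : ℕ) : Prop where
  ne : ∀ i, 1 ≤ i → i < n → e i ≠ e n
  surj : ∀ j, j ≠ e n → ∃ i, 1 ≤ i ∧ i < n ∧ e i = j

theorem fl_t (F : Fam m J) (ω : F.Ω) : ⌊(2 : ℝ) ^ J * F.t ω⌋ = (F.T ω : ℤ) := by
  have h4 : (2 : ℝ) ^ J * F.t ω = (F.T ω : ℝ) := by
    unfold Fam.t
    field_simp
  rw [h4]
  exact Int.floor_natCast _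

/-- The cells of the base determine the time and the other coordinates. -/
theorem cel_vj (ho : Ord e n) (hn : 1 ≤ n) {ω ω' : F.Ω}
    (h : cel (C.nd e n w₀ z M g) n J ω = cel (C.nd e n w₀ z M g) n J ω') :
    F.T ω = F.T ω' ∧ vj F (e n) J ω = vj F (e n) J ω' := by
  constructor
  · have h1 := congrFun h ⟨0, hn⟩
    have h2 : ∀ ω, cel (C.nd e n w₀ z M g) n J ω ⟨0, hn⟩ = (F.T ω : ℤ) := by
      intro ω
      rw [← fl_t F ω, ← C.nd_X0 e n w₀ z M g ω]
      rfl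
    rw [h2, h2] at h1
    exact_mod_cast h1
  · funext j
    unfold vj
    by_cases hj : j = e n
    · rw [hj, Function.update_self, Function.update_self]
    · rw [Function.update_of_ne hj, Function.update_of_ne hj]
      obtain ⟨i, h1, h2, h3⟩ := ho.surj j hj
      have h4 := congrFun h ⟨i, h2⟩
      have h5 : ∀ ω, cel (C.nd e n w₀ z M g) n J ω ⟨i, h2⟩ = F.X J ω j := by
        intro ω
        show ⌊(2 : ℝ) ^ J * (C.nd e n w₀ z M g).X ω i⌋ = F.X J ω j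
        rw [C.nd_X e n w₀ z M g h1 ω, h3]
        rfl
      rw [h5, h5] at h4
      exact h4

/-- The time and the other coordinates determine the cells of the base. -/
theorem vj_cel (ho : Ord e n) {ω ω' : F.Ω} (hT : F.T ω = F.T ω')
    (hV : vj F (e n) J ω = vj F (e n) J ω') :
    cel (C.nd e n w₀ z M g) n J ω = cel (C.nd e n w₀ z M g) n J ω' := by
  funext i
  by_cases h0 : (i : ℕ) = 0
  · have h2 : ∀ ω, cel (C.nd e n w₀ z M g) n J ω i = (F.T ω : ℤ) := by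
      intro ω
      rw [← fl_t F ω, ← C.nd_X0 e n w₀ z M g ω]
      show ⌊(2 : ℝ) ^ J * (C.nd e n w₀ z M g).X ω i⌋ = _
      rw [h0]
    rw [h2, h2, hT]
  · have h1 : 1 ≤ (i : ℕ) := by omega
    have h5 : ∀ ω, cel (C.nd e n w₀ z M g) n J ω i = vj F (e n) J ω (e i) := by
      intro ω
      unfold vj
      rw [Function.update_of_ne (ho.ne i h1 i.2)]
      show ⌊(2 : ℝ) ^ J * (C.nd e n w₀ z M g).X ω i⌋ = F.X J ω (e i)
      rw [C.nd_X e n w₀ z M g h1 ω]
      rfl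
    rw [h5, h5, hV]

/-- **The inputs of a row, for a family.** -/
theorem row_fam (hOk : (C.nd e n w₀ z M g).Ok0 n K J w₀ z M σ κ C₁ q)
    {φ : LnT F → (C.nd e n w₀ z M g).Γ} {ψ : LnT F → ℕ} (hvM : v ≤ M)
    (hrh : ∀ ω, ∀ i ≤ n, 0 < q ω → ((C.nd e n w₀ z M g).nrmd n J w₀ φ ψ).rh v ω i =
      (2 : ℝ) ^ (C.nd e n w₀ z M g).g 0 i * (C.nd e n w₀ z M g).rh v ω i)
    (ho : Ord e n) (hn : 1 ≤ n) (hZ : C.HasZ w₀ z v)
    (hσ : σ n = d n) {a L er ε C₂ : ℝ} (hL : 0 ≤ L) (he : 0 ≤ er) (ha : a ≤ 1) (ha0 : 0 ≤ a)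
    (hC₁ : 0 ≤ C₁) (hy : C₁ * z + U * z ≤ y)
    (hlip : C.Vr e n w₀ z v g y L (fun ω => 0 < q ω))
    (hJ : ∀ i, 1 ≤ i → i < n → g v i + U * z ≤ J) (hJ0 : w₀ + (v + U) * z ≤ J)
    (hex : ∀ v', v ≤ v' → v' ≤ v + U → v' ≤ M →
      (∑ i ∈ Ico 1 n, ((J : ℝ) - g v' i)) * Real.log 2 - ε ≤
        CH q (vj F (e n) J) (fun ω => (C.lab w₀ z v' ω, F.W ω)))
    (hrate : ∀ Q : ℕ, g v n ≤ Q → Q ≤ g v n + y →
      CH q (fun ω => F.X Q ω (e n))
        (fun ω => (F.X (g v n) ω (e n), (vj F (e n) J ω, F.W ω))) ≤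
        (1 - a) * (((Q : ℝ) - g v n) * Real.log 2) + er)
    (hCε : κ * z + ε ≤ C₂ * z) (hCn : n * Real.log (5 + 2 * L) ≤ C₂ * z)
    (hCe : C₁ * z + er + 2 * Real.log (7 + 2 * L) ≤ C₂ * z) :
    ((C.nd e n w₀ z M g).nrmd n J w₀ φ ψ).Row n z M U d a C₂
      (fun ω => (vj F (e n) J ω, F.W ω))
      ((∑ i ∈ range n, ((J : ℝ) - (C.nd e n w₀ z M g).g 0 i)) * Real.log 2) v q := by
  have hq : IsLaw q := hOk.isLaw
  have hgn : ∀ k, (C.nd e n w₀ z M g).g k n = g k n := by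
    intro k
    rw [C.nd_g e n w₀ z M g le_rfl]
    exact if_neg (by omega)
  have hgi : ∀ k i, 1 ≤ i → i ≤ n → (C.nd e n w₀ z M g).g k i = g k i := by
    intro k i h1 h2
    rw [C.nd_g e n w₀ z M g h2]
    exact if_neg (by omega)
  have hg0 : ∀ k, (C.nd e n w₀ z M g).g k 0 = w₀ + k * z := by
    intro k
    rw [C.nd_g e n w₀ z M g (Nat.zero_le n)]
    exact if_pos rfl
  have hXn : ∀ ω, (C.nd e n w₀ z M g).X ω n = F.x ω (e n) := C.nd_X e n w₀ z M g hn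
  refine row_of (D := C.nd e n w₀ z M g) (z := z) (U := U) (ε := κ * z + ε) (L := L) (e := er)
    (y := y) hOk hvM hrh hσ hL he ha ha0 hC₁ hy ?_ ?_ (fun ω => (vj F (e n) J ω, F.W ω))
    ?_ ?_ ?_ ?_ hCε hCn hCe
  · intro ω ω' h h' hl i hi hj
    rw [C.nd_P e n w₀ z M g hvM hi ω]
    rcases Nat.eq_zero_or_pos i with h0 | h0
    · rw [h0]
      have h1 : C.Ph w₀ z v ω 0 =
          MvPolynomial.C ((F.T1 (w₀ + v * z) ω : ℝ) / 2 ^ (w₀ + v * z)) := if_pos rfl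
      rw [h1, eval_C, eval_C, sub_self, abs_zero]
      positivity
    · rw [hgi v i h0 hi]
      refine hlip ω ω' h h' hl ?_ i h0 hi fun j h1 h2 => ?_
      · have h3 := hj 0 h0
        rw [C.nd_X0 e n w₀ z M g ω, C.nd_X0 e n w₀ z M g ω', fl_t, fl_t] at h3
        exact_mod_cast h3
      · have h3 := hj j h2
        rw [C.nd_X e n w₀ z M g h1 ω, C.nd_X e n w₀ z M g h1 ω'] at h3
        exact h3
  · intro i hi
    rcases Nat.eq_zero_or_pos i with h0 | h0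
    · rw [h0, hg0]
      have : w₀ + v * z + U * z = w₀ + (v + U) * z := by ring
      omega
    · rw [hgi v i h0 hi.le]
      exact hJ i h0 hi
  · intro ω ω' h h' hh
    simp only [Prod.mk.injEq] at hh
    obtain ⟨h1, h2⟩ := cel_vj ho hn hh.1
    have h3 := hZ ω ω' hh.2
    have h4 : F.W ω = F.W ω' := Prod.ext h1 h3
    simp only [h2, h4]
  · intro ω ω' h h' hh
    simp only [Prod.mk.injEq] at hh
    exact vj_cel ho (congrArg Prod.fst hh.2) hh.1
  · intro v' h1 h2 h3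
    have h4 := hex v' h1 h2 h3
    have h5 : ((J : ℝ) - ((w₀ + v' * z : ℕ) : ℝ)) * Real.log 2 - κ * z ≤
        CH q F.T (C.lab w₀ z v') := by
      have h6 : w₀ + v' * z ≤ J := by
        have h7 := hOk.top
        have h8 : v' * z ≤ (M + 1) * z := Nat.mul_le_mul_right z (by omega)
        omega
      exact Ful.time_c (D := C.nd e n w₀ z M g) (k := v') hq hOk.ln_w hOk.time
        (Nat.le_add_right _ _) h6 (hOk.c_wn v' h3)
    have h6 : CH q (fun ω => (vj F (e n) J ω, F.T ω)) (C.lab w₀ z v') ≤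
        CH q (fun ω => (vj F (e n) J ω, F.W ω)) (C.lab w₀ z v') := by
      refine CH_mono_left hq.nonneg fun ω ω' _ _ hh => ?_
      simp only [Prod.mk.injEq] at hh ⊢
      exact ⟨hh.1.1, congrArg Prod.fst hh.1.2⟩
    have h7 := CH_chain hq.nonneg (vj F (e n) J) F.T (C.lab w₀ z v')
    have h8 : CH q (vj F (e n) J) (fun ω => (C.lab w₀ z v' ω, F.W ω)) ≤
        CH q (vj F (e n) J) (fun ω => (F.T ω, C.lab w₀ z v' ω)) :=
      CH_mono_cond hq.nonneg fun ω ω' _ _ hh => by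
        simp only [Prod.mk.injEq] at hh ⊢
        exact ⟨congrArg Prod.fst hh.2, hh.1⟩
    have h9 : ∑ i ∈ range n, ((J : ℝ) - (C.nd e n w₀ z M g).g v' i) =
        ((J : ℝ) - ((w₀ + v' * z : ℕ) : ℝ)) + ∑ i ∈ Ico 1 n, ((J : ℝ) - g v' i) := by
      rw [Finset.range_eq_Ico, Finset.sum_eq_sum_Ico_succ_bot hn, hg0]
      congr 1
      refine Finset.sum_congr rfl fun i hi => ?_
      have hi' := Finset.mem_Ico.1 hi
      rw [hgi v' i hi'.1 hi'.2.le]
    show _ ≤ CH q (fun ω => (vj F (e n) J ω, F.W ω)) (C.lab w₀ z v')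
    rw [h9, add_mul]
    linarith
  · intro Q hQ hQ2
    rw [hgn] at hQ hQ2 ⊢
    have h1 := hrate Q hQ hQ2
    have h2 : ∀ P ω, ⌊(2 : ℝ) ^ P * (C.nd e n w₀ z M g).X ω n⌋ = F.X P ω (e n) := by
      intro P ω
      rw [hXn]
      rfl
    simp only [h2]
    exact h1

end Cnr

end Pool.STAT
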