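import Pool.Agent.H77.STAT.GmI

/-!
# The micro statement and the static statement, with affine cells

`CellD.FullI`: charts without cells, whose base levels are the smallest ones with their diagonals
(or have slope `1` at the window of the row), and a strategy against the affine cells (`GmI`).
`CellI n`: every class has such charts. This gives both `Mic n` and `Sta n`.
-/

set_option autoImplicit false

namespace Pool.STR

open MeasureTheory Set Filter Topology Pool.LEV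

namespace CellD

variable {P : ℝ → ℝ → ℝ} {ρ : ℝ → ℝ} (E : CellD P ρ)

/-- The slopes of the base levels are at least `1`. -/
theorem RowO.sl_one {E : CellD P ρ} {W' : E.O → Set ℝ} {Q : ℝ} {o : E.O} {c g : ℝ}
    (H : E.RowO W' Q o c g) (x : E.α) {i : ℕ} (hi : i < E.m) (hlt : E.dg o i g < 1) :
    1 ≤ deriv (E.dg o i) g := by
  have hw := H.g0
  have hg1 := H.g1
  rw [E.dg_i o i hi] at hlt ⊢
  have hd := (H.difD (E.f o ⟨i, hi⟩)).hasDerivAt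
  obtain ⟨D, hD⟩ : ∃ D, D = E.D o (E.f o ⟨i, hi⟩) := ⟨_, rfl⟩
  rw [← hD] at hlt hd ⊢
  have h1 : 0 ≤ deriv D g - 1 := by
    refine der_nn (f := fun y => D y - y) (g := g) (hd.sub (hasDerivAt_id g))
      (r₀ := min (1 - g) (1 - D g)) (lt_min (by linarith) (by linarith)) fun y h2 h3 => ?_
    have h4 : y < g + (1 - g) := lt_of_lt_of_le h3 (by linarith [min_le_left (1 - g) (1 - D g)])
    have h5 : y < g + (1 - D g) := lt_of_lt_of_le h3 (by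
      linarith [min_le_right (1 - g) (1 - D g)])
    have k1 := (E.hbe (x, o) ⟨i, hi⟩).slope g g (y - g) hw.le le_rfl (by linarith) (by linarith)
    have k2 := (E.hbe (x, o) ⟨i, hi⟩).mono_w y g y hw.le h2.le le_rfl (by linarith)
    rw [add_sub_cancel] at k1
    rw [E.hdia x o ⟨i, hi⟩ g hw.le hg1.le, ← hD] at k1
    rw [E.hdia x o ⟨i, hi⟩ y (by linarith) (by linarith), ← hD] at k2
    have k3 : min 1 (D g + (y - g)) = D g + (y - g) := min_eq_right (by linarith)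
    rw [k3] at k1
    show D g - g ≤ D y - y
    linarith
  linarith

/-- **The play against the affine cells of the selected families** at the row `Q`. -/
def PlayI (W' : E.O → Set ℝ) (Att : E.O → E.α → Set (ℝ × ℝ)) (Q : ℝ) : Prop :=
  ∀ (o : E.O) (c g : ℝ), E.RowO W' Q o c g →
    (∀ i < E.m, 1 ≤ deriv (E.dg o i) g ∧ E.dg o i g < 1) →
    GmI (E.lv o) (fun x e r => E.Ad c (x, o) Q g (fac P g * r) ∧
        E.dfr (x, o) g (fac P g * r) ≤ e * (fac P g * r)) E.m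
      (fun i => deriv (E.dg o i) g) g (W' o) (Att o)

/-- **Almost all rows are full.** -/
theorem fulI (hP : Law P) (hP01 : ∀ a : ℝ, 0 ≤ a → a ≤ 1 → 0 ≤ P a a ∧ P a a ≤ 1)
    (hρ : LipschitzWith 1 ρ) (hPB0 : ∀ k a, 0 ≤ a → a ≤ 1 → 0 ≤ E.PB k a a) (hJ : E.NoJ)
    (hF : E.NoF) {W' : E.O → Set ℝ} (hW' : ∀ o, MeasurableSet (W' o))
    (hGW : ∀ o, ∀ᵐ g : ℝ, g ∈ E.G o → 0 < g → g < 1 → g ∈ W' o)
    {Att : E.O → E.α → Set (ℝ × ℝ)} (hAtt : ∀ o x, AttN (Att o x))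
    {Z : Set ℝ} (hZ : volume Z = 0)
    (hbas : ∀ᵐ Q : ℝ, RowD P ρ Zᶜ Q → ∀ o, Lv P (Q, 0) ∈ E.G o → ∀ j,
      E.D o (E.f o j) (Lv P (Q, 0)) < 1 ∧ (deriv (E.D o (E.f o j)) (Lv P (Q, 0)) = 1 ∨
        ∀ x a w, 0 ≤ w → w ≤ a → a ≤ 1 → E.be (x, o) j a w ≤ E.be (x, o) j w w + (a - w)))
    (hplay : ∀ᵐ Q : ℝ, RowD P ρ Zᶜ Q → E.PlayI W' Att Q) :
    ∀ᵐ Q : ℝ, 0 < Q → Q < 1 → 0 < Lv P (Q, 0) →
      DifferentiableAt ℝ (fun Q => Lv P (Q, 0)) Q → 0 < deriv (fun Q => Lv P (Q, 0)) Q →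
      DifferentiableAt ℝ ρ Q → 1 ≤ deriv ρ Q := by
  filter_upwards [E.famR hP hP01 hρ hPB0 hJ hF hW' hGW hZ, hbas, hplay] with Q hfam hbas hplay h0
    h1 hw hd hc hdr
  by_contra hcon
  push Not at hcon
  obtain ⟨hrowZ, o, c, g, H, K, hfam⟩ := hfam h0 h1 hw hd hc hdr hcon
  have hbas := hbas hrowZ o (by rw [← H.eq]; exact H.mem)
  rw [← H.eq] at hbas
  have hfac := fac_pos H.der
  have hlt : ∀ i < E.m, E.dg o i g < 1 := fun i hi => by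
    rw [E.dg_i o i hi]
    exact (hbas ⟨i, hi⟩).1
  -- there is a chart
  obtain ⟨x₀, -⟩ : ∃ x : E.α, True := by
    obtain ⟨r₀, hr₀, h2⟩ := hfam 1 one_pos
    obtain ⟨x, -⟩ := h2 (r₀ / 2) (by linarith) (by linarith)
    exact ⟨x, trivial⟩
  refine gmI H.g0 H.g1 (fun i hi => H.sl_nn hi) H.dns (hAtt o) (fun x e e' r h0 h1 h2 =>
    ⟨h1.1, h1.2.trans (mul_le_mul_of_nonneg_right h2 (mul_pos hfac h0).le)⟩) hfam hlt
    (fun x i hi => ?_) (hplay hrowZ o c g H fun i hi => ⟨H.sl_one x₀ hi (hlt i hi), hlt i hi⟩)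
  rcases (hbas ⟨i, hi⟩).2 with h | h
  · left
    show deriv (E.dg o i) g = 1
    rw [E.dg_i o i hi]
    exact h
  · right
    unfold lv
    rw [dif_pos hi]
    exact h x

/-- **Charts without cells and with a strategy** against the affine cells of the selected
families. -/
structure FullI : Prop where
  noJ : E.NoJ
  noF : E.NoF
  nn : ∀ k a, 0 ≤ a → a ≤ 1 → 0 ≤ E.PB k a a
  play : ∃ (W' : E.O → Set ℝ) (Att : E.O → E.α → Set (ℝ × ℝ)) (Z : Set ℝ),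
    (∀ o, MeasurableSet (W' o)) ∧ (∀ o, ∀ᵐ g : ℝ, g ∈ E.G o → 0 < g → g < 1 → g ∈ W' o) ∧
    (∀ o x, AttN (Att o x)) ∧ volume Z = 0 ∧
    (∀ᵐ Q : ℝ, RowD P ρ Zᶜ Q → ∀ o, Lv P (Q, 0) ∈ E.G o → ∀ j,
      E.D o (E.f o j) (Lv P (Q, 0)) < 1 ∧ (deriv (E.D o (E.f o j)) (Lv P (Q, 0)) = 1 ∨
        ∀ x a w, 0 ≤ w → w ≤ a → a ≤ 1 → E.be (x, o) j a w ≤ E.be (x, o) j w w + (a - w))) ∧
    ∀ᵐ Q : ℝ, RowD P ρ Zᶜ Q → E.PlayI W' Att Q

variable {E}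

theorem FullI.ful (H : E.FullI) (hP : Law P)
    (hP01 : ∀ a : ℝ, 0 ≤ a → a ≤ 1 → 0 ≤ P a a ∧ P a a ≤ 1) (hρ : LipschitzWith 1 ρ) :
    ∀ᵐ Q : ℝ, 0 < Q → Q < 1 → 0 < Lv P (Q, 0) →
      DifferentiableAt ℝ (fun Q => Lv P (Q, 0)) Q → 0 < deriv (fun Q => Lv P (Q, 0)) Q →
      DifferentiableAt ℝ ρ Q → 1 ≤ deriv ρ Q := by
  obtain ⟨W', Att, Z, h1, h2, h3, h4, h5, h6⟩ := H.play
  exact E.fulI hP hP01 hρ H.nn H.noJ H.noF h1 h2 h3 h4 h5 h6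

theorem FullI.micW (H : E.FullI) (hP : Law P)
    (hP01 : ∀ a : ℝ, 0 ≤ a → a ≤ 1 → 0 ≤ P a a ∧ P a a ≤ 1) (hρ : LipschitzWith 1 ρ) :
    MicW P ρ := by
  filter_upwards [H.ful hP hP01 hρ] with Q hQ h0 h1 h2 h3 h4 h5 h6
  exact absurd (hQ h0 h1 h2 h3 h4 h5) (not_le.2 h6)

theorem FullI.staU (H : E.FullI) (hP : Law P)
    (hP01 : ∀ a : ℝ, 0 ≤ a → a ≤ 1 → 0 ≤ P a a ∧ P a a ≤ 1) (hρ : LipschitzWith 1 ρ) :
    StaU P ρ := by
  intro h hh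
  filter_upwards [H.ful hP hP01 hρ] with Q hQ h0 h1 h2 h3 h4 _ h5
  linarith [hQ h0 h1 h2 h3 h4 h5]

end CellD

end Pool.STR

namespace Pool.ONE

open Set Pool.KA Pool.GEN Pool.STR Pool.LEV Pool.ALL

/-- **Charts without cells and with a strategy** against the affine cells. -/
def CellI (n : ℕ) : Prop := LocN n fun P r => ∃ E : CellD P r, E.FullI

/-- **The micro statement and the static statement** from the same families. -/
theorem micSta_ofI {n : ℕ} (h : CellI n) : Mic n ∧ Sta n := by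
  have h01 : ∀ {P : ℝ → ℝ → ℝ}, (∀ a w : ℝ, 0 ≤ w → w ≤ a → a ≤ 1 → a ≤ P a w ∧ P a w ≤ 1) →
      ∀ a : ℝ, 0 ≤ a → a ≤ 1 → 0 ≤ P a a ∧ P a a ≤ 1 := fun h2 a h0 h1 =>
    ⟨h0.trans (h2 a a h0 le_rfl h1).1, (h2 a a h0 le_rfl h1).2⟩
  constructor
  · refine LocN.mono h fun P r h1 h2 h3 _ _ h6 => ?_
    obtain ⟨E, hE⟩ := h6
    exact hE.micW h1 (h01 h2) h3
  · refine LocN.mono h fun P r h1 h2 h3 _ _ h6 => ?_
    obtain ⟨E, hE⟩ := h6
    exact hE.staU h1 (h01 h2) h3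

end Pool.ONE
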