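import Pool.Agent.H77.STAT.StaJ
import Pool.Agent.H75.GEN.IsoK
import Pool.Agent.H62.GEN.JatE
import Pool.Agent.H60.GEN.NumT

/-!
# The strategy of a class

The class facts `Pool.STR.NumI.PlN` for the package `Pool.PKG.PkT`.
-/

set_option autoImplicit false

namespace Pool.PKG

open MeasureTheory Set Filter Topology
open Pool.Agent.H49.Ent Pool.Agent.H32.Dense Pool.STK Pool.KA Pool.KSAT Pool.K2S Pool.PB
open Pool.GEN Pool.S6C Pool.STAT Pool.CHT Pool.GRW Pool.ONE Pool.STA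
open Pool.LBT (LSys ThrOf)
open Pool.LEV (Law)
open Pool.ALL (RateOf)
open Pool.TOP (TopS)
open Pool.RTS (iso iso_dia diag_thr Diag)
open Pool.STR (NumI LeT CellD AttN)
open Pool.FRN (AttC UpA Wgd attN_attC)
open Pool.TRC (JatN)
open Pool.STAT.GRD (JatE)

variable {n : ℕ}

/-- **The good pairs**, with a good window on the diagonal. -/
def AttI (P : List (Fin n) × Fin n → ℝ → ℝ → ℝ) : Set (ℝ × ℝ) :=
  AttC P ∩ {z | (z.2, z.2) ∈ AttC P}

theorem attN_attI {θ : ℝ} {S : PCl n} {P : List (Fin n) × Fin n → ℝ → ℝ → ℝ}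
    (hP : ThrOf (chsys n θ) S P) : AttN (AttI P) := by
  intro x y hxy
  filter_upwards [attN_attC hP x y hxy, attN_attC hP y y le_rfl] with t h1 h2 h3 h4
  exact ⟨h1 h3 h4, h2 h3 (by linarith)⟩

theorem _root_.Pool.TRC.JatN.mono_att {m : ℕ} {S : PCl m} {c : ℕ → Fin m} {r : ℕ}
    {β : ℕ → ℝ → ℝ → ℝ} {x ρ E : ℝ} {Att Att' : Set (ℝ × ℝ)} (h : JatN S c r β x Att ρ E)
    (hA : Att' ⊆ Att) : JatN S c r β x Att' ρ E := by
  intro e' he'
  obtain ⟨ρ', hρ', h1⟩ := h e' he'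
  exact ⟨ρ', hρ', fun N a w haw => h1 N a w fun k hk => ⟨hA (haw k hk).1, (haw k hk).2⟩⟩

section

variable {hn : 2 ≤ n} {S : PCl n} {P : ℝ → ℝ → ℝ} {r : ℝ → ℝ}
  {P' : ℕ → List (Fin n) × Fin n → ℝ → ℝ → ℝ} {Λ : Finset (Fin n) → Fin n → ℝ → ℝ → ℝ}
  {PB : ℕ → List (Fin n) × Fin n → ℝ → ℝ → ℝ}

/-- The diagonals of the package. -/
theorem PkT.dg_eq (H : PkT hn S P r P' Λ PB) (hTop : TopS n) (hF : FZX (n - 1)) (o : Od n)
    {i : ℕ} (hi : i ≤ n - 1) (a : ℝ) :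
    (H.nk hTop hF).dg o i a = LL hn P P' o (i + 1) a a := by
  rcases hi.lt_or_eq with h | h
  · rw [LL_low (by omega) (by omega), Nat.add_sub_cancel]
    exact congrFun ((H.nk hTop hF).dg_lt o (i := i) h) a
  · subst h
    rw [LL_lst]
    exact congrFun ((H.nk hTop hF).dg_m o) a

/-- **The labels over the fattest boxes**: joint chains near the window. -/
theorem PkT.jatI (H : PkT hn S P r P' Λ PB) (hTop : TopS n) (hF : FZX (n - 1)) {o : Od n}
    {g α Q c : ℝ} (F : Fac hn S P r P' o g α Q c) {E ρJ : ℝ} (hE : 0 < E) (hρJ : 0 < ρJ)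
    (htop : ∀ l ≤ n - 1, LL hn P P' o (l + 1) g g + E < 1)
    (hJ : JatN S (cc hn o.1.1) (n - 1) (fun l => LL hn P P' o (l + 1)) g (AttC (P' o.2)) ρJ E) :
    ∃ E' ρ' : ℝ, 0 < E' ∧ 0 < ρ' ∧ (∀ i ≤ n - 1, (H.nk hTop hF).dg o i g + E' < 1) ∧
      JatN S (cc hn o.1.1) (n - 1) ((H.nk hTop hF).Li o) g (AttI (P' o.2)) ρ' E' := by
  have hlaw : ∀ l ≤ n - 1, Law (LL hn P P' o (l + 1)) := fun l _ => (H.ctx o).law (l + 1)
  obtain ⟨E', hEE, hE'⟩ : ∃ E' : ℝ, E < E' ∧ ∀ l ≤ n - 1, LL hn P P' o (l + 1) g g + E' < 1 := by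
    obtain ⟨x, hx, h1⟩ := PrM.fset_small (Finset.range (n - 1 + 1))
      (Q := fun l x => LL hn P P' o (l + 1) g g + (E + x) < 1) fun l hl => by
        have h2 := htop l (Nat.lt_succ_iff.1 (Finset.mem_range.1 hl))
        exact ⟨(1 - (LL hn P P' o (l + 1) g g + E)) / 2, by linarith, fun e' _ h3 => by linarith⟩
    exact ⟨E + x, by linarith, fun l hl => h1 x hx le_rfl l
      (Finset.mem_range.2 (Nat.lt_succ_of_le hl))⟩
  have hden : ∀ u v : ℝ, 0 < u → u < v → v < 1 → ∃ y, u < y ∧ y < v ∧ (y, y) ∈ AttC (P' o.2) := by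
    intro u v h0 huv hv
    have h1 := attN_attC (H.cht o.2) 0 0 le_rfl
    simp only [zero_add] at h1
    have h2 : ∃ y ∈ Ioo u v, 0 < y → y < 1 → (y, y) ∈ AttC (P' o.2) := by
      by_contra hcon
      push Not at hcon
      have h3 : Ioo u v ⊆ {y | ¬ (0 < y → y < 1 → (y, y) ∈ AttC (P' o.2))} := fun y hy h4 => by
        obtain ⟨h5, h6, h7⟩ := hcon y hy
        exact h7 (h4 h5 h6)
      have h4 := measure_mono_null h3 h1
      rw [Real.volume_Ioo, ENNReal.ofReal_eq_zero] at h4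
      linarith
    obtain ⟨y, hy, h3⟩ := h2
    exact ⟨y, hy.1, hy.2, h3 (by linarith [hy.1]) (by linarith [hy.2])⟩
  have hcon : ∀ l ≤ n - 1, ContinuousAt (fun v => LL hn P P' o (l + 1) v v) g := by
    intro l hl
    rcases hl.lt_or_eq with h | h
    · rw [LL_low (by omega) (by omega)]
      exact F.con _
    · subst h
      rw [LL_lst]
      exact F.conP
  have hpos : ∀ l ≤ n - 1, 0 < LL hn P P' o (l + 1) g g := fun l _ =>
    F.g0.trans_le ((H.ctx o).ge (l + 1) F.g0.le le_rfl F.g1.le)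
  obtain ⟨ρ₁, hρ₁, h1⟩ := Pool.ISN.jatN_rts H.tmh (c := cc hn o.1.1) (r := n - 1)
    (β := fun l => LL hn P P' o (l + 1))
    (fun i hi j hj h => cc_inj' hn o.1.1 (by
      rw [Set.mem_Iio] at hi
      omega) (by
      rw [Set.mem_Iio] at hj
      omega) h) hlaw F.g0 F.g1 hcon hpos hE
    (fun l hl => by
      have := htop l hl
      linarith) hden hρJ hJ hEE
  obtain ⟨ρ', hρ'⟩ : ∃ ρ', ρ' = min ρ₁ (g / 2) := ⟨_, rfl⟩
  have hg0 := F.g0
  have hρ'0 : 0 < ρ' := by rw [hρ']; exact lt_min hρ₁ (by linarith)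
  have hρ'1 : ρ' ≤ ρ₁ := by rw [hρ']; exact min_le_left _ _
  have hρ'2 : ρ' ≤ g / 2 := by rw [hρ']; exact min_le_right _ _
  refine ⟨E', ρ', hE.trans hEE, hρ'0, fun i hi => ?_, ?_⟩
  · rw [H.dg_eq hTop hF o hi]
    exact hE' i hi
  · refine (Pool.ISN.jatN_congr (h1 ρ' hρ'1) fun l hl a w _ _ h2 h3 => ?_).mono_att
      fun z hz => hz.2
    have hw : 0 < w := by
      have := (abs_le.1 h3).1
      linarith
    have e1 : (H.nk hTop hF).Li o l = iso ((H.nk hTop hF).dz o l) := (H.nk hTop hF).li_le o hl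
    rw [e1]
    show min 1 ((H.nk hTop hF).dz o l w + (a - w)) = min 1 (LL hn P P' o (l + 1) w w + (a - w))
    rw [(H.nk hTop hF).dz_pos o l hw, H.dg_eq hTop hF o hl]

/-- **Rows (I)**: the rows over the fattest boxes, where the target has slope one. `W`: windows. -/
def RowsT (H : PkT hn S P r P' Λ PB) (hTop : TopS n) (hF : FZX (n - 1)) (W : Od n → Set ℝ) :
    Prop :=
  ∀ o : Od n, ∀ᵐ g : ℝ, (H.nk hTop hF).RwD o g → deriv (fun a => P a a) g = 1 →
    ∀ E ρJ ρ' : ℝ, 0 < E → 0 < ρJ → 0 < ρ' → (∀ i ≤ n - 1, (H.nk hTop hF).dg o i g + E < 1) →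
      JatE S (cc hn o.1.1) (n - 1) ((H.nk hTop hF).Li o) g (AttI (P' o.2)) ρJ E
        (tht o.2 * g / 8 / 2) ρ' →
      RowsI S (ee hn o) (n - 1) ((H.nk hTop hF).Li o) ((H.nk hTop hF).pst o g)
        ((H.nk hTop hF).sg o g) g (W o) (AttI (P' o.2)) ρJ E (tht o.2 * g / 8 / 2) ρ'

/-- **Rows (II)**: a strategy at the windows where the target has another slope. -/
def StaT (H : PkT hn S P r P' Λ PB) (hTop : TopS n) (hF : FZX (n - 1)) (W : Od n → Set ℝ) :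
    Prop :=
  ∀ o : Od n, ∀ᵐ g : ℝ, (H.nk hTop hF).RwD o g → 1 < deriv (fun a => P a a) g →
    STR.GmI (fun _ : Unit => (H.nk hTop hF).Lc o) (fun _ _ _ => True) (n - 1)
      (fun i => (H.nk hTop hF).sg o g (i + 1)) g (W o) (fun _ => AttI (P' o.2))

theorem gmI_mono {κ : Type*} {L : κ → ℕ → ℝ → ℝ → ℝ} {OK : κ → ℝ → ℝ → Prop} {m : ℕ} {σ : ℕ → ℝ}
    {a : ℝ} {W W' : Set ℝ} {Att : κ → Set (ℝ × ℝ)} (h : STR.GmI L OK m σ a W Att) (hW : W' ⊆ W) :
    STR.GmI L OK m σ a W' Att := by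
  intro s
  obtain ⟨ε, hε, e, he, r₁, hr₁, K, H⟩ := h s
  exact ⟨ε, hε, e, he, r₁, hr₁, K, fun x r b k1 k2 k3 k4 k5 k6 k7 =>
    H x r b k1 k2 k3 k4 k5 (fun k hk => hW (k6 k hk)) k7⟩

/-- **The strategy of a class**, from the two kinds of rows. -/
theorem PkT.play (H : PkT hn S P r P' Λ PB) (hTop : TopS n) (hF : FZX (n - 1))
    {W : Od n → Set ℝ} (hWm : ∀ o, MeasurableSet (W o))
    (hWf : ∀ o, ∀ᵐ g : ℝ, g ∈ Gs P r P' Λ o → 0 < g → g < 1 → g ∈ W o)
    (hI : RowsT H hTop hF W) (hII : StaT H hTop hF W) (q : (H.nk hTop hF).Par) :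
    NumI.Play q.cell := by
  have hlaw := H.tgs.law ()
  have hP01 : ∀ a : ℝ, 0 ≤ a → a ≤ 1 → a ≤ P a a ∧ P a a ≤ 1 := fun a h0 h1 =>
    ⟨H.tgs.low () a a h0 le_rfl h1, H.tgs.up () a a h0 le_rfl h1⟩
  -- the windows where the two thresholds of the target agree
  have hPT : ∀ o : Od n, ∀ᵐ b : ℝ, b ∈ Gs P r P' Λ o → 0 < b → b < 1 →
      PT hn PB o b b = P b b := by
    intro o
    have hm : Monotone (dgP (PT hn PB o)) := dgP_mono ((H.thb o.2).law _)
    have h1 : ∀ᵐ g : ℝ, ContinuousAt (dgP (PT hn PB o)) g := by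
      have h2 : ∀ᵐ g : ℝ, g ∉ {g | ¬ ContinuousAt (dgP (PT hn PB o)) g} :=
        hm.countable_not_continuousAt.ae_notMem _
      filter_upwards [h2] with g hg
      by_contra hcon
      exact hg hcon
    filter_upwards [h1, (H.nk hTop hF).hPG] with b h2 h3 hb h0 h1'
    refine le_antisymm (H.le o b b h0 le_rfl h1'.le) ?_
    have h4 := h3 o hb h0 h1'
    have h5 := h2.tendsto
    rw [dgP_eq _ h0.le h1'.le] at h5
    refine ge_of_tendsto (h5.mono_left (nhdsWithin_le_nhds (s := Ioi b))) ?_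
    filter_upwards [Ioo_mem_nhdsGT h1'] with x hx
    rw [dgP_eq _ (by linarith [hx.1]) hx.2.le]
    exact h4 x hx.1 hx.2.le
  obtain ⟨W', hW'⟩ : ∃ W' : Od n → Set ℝ, W' = fun o => (W o ∩ Gs P r P' Λ o) \
      toMeasurable volume {b | ¬ (b ∈ Gs P r P' Λ o → 0 < b → b < 1 →
        PT hn PB o b b = P b b)} := ⟨_, rfl⟩
  have hWW : ∀ o, W' o ⊆ W o := fun o b hb => by
    rw [hW'] at hb
    exact hb.1.1
  have hWG : ∀ o, W' o ⊆ Gs P r P' Λ o := fun o b hb => by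
    rw [hW'] at hb
    exact hb.1.2
  have hWP : ∀ o, ∀ b ∈ W' o, 0 < b → b < 1 → PT hn PB o b b = P b b := fun o b hb h0 h1 => by
    rw [hW'] at hb
    by_contra hcon
    refine hb.2 (subset_toMeasurable volume _ ?_)
    rw [Set.mem_ofPred_eq]
    exact fun h => hcon (h hb.1.2 h0 h1)
  have hP : (H.nk hTop hF).PlN W' (fun o => AttI (P' o.2)) := by
    refine ⟨fun o => ?_, fun o => ?_, fun o => attN_attI (H.cht o.2), fun o => ?_, fun o => ?_⟩
    · rw [hW']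
      exact ((hWm o).inter (H.toPk.gs_meas o)).diff (measurableSet_toMeasurable _ _)
    · have h1 : volume (toMeasurable volume {b | ¬ (b ∈ Gs P r P' Λ o → 0 < b → b < 1 →
          PT hn PB o b b = P b b)}) = 0 := by
        rw [measure_toMeasurable]
        exact hPT o
      filter_upwards [hWf o, measure_eq_zero_iff_ae_notMem.1 h1] with g h2 h3 h4 h5 h6
      rw [hW']
      exact ⟨⟨h2 h4 h5 h6, h4⟩, h3⟩
    · refine ae_of_all _ fun g hg h0 h1 j => ?_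
      obtain ⟨α, Q, c, F⟩ := H.toPk.fac hTop hF hg
      have h2 := F.le j j.2 g g h0 le_rfl F.gα
      have h3 := (tht_pos o.2).trans F.thc
      exact lt_of_le_of_lt h2 (by linarith)
    · filter_upwards [hI o, hII o] with g h1 h2 R
      have hdia : ∀ i ≤ n - 1, ∀ a, 0 ≤ a → a ≤ 1 →
          LL hn P P' o (i + 1) a a = (H.nk hTop hF).dg o i a := fun i hi a _ _ =>
        (H.dg_eq hTop hF o hi a).symm
      have hexin : ExIn S (ee hn o) (n - 1) (LL hn P P' o) (W' o) := fun w hw =>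
        H.toPk.exIn hF o w (hWG o hw)
      have hone : 1 ≤ deriv (fun a => P a a) g := by
        have h3 := R.one (n - 1) le_rfl
        have e1 : (H.nk hTop hF).dg o (n - 1) = fun a => P a a := (H.nk hTop hF).dg_m o
        rwa [e1] at h3
      rcases hone.eq_or_lt with h3 | h3
      · obtain ⟨α, Q, c, F⟩ := H.toPk.fac hTop hF R.mem
        obtain ⟨E, ρJ, hE, hρJ, htop, hJat⟩ := F.jatE H.toPk
        obtain ⟨E', ρ', hE', hρ', htop', hJat'⟩ := H.jatI hTop hF F hE hρJ htop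
          (hJat ρJ le_rfl)
        refine NumI.gmI_lab (H.ctx o) hexin R hdia ?_
        refine NumI.labI_one hlaw hP01 (H.ctx o) H.tmh R hdia (hWP o) h3.symm hρ' hE'.le htop'
          hJat' fun ρ'' hρ'' hJE => ?_
        exact (h1 R h3.symm E' ρ' ρ'' hE' hρ' hρ'' htop' hJE).mono_W (hWW o)
      · exact gmI_mono (h2 R h3) (hWW o)
  exact hP.play q

end

end Pool.PKG
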