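import Pool.Agent.H62.GEN.GmS

/-!
# The strategy of a class, from the rows (I) and the static chains

`NoR`: at almost every window of a row where the target has a slope larger than one, all levels of
the chain are static. `PkT.play_of`: the strategy of a class from the rows (I) and `NoR`.
-/

set_option autoImplicit false

namespace Pool.PKG

open MeasureTheory Set Filter Topology
open Pool.Agent.H49.Ent Pool.Agent.H32.Dense Pool.STK Pool.KA Pool.KSAT Pool.K2S Pool.PB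
open Pool.GEN Pool.S6C Pool.STAT Pool.CHT Pool.GRW Pool.ONE Pool.STA
open Pool.LBT (LSys ThrOf)
open Pool.LEV (Law)
open Pool.ALL (RateOf)
open Pool.TOP (TopS)
open Pool.RTS (iso iso_dia diag_thr Diag)
open Pool.STR (NumI LeT CellD AttN StaAt)
open Pool.FRN (AttC UpA Wgd attN_attC)

variable {n : ℕ} {hn : 2 ≤ n} {S : PCl n} {P : ℝ → ℝ → ℝ} {r : ℝ → ℝ}
  {P' : ℕ → List (Fin n) × Fin n → ℝ → ℝ → ℝ} {Λ : Finset (Fin n) → Fin n → ℝ → ℝ → ℝ}
  {PB : ℕ → List (Fin n) × Fin n → ℝ → ℝ → ℝ}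

/-- **No rough coordinate in the rows (II)**: where the slope of the target is larger than one, the
levels of the chain are static, at almost every window. -/
def NoR (H : PkT hn S P r P' Λ PB) (hTop : TopS n) (hF : FZX (n - 1)) : Prop :=
  ∀ o : Od n, ∀ᵐ g : ℝ, (H.nk hTop hF).RwD o g → 1 < deriv (fun a => P a a) g →
    ∀ i < n - 1, StaAt (LL hn P P' o (i + 1)) g

/-- The windows of the row where the two thresholds of the target agree. -/
theorem PkT.exW (H : PkT hn S P r P' Λ PB) (hTop : TopS n) (hF : FZX (n - 1)) {W : Od n → Set ℝ}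
    (hWm : ∀ o, MeasurableSet (W o))
    (hWf : ∀ o, ∀ᵐ g : ℝ, g ∈ Gs P r P' Λ o → 0 < g → g < 1 → g ∈ W o) :
    ∃ W' : Od n → Set ℝ, (∀ o, MeasurableSet (W' o)) ∧
      (∀ o, ∀ᵐ g : ℝ, g ∈ Gs P r P' Λ o → 0 < g → g < 1 → g ∈ W' o) ∧ (∀ o, W' o ⊆ W o) ∧
      (∀ o, W' o ⊆ Gs P r P' Λ o) ∧ ∀ o, ∀ b ∈ W' o, 0 < b → b < 1 → PT hn PB o b b = P b b := by
  have hPT : ∀ o : Od n, ∀ᵐ b : ℝ, b ∈ Gs P r P' Λ o → 0 < b → b < 1 →
      PT hn PB o b b = P b b := by
    intro o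
    have hm : Monotone (dgP (PT hn PB o)) := dgP_mono ((H.thb o.2).law _)
    have h1 : ∀ᵐ g : ℝ, ContinuousAt (dgP (PT hn PB o)) g := by
      have h2 : ∀ᵐ g : ℝ, g ∉ {g | ¬ ContinuousAt (dgP (PT hn PB o)) g} :=
        hm.countable_not_continuousAt.ae_notMem _
      filter_upwards [h2] with g hg
      by_contra hcon
      exact hg hcon
    filter_upwards [h1, (H.nk hTop hF).hPG] with b h2 h3 hb h0 h1'
    refine le_antisymm (H.le o b b h0 le_rfl h1'.le) ?_
    have h4 := h3 o hb h0 h1'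
    have h5 := h2.tendsto
    rw [dgP_eq _ h0.le h1'.le] at h5
    refine ge_of_tendsto (h5.mono_left (nhdsWithin_le_nhds (s := Ioi b))) ?_
    filter_upwards [Ioo_mem_nhdsGT h1'] with x hx
    rw [dgP_eq _ (by linarith [hx.1]) hx.2.le]
    exact h4 x hx.1 hx.2.le
  obtain ⟨W', hW'⟩ : ∃ W' : Od n → Set ℝ, W' = fun o => (W o ∩ Gs P r P' Λ o) \
      toMeasurable volume {b | ¬ (b ∈ Gs P r P' Λ o → 0 < b → b < 1 →
        PT hn PB o b b = P b b)} := ⟨_, rfl⟩
  refine ⟨W', fun o => ?_, fun o => ?_, fun o b hb => ?_, fun o b hb => ?_, fun o b hb h0 h1 => ?_⟩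
  · rw [hW']
    exact ((hWm o).inter (H.toPk.gs_meas o)).diff (measurableSet_toMeasurable _ _)
  · have h1 : volume (toMeasurable volume {b | ¬ (b ∈ Gs P r P' Λ o → 0 < b → b < 1 →
        PT hn PB o b b = P b b)}) = 0 := by
      rw [measure_toMeasurable]
      exact hPT o
    filter_upwards [hWf o, measure_eq_zero_iff_ae_notMem.1 h1] with g h2 h3 h4 h5 h6
    rw [hW']
    exact ⟨⟨h2 h4 h5 h6, h4⟩, h3⟩
  · rw [hW'] at hb
    exact hb.1.1
  · rw [hW'] at hb
    exact hb.1.2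
  · rw [hW'] at hb
    by_contra hcon
    refine hb.2 (subset_toMeasurable volume _ ?_)
    rw [Set.mem_ofPred_eq]
    exact fun h => hcon (h hb.1.2 h0 h1)

/-- **Rows (II)** from the static chains. -/
theorem PkT.staT_of (H : PkT hn S P r P' Λ PB) (hTop : TopS n) (hF : FZX (n - 1))
    (hR : NoR H hTop hF) {W : Od n → Set ℝ} (hWG : ∀ o, W o ⊆ Gs P r P' Λ o)
    (hWP : ∀ o, ∀ b ∈ W o, 0 < b → b < 1 → PT hn PB o b b = P b b) : StaT H hTop hF W := by
  intro o
  filter_upwards [hR o] with g h1 R h2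
  exact H.gmI_sta hTop hF R (h1 R h2) (hWG o) (hWP o)

/-- **The strategy of a class**, from the rows (I) and the static chains. -/
theorem PkT.play_of (H : PkT hn S P r P' Λ PB) (hTop : TopS n) (hF : FZX (n - 1))
    {W : Od n → Set ℝ} (hWm : ∀ o, MeasurableSet (W o))
    (hWf : ∀ o, ∀ᵐ g : ℝ, g ∈ Gs P r P' Λ o → 0 < g → g < 1 → g ∈ W o)
    (hI : RowsT H hTop hF W) (hR : NoR H hTop hF) (q : (H.nk hTop hF).Par) :
    NumI.Play q.cell := by
  obtain ⟨W', h1, h2, h3, h4, h5⟩ := H.exW hTop hF hWm hWf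
  refine H.play hTop hF h1 h2 (fun o => ?_) (H.staT_of hTop hF hR h4 h5) q
  filter_upwards [hI o] with g k1 k2 k3 E ρJ ρ' k4 k5 k6 k7 k8
  exact (k1 k2 k3 E ρJ ρ' k4 k5 k6 k7 k8).mono_W (h3 o)

end Pool.PKG
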