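import Pool.Agent.H75.STAT.ShW

/-!
# The wide cell with slopes

`CellX`: the wide cell `CellW` (helper75), where moreover the levels on the lines of direction
`(1, 1)` through the offsets in `F` are affine on `[-o, o]`, up to `dl o + ε` in the radius. It can
be shifted.
-/

set_option autoImplicit false

namespace Pool.STAT

open Pool.LEV

/-- **The wide cell** of size `r` below the radius `a`, with slopes. -/
structure CellX (L : ℕ → ℝ → ℝ → ℝ) (n : ℕ) (S : Finset ℕ) (σ : ℕ → ℝ) (s A R : ℕ) (k : ℕ → ℝ)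
    (θ τ γ μ : ℝ) (F : Finset (ℚ × ℚ)) (V : ℚ × ℚ → ℕ) (dl o a r ε : ℝ) : Prop
    extends CellW L n S σ s A R k θ τ γ μ F V o a r ε where
  df : ∀ i ≤ n, ∀ x ∈ F, ∃ β : ℝ, 0 ≤ β ∧ β ≤ V x ∧ ∀ v : ℝ, -o ≤ v → v ≤ o →
    |L i (a - (x.1 - v) * r) (a - (x.2 - v) * r) - L i (a - x.1 * r) (a - x.2 * r) -
      β * v * r| ≤ (dl * o + ε) * r

namespace CellX

variable {L : ℕ → ℝ → ℝ → ℝ} {n : ℕ} {S : Finset ℕ} {σ : ℕ → ℝ} {s A R : ℕ} {k : ℕ → ℝ}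
  {θ τ γ μ : ℝ} {F : Finset (ℚ × ℚ)} {V : ℚ × ℚ → ℕ} {dl o a r ε : ℝ}

/-- **Shift of the centre.** -/
theorem shift (H : CellX L n S σ s A R k θ τ γ μ F V dl o a r ε) (hL : ∀ i ≤ n, Law (L i))
    (hS : ∀ i ∈ S, i ≤ n) (hr : 0 < r) (hγ : 0 ≤ γ) {μ' dl' o' δ ε' b B : ℝ} (hμ' : 0 ≤ μ')
    (hk0 : ∀ j ≤ R, 0 ≤ k j) (hkγ : ∀ j ≤ R, γ ≤ k j) (hkA : ∀ j ≤ R, k j ≤ A * k 0)
    (hδ : 0 ≤ δ) (hδμ : μ' + δ ≤ μ) (hδo : o' + δ ≤ o) (ho' : 0 ≤ o')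
    (hσ : ∀ i ≤ n, 0 ≤ σ i) (hσB : ∀ i ≤ n, σ i ≤ B)
    (hF : ∀ x ∈ F, 0 ≤ x.1 ∧ x.1 ≤ x.2) (hFr : ∀ x ∈ F, x.2 * r ≤ a / 2)
    (hε : 2 * ε + (B + s) * δ ≤ ε') (hεV : ∀ x ∈ F, 2 * ε + V x * δ ≤ ε') (hε0 : 0 ≤ ε)
    (hdl : 2 * (dl * o + ε) ≤ dl' * o' + ε')
    (hb : |b - a| ≤ δ * r) (hδa : 2 * (δ * r) ≤ a / 2) (hsa : 2 ≤ s * b) :
    CellX L n S σ s A R k θ τ γ μ' F V dl' o' b r ε' := by
  refine ⟨H.toCellW.shift hL hS hr hγ hμ' hk0 hkγ hkA hδ hδμ hδo ho' hσ hσB hF hFr hε hεV hε0 hb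
    hδa hsa, fun i hi x hx => ?_⟩
  obtain ⟨β, h1, h2, h3⟩ := H.df i hi x hx
  refine ⟨β, h1, h2, fun v hv1 hv2 => ?_⟩
  obtain ⟨u, hu⟩ : ∃ u, u = (b - a) / r := ⟨_, rfl⟩
  have hur : u * r = b - a := by rw [hu, div_mul_cancel₀ _ hr.ne']
  have hub : |u| ≤ δ := by
    have h4 : |u| * r ≤ δ * r := by
      rw [← abs_of_pos hr, ← abs_mul, abs_of_pos hr, hur]
      exact hb
    exact le_of_mul_le_mul_right h4 hr
  obtain ⟨hu1, hu2⟩ := abs_le.1 hub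
  have k1 := abs_le.1 (h3 (v + u) (by linarith) (by linarith))
  have k2 := abs_le.1 (h3 u (by linarith) (by linarith))
  have e1 : a - (x.1 - (v + u)) * r = b - (x.1 - v) * r := by
    have : a - (x.1 - (v + u)) * r = a + u * r - (x.1 - v) * r := by ring
    rw [this, hur]
    ring
  have e2 : a - (x.2 - (v + u)) * r = b - (x.2 - v) * r := by
    have : a - (x.2 - (v + u)) * r = a + u * r - (x.2 - v) * r := by ring
    rw [this, hur]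
    ring
  have e3 : a - (x.1 - u) * r = b - x.1 * r := by
    have : a - (x.1 - u) * r = a + u * r - x.1 * r := by ring
    rw [this, hur]
    ring
  have e4 : a - (x.2 - u) * r = b - x.2 * r := by
    have : a - (x.2 - u) * r = a + u * r - x.2 * r := by ring
    rw [this, hur]
    ring
  rw [e1, e2] at k1
  rw [e3, e4] at k2
  have k3 := mul_le_mul_of_nonneg_right hdl hr.le
  have e5 : β * (v + u) * r = β * v * r + β * u * r := by ring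
  have e6 : 2 * (dl * o + ε) * r = (dl * o + ε) * r + (dl * o + ε) * r := by ring
  rw [e5] at k1
  rw [e6] at k3
  rw [abs_le]
  constructor <;> linarith [k1.1, k1.2, k2.1, k2.2]

end CellX

end Pool.STAT
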