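import Pool.Agent.H77.STAT.ProfF

/-!
# Strategies against the cells of families

`FamP`: at every small scale there is a selected family whose diagonals are affine and whose last
level is static. `GmeF`: a strategy against the wide cells of such families with a generic centre;
`gmeF`: this is impossible.
-/

set_option autoImplicit false

namespace Pool.STR

open Set Filter Topology Pool.LEV MeasureTheory
open scoped ENNReal

/-- **The generic shift**, for every good set `Att` of pairs. -/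
theorem good_shiftF {W : Set ℝ} {a δ : ℝ} (hW : Dns W a)
    (hδ : 0 < δ) (K : Finset ℝ) : ∃ r₁ : ℝ, 0 < r₁ ∧ ∀ (Att : Set (ℝ × ℝ)), AttN Att →
      ∀ r b : ℝ, 0 < r → r < r₁ → |b - a| ≤ r → ∃ t : ℝ, 0 ≤ t ∧ t ≤ δ * r ∧ (∀ k ∈ K, b + t - k * r ∈ W) ∧
        ∀ p₁ q₁ p₂ q₂ : ℚ, 0 < b + t - p₂ - q₂ * r →
          b + t - p₂ - q₂ * r ≤ b + t - p₁ - q₁ * r → b + t - p₁ - q₁ * r < 1 →
            (b + t - p₁ - q₁ * r, b + t - p₂ - q₂ * r) ∈ Att := by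
  classical
  obtain ⟨C, hC0, hC⟩ : ∃ C : ℝ, 0 ≤ C ∧ ∀ k ∈ K, |k| ≤ C :=
    ⟨∑ k ∈ K, |k|, Finset.sum_nonneg fun _ _ => abs_nonneg _, fun k hk =>
      Finset.single_le_sum (f := fun k => |k|) (fun _ _ => abs_nonneg _) hk⟩
  obtain ⟨δ', hδ'⟩ : ∃ δ', δ' = min δ 1 := ⟨_, rfl⟩
  have hδ'0 : 0 < δ' := by rw [hδ']; exact lt_min hδ one_pos
  have hδ'1 : δ' ≤ 1 := by rw [hδ']; exact min_le_right _ _
  have hδ'δ : δ' ≤ δ := by rw [hδ']; exact min_le_left _ _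
  have hN : (0 : ℝ) < (K.card : ℝ) + 1 := by positivity
  obtain ⟨r₁, hr₁, h1⟩ := hW (δ' / (K.card + 1) / (C + 2)) (by positivity)
  refine ⟨r₁ / (C + 2), by positivity, fun Att hA r b hr hrr hb => ?_⟩
  rw [lt_div_iff₀ (by positivity)] at hrr
  have h2 := h1 ((C + 2) * r) (by positivity) (by linarith)
  have e1 : δ' / (K.card + 1) / (C + 2) * ((C + 2) * r) = δ' * r / (K.card + 1) := by
    field_simp
  rw [e1] at h2
  obtain ⟨hb1, hb2⟩ := abs_le.1 hb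
  -- the bad sets
  obtain ⟨BW, hBW⟩ : ∃ BW : ℝ → Set ℝ, BW = fun k => (fun t => t + (b - k * r)) ⁻¹'
      (Ioo (a - (C + 2) * r) (a + (C + 2) * r) \ W) := ⟨_, rfl⟩
  have hBWm : ∀ k, volume (BW k) ≤ ENNReal.ofReal (δ' * r / (K.card + 1)) := fun k => by
    rw [hBW]
    simp only
    rw [measure_preimage_add_right]
    exact h2
  have hAe : ∀ᵐ t : ℝ, ∀ p₁ q₁ p₂ q₂ : ℚ, b - p₂ - q₂ * r ≤ b - p₁ - q₁ * r →
      0 < b - p₂ - q₂ * r + t → b - p₁ - q₁ * r + t < 1 →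
        (b - p₁ - q₁ * r + t, b - p₂ - q₂ * r + t) ∈ Att := by
    rw [ae_all_iff]
    intro p₁
    rw [ae_all_iff]
    intro q₁
    rw [ae_all_iff]
    intro p₂
    rw [ae_all_iff]
    intro q₂
    by_cases hle : b - p₂ - q₂ * r ≤ b - p₁ - q₁ * r
    · filter_upwards [hA _ _ hle] with t ht _
      exact ht
    · exact Filter.Eventually.of_forall fun t h => absurd h hle
  have hex : ∃ t ∈ Ioo 0 (δ' * r), t ∉ (⋃ k ∈ K, BW k) ∧
      ∀ p₁ q₁ p₂ q₂ : ℚ, b - p₂ - q₂ * r ≤ b - p₁ - q₁ * r →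
      0 < b - p₂ - q₂ * r + t → b - p₁ - q₁ * r + t < 1 →
        (b - p₁ - q₁ * r + t, b - p₂ - q₂ * r + t) ∈ Att := by
    by_contra hcon
    push Not at hcon
    have h3 : Ioo 0 (δ' * r) ⊆ (⋃ k ∈ K, BW k) ∪ {t | ¬ ∀ p₁ q₁ p₂ q₂ : ℚ,
        b - p₂ - q₂ * r ≤ b - p₁ - q₁ * r → 0 < b - p₂ - q₂ * r + t →
        b - p₁ - q₁ * r + t < 1 → (b - p₁ - q₁ * r + t, b - p₂ - q₂ * r + t) ∈ Att} := by
      intro t ht
      by_cases htB : t ∈ ⋃ k ∈ K, BW k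
      · exact Or.inl htB
      · obtain ⟨p₁, q₁, p₂, q₂, g1, g2, g3, g4⟩ := hcon t ht htB
        exact Or.inr fun hall => g4 (hall p₁ q₁ p₂ q₂ g1 g2 g3)
    have h4 : volume (Ioo 0 (δ' * r)) ≤
        ENNReal.ofReal (K.card * (δ' * r / (K.card + 1))) := by
      refine (measure_mono h3).trans ((measure_union_le _ _).trans ?_)
      have h5 : volume {t : ℝ | ¬ ∀ p₁ q₁ p₂ q₂ : ℚ,
        b - p₂ - q₂ * r ≤ b - p₁ - q₁ * r → 0 < b - p₂ - q₂ * r + t →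
        b - p₁ - q₁ * r + t < 1 → (b - p₁ - q₁ * r + t, b - p₂ - q₂ * r + t) ∈ Att} = 0 :=
        ae_iff.1 hAe
      rw [h5, add_zero]
      refine (measure_biUnion_finset_le _ _).trans ((Finset.sum_le_sum fun k _ =>
        hBWm k).trans ?_)
      rw [Finset.sum_const, nsmul_eq_mul, ← ENNReal.ofReal_natCast K.card,
        ← ENNReal.ofReal_mul (Nat.cast_nonneg _)]
    rw [Real.volume_Ioo, ENNReal.ofReal_le_ofReal_iff (by positivity), sub_zero,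
      mul_div_assoc', le_div_iff₀ hN] at h4
    have : 0 < δ' * r := mul_pos hδ'0 hr
    linarith only [h4, this]
  obtain ⟨t, ht, htB, htA⟩ := hex
  have hδr : δ' * r ≤ δ * r := mul_le_mul_of_nonneg_right hδ'δ hr.le
  have hδr1 : δ' * r ≤ r := by nlinarith only [hδ'1, hr]
  refine ⟨t, ht.1.le, by linarith [ht.2], fun k hk => ?_, fun p₁ q₁ p₂ q₂ g1 g2 g3 => ?_⟩
  · by_contra hcon
    refine htB (mem_biUnion hk ?_)
    rw [hBW]
    have hk1 := abs_le.1 (hC k hk)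
    have hkr1 : -C * r ≤ k * r := mul_le_mul_of_nonneg_right hk1.1 hr.le
    have hkr2 : k * r ≤ C * r := mul_le_mul_of_nonneg_right hk1.2 hr.le
    have e2 : t + (b - k * r) = b + t - k * r := by ring
    refine ⟨⟨?_, ?_⟩, ?_⟩
    · simp only
      nlinarith only [hr, hb1, hkr2, ht, ht.1]
    · simp only
      nlinarith only [hb2, hδr1, hkr1, ht, ht.2]
    · simp only
      rw [e2]
      exact hcon
  · have e1 : b + t - p₁ - q₁ * r = b - p₁ - q₁ * r + t := by ring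
    have e2 : b + t - p₂ - q₂ * r = b - p₂ - q₂ * r + t := by ring
    rw [e1] at g2 g3 ⊢
    rw [e2] at g1 g2 ⊢
    exact htA p₁ q₁ p₂ q₂ (by linarith only [g2]) g1 g3

/-- The families `L x` near the radius `a`: for every `e`, at every small scale `r` there is a
family which is selected (`OK x e r`, any property), whose diagonals are affine with the slopes `σ`
up to `e r`, have the backward slopes `K`, and whose last level is static up to `e r`. -/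
def FamP {κ : Type*} (L : κ → ℕ → ℝ → ℝ → ℝ) (OK : κ → ℝ → ℝ → Prop) (n : ℕ) (d σ K : ℕ → ℝ)
    (a : ℝ) : Prop :=
  ∀ e : ℝ, 0 < e → ∃ r₀ : ℝ, 0 < r₀ ∧ ∀ r : ℝ, 0 < r → r < r₀ → ∃ x : κ, OK x e r ∧
    (∀ i ≤ n, Law (L x i)) ∧
    (∀ i ≤ n, ∀ y : ℝ, -1 ≤ y → y ≤ 1 →
      |L x i (a + y * r) (a + y * r) - d i - σ i * y * r| ≤ e * r) ∧
    (∀ i ≤ n, ∀ v : ℝ, 0 ≤ v → v ≤ a →
      L x i a a - L x i (a - v) (a - v) ≤ K i * v + e * r) ∧
    ∀ a' w' : ℝ, a - r ≤ w' → w' ≤ a' → a' ≤ a + r → L x n a' a' - e * r ≤ L x n a' w'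

/-- **A strategy against the wide cells of families with a generic centre.** -/
def GmeF {κ : Type*} (L : κ → ℕ → ℝ → ℝ → ℝ) (OK : κ → ℝ → ℝ → Prop) (n : ℕ) (σ : ℕ → ℝ) (a : ℝ)
    (W : Set ℝ) (Att : κ → Set (ℝ × ℝ)) : Prop :=
  ∃ A R : ℕ, 1 ≤ A ∧ ∀ (S : Finset ℕ) (m : ℕ → ℕ) (s : ℕ) (V : ℚ × ℚ → ℕ) (θ : ℝ),
    S ⊆ Finset.range n → 1 ≤ m 0 → (∀ j, m j < m (j + 1)) → 0 < θ →
    ∃ τ : ℝ, 0 < τ ∧ ∀ g₀ : ℝ, 0 < g₀ → g₀ ≤ 1 / 2 ^ m R →
      ∃ (γ μ : ℝ) (F : Finset (ℚ × ℚ)), 0 ≤ γ ∧ γ ≤ g₀ ∧ 0 ≤ μ ∧ μ ≤ g₀ ∧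
        (∀ x ∈ F, 0 ≤ x.1 ∧ x.1 ≤ x.2 ∧ x.2 ≤ 1 / 2) ∧
        ∃ dl : ℝ, 0 < dl ∧
        ∀ o₀ : ℝ, 0 < o₀ → ∃ o : ℝ, 0 < o ∧ o ≤ o₀ ∧ ∃ ε : ℝ, 0 < ε ∧ ∃ e : ℝ, 0 < e ∧
          ∃ r₁ : ℝ, 0 < r₁ ∧ ∃ K : Finset ℝ, ∀ (x : κ) (r b : ℝ), 0 < r → r < r₁ →
            |b - a| ≤ 2 * r → OK x e r →
            STAT.CellX (L x) n S σ s A R (fun j => 1 / 2 ^ m j) θ τ γ μ F V dl o b r ε →
            (∀ k ∈ K, b - k * r ∈ W) →
            (∀ p₁ q₁ p₂ q₂ : ℚ, 0 < b - p₂ - q₂ * r → b - p₂ - q₂ * r ≤ b - p₁ - q₁ * r →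
              b - p₁ - q₁ * r < 1 → (b - p₁ - q₁ * r, b - p₂ - q₂ * r) ∈ Att x) → False

/-- **Nobody has a strategy against the cells of families which exist.** -/
theorem gmeF {κ : Type*} {L : κ → ℕ → ℝ → ℝ → ℝ} {OK : κ → ℝ → ℝ → Prop} {n : ℕ}
    {d σ K : ℕ → ℝ} {a : ℝ} {W : Set ℝ} {Att : κ → Set (ℝ × ℝ)} (h0 : 0 < a) (h1 : a < 1)
    (hσ : ∀ i ≤ n, 0 ≤ σ i) (hW : Dns W a) (hA : ∀ x, AttN (Att x))
    (hOK : ∀ x e e' r, 0 < r → OK x e r → e ≤ e' → OK x e' r) (hP : FamP L OK n d σ K a)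
    (G : GmeF L OK n σ a W Att) : False := by
  classical
  -- the sequence
  have hseq : ∀ t : ℕ, ∃ (x : κ) (r : ℝ), 0 < r ∧ r ≤ 1 / ((t : ℝ) + 1) ∧ OK x (1 / ((t : ℝ) + 1)) r ∧
      (∀ i ≤ n, Law (L x i)) ∧
      (∀ i ≤ n, ∀ y : ℝ, -1 ≤ y → y ≤ 1 →
        |L x i (a + y * r) (a + y * r) - d i - σ i * y * r| ≤ 1 / ((t : ℝ) + 1) * r) ∧
      (∀ i ≤ n, ∀ v : ℝ, 0 ≤ v → v ≤ a →
        L x i a a - L x i (a - v) (a - v) ≤ K i * v + 1 / ((t : ℝ) + 1) * r) ∧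
      ∀ a' w' : ℝ, a - r ≤ w' → w' ≤ a' → a' ≤ a + r →
        L x n a' a' - 1 / ((t : ℝ) + 1) * r ≤ L x n a' w' := by
    intro t
    have ht : (0 : ℝ) < 1 / ((t : ℝ) + 1) := by positivity
    obtain ⟨r₀, hr₀, h⟩ := hP _ ht
    obtain ⟨r, hr⟩ : ∃ r, r = min (r₀ / 2) (1 / ((t : ℝ) + 1)) := ⟨_, rfl⟩
    have hr0 : 0 < r := by rw [hr]; exact lt_min (half_pos hr₀) ht
    have hr1 : r < r₀ := by
      have : r ≤ r₀ / 2 := by rw [hr]; exact min_le_left _ _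
      linarith
    obtain ⟨x, h2, h3, h4, h5, h6⟩ := h r hr0 hr1
    exact ⟨x, r, hr0, by rw [hr]; exact min_le_right _ _, h2, h3, h4, h5, h6⟩
  choose x r hr hrt hok hlaw hdiag hslope htri using hseq
  have hlim1 : Tendsto (fun t : ℕ => 1 / ((t : ℝ) + 1)) atTop (𝓝 0) :=
    tendsto_one_div_add_atTop_nhds_zero_nat
  obtain ⟨U, hU⟩ : ∃ U : Ultrafilter ℕ, (U : Filter ℕ) ≤ atTop := ⟨hyperfilter ℕ, by
    rw [← Nat.cofinite_eq_atTop]; exact hyperfilter_le_cofinite⟩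
  have hlimU : Tendsto (fun t : ℕ => 1 / ((t : ℝ) + 1)) (U : Filter ℕ) (𝓝 0) := hlim1.mono_left hU
  have hrU : Tendsto r (U : Filter ℕ) (𝓝 0) :=
    squeeze_zero (fun t => (hr t).le) hrt hlimU
  have hev : ∀ η : ℝ, 0 < η → ∀ᶠ t : ℕ in (U : Filter ℕ), 1 / ((t : ℝ) + 1) < η := fun η hη =>
    (tendsto_order.1 hlimU).2 η hη
  have hLo : ∀ i ≤ n, STAT.PrF.Lo (U : Filter ℕ) r (fun t => L (x t) i) (d i) a (min a (1 - a))
      (σ i) := by
    intro i hi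
    refine ⟨fun t => hlaw t i hi, lt_min h0 (by linarith only [h1]), min_le_left _ _, ?_, hσ i hi, ?_⟩
    · have := min_le_right a (1 - a)
      linarith only [this]
    · intro η hη
      filter_upwards [hev η hη] with t ht y hy1 hy2
      exact (hdiag t i hi y hy1 hy2).trans (mul_le_mul_of_nonneg_right ht.le (hr t).le)
  have hprof := STAT.profileF (L := fun i t => L (x t) i) (K := K) h0 h1 hr hrU hLo
    (fun i hi η hη => by
      filter_upwards [hev η hη] with t ht v hv1 hv2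
      have := mul_le_mul_of_nonneg_right ht.le (hr t).le
      have := hslope t i hi v hv1 hv2
      linarith)
    (fun η hη => by
      filter_upwards [hev η hη] with t ht a' w' g1 g2 g3
      have := mul_le_mul_of_nonneg_right ht.le (hr t).le
      have := htri t a' w' g1 g2 g3
      linarith)
  obtain ⟨B, hB⟩ : ∃ B : ℝ, ∀ i ≤ n, σ i ≤ B :=
    ⟨∑ i ∈ Finset.range (n + 1), |σ i|, fun i hi => (le_abs_self _).trans
      (Finset.single_le_sum (f := fun i => |σ i|) (fun _ _ => abs_nonneg _)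
        (Finset.mem_range.2 (Nat.lt_succ_of_le hi)))⟩
  have hB0 : 0 ≤ B := (hσ 0 (Nat.zero_le n)).trans (hB 0 (Nat.zero_le n))
  obtain ⟨A, R, hA1, G⟩ := G
  obtain ⟨S, m, s, V, θ, hS, hm1, hms, hθ, hprof⟩ := hprof A R
  obtain ⟨τ, hτ, G⟩ := G S m s V θ hS hm1 hms hθ
  obtain ⟨g₀, hg, hgR, hprof⟩ := hprof τ hτ
  obtain ⟨γ, μ, F, hγ, hγg, hμ, hμg, hF, dl, hdl, G⟩ := G (g₀ / 2) (half_pos hg)
    (by linarith only [hg, hgR])
  obtain ⟨o₀, ho₀, hprof⟩ := hprof γ (μ + g₀ / 2) hγ (by linarith only [hg, hγg])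
    (by linarith only [hg, hμ]) (by linarith only [hμg]) F hF (dl / 8) (by positivity)
  obtain ⟨o, ho, hoo, ε, hε, e, he, r₁, hr₁, KK, G⟩ := G (o₀ / 2) (half_pos ho₀)
  have hprof := hprof (2 * o) (by positivity) (by linarith only [hoo]) (ε / 4) (by positivity)
  have hmmono : StrictMono m := strictMono_nat_of_lt_succ hms
  have hanti : ∀ m m' : ℕ, m ≤ m' → (1 : ℝ) / 2 ^ m' ≤ 1 / 2 ^ m := fun m m' h =>
    one_div_le_one_div_of_le (by positivity) (pow_le_pow_right₀ (by norm_num) h)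
  have hpow0 : ∀ m : ℕ, (0 : ℝ) < 1 / 2 ^ m := fun m => by positivity
  have hs0 : (0 : ℝ) ≤ s := Nat.cast_nonneg s
  have hA1' : (1 : ℝ) ≤ A := by exact_mod_cast hA1
  -- the size of the shift
  obtain ⟨D, hD⟩ : ∃ D : ℝ, D = (B + s) + ∑ x ∈ F, (V x : ℝ) + 1 := ⟨_, rfl⟩
  have hsum0 : 0 ≤ ∑ x ∈ F, (V x : ℝ) := Finset.sum_nonneg fun _ _ => Nat.cast_nonneg _
  have hD1 : 1 ≤ D := by rw [hD]; linarith only [hB0, hsum0, hs0]
  have hDV : ∀ x ∈ F, (V x : ℝ) ≤ D := fun x hx => by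
    have : (V x : ℝ) ≤ ∑ x ∈ F, (V x : ℝ) :=
      Finset.single_le_sum (f := fun x => (V x : ℝ)) (fun _ _ => Nat.cast_nonneg _) hx
    rw [hD]
    linarith only [hB0, this, hs0]
  obtain ⟨δ, hδ0, hδg, hδo, hδ1, hδD⟩ : ∃ δ : ℝ, 0 < δ ∧ δ ≤ g₀ / 2 ∧ δ ≤ o ∧ δ ≤ 1 ∧
      D * δ ≤ ε / 2 := by
    have hp : 0 < min (min (g₀ / 2) o) (min 1 (ε / 2 / D)) :=
      lt_min (lt_min (half_pos hg) ho) (lt_min one_pos (by positivity))
    refine ⟨_, hp, (min_le_left _ _).trans (min_le_left _ _),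
      (min_le_left _ _).trans (min_le_right _ _), (min_le_right _ _).trans (min_le_left _ _), ?_⟩
    have h1 : min (min (g₀ / 2) o) (min 1 (ε / 2 / D)) ≤ ε / 2 / D :=
      (min_le_right _ _).trans (min_le_right _ _)
    rw [le_div_iff₀ (by linarith only [hD1])] at h1
    linarith only [h1]
  -- one scale of the sequence
  have hr4 : ∀ᶠ t in (U : Filter ℕ), r t < min r₁ (a / 4) :=
    (tendsto_order.1 hrU).2 _ (lt_min hr₁ (by linarith only [h0]))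
  -- the shift for the family
  obtain ⟨r₂, hr₂, hsh⟩ := good_shiftF hW hδ0 KK
  have hr5 : ∀ᶠ t in (U : Filter ℕ), r t < r₂ := (tendsto_order.1 hrU).2 _ hr₂
  obtain ⟨t, ⟨b, hab, hba, C⟩, ht1, ht2, ht3⟩ := (hprof.and (hr4.and (hr5.and (hev e he)))).exists
  have hrt0 := hr t
  have hr1 : r t < r₁ := ht1.trans_le (min_le_left _ _)
  have hr3 : r t < a / 4 := ht1.trans_le (min_le_right _ _)
  obtain ⟨u, hu1, hu2, hK, hAt⟩ := hsh (Att (x t)) (hA (x t)) (r t) b hrt0 ht2 hba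
  have hδr : δ * r t ≤ r t := by nlinarith only [hδ1, hrt0]
  obtain ⟨hb1, hb2⟩ := abs_le.1 hba
  have hBs : (B + s) * δ ≤ D * δ := mul_le_mul_of_nonneg_right (by rw [hD]; linarith only [hsum0]) hδ0.le
  -- the slope condition at the new centre
  have hs2 : 2 ≤ s * (b + u) := by
    have h1 := C.one
    have h2 : s * b ≤ s * (b + u) := mul_le_mul_of_nonneg_left (by linarith only [hu1]) hs0
    linarith only [h1, h2]
  refine G (x t) (r t) (b + u) hrt0 hr1 (abs_le.2 ⟨by linarith only [hrt0, hab, hu1], by linarith only [hu2, hδr, hb2]⟩)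
    (hOK _ _ _ _ hrt0 (hok t) ht3.le) ?_ hK hAt
  refine C.shift (b := b + u) (δ := δ) (μ' := μ) (o' := o) (ε' := ε) (B := B) (fun i hi => hlaw t i hi)
    (fun i hi => (Finset.mem_range.1 (hS hi)).le) hrt0 hγ hμ (fun j _ => (hpow0 _).le)
    (fun j hj => ?_) (fun j hj => ?_) hδ0.le (by linarith only [hδg]) (by linarith only [hδo]) ho.le hσ hB
    (fun x hx => ⟨(hF x hx).1, (hF x hx).2.1⟩) (fun x hx => ?_) (by linarith only [hδD, hBs])
    (fun x hx => ?_) (by positivity) (by nlinarith only [mul_pos hdl ho, hε]) ?_ ?_ hs2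
  · have := hanti (m j) (m R) (hmmono.monotone hj)
    linarith only [hgR, hγg, hδ0, hδg, this]
  · have h1 := hanti (m 0) (m j) (hmmono.monotone (Nat.zero_le j))
    have h2 : 1 / 2 ^ m 0 ≤ (A : ℝ) * (1 / 2 ^ m 0) := by
      have := mul_le_mul_of_nonneg_right hA1' (hpow0 (m 0)).le
      linarith only [this]
    exact h1.trans h2
  · have h1 : ((x.2 : ℚ) : ℝ) ≤ 1 / 2 := by
      have h4 : ((x.2 : ℚ) : ℝ) ≤ ((1 / 2 : ℚ) : ℝ) := by exact_mod_cast (hF x hx).2.2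
      push_cast at h4
      exact h4
    have h2 : (x.2 : ℝ) * r t ≤ 1 / 2 * r t := mul_le_mul_of_nonneg_right h1 hrt0.le
    linarith only [hrt0, hab, hr3, h2]
  · have := mul_le_mul_of_nonneg_right (hDV x hx) hδ0.le
    linarith only [hδD, this]
  · rw [add_sub_cancel_left, abs_of_nonneg hu1]
    exact hu2
  · linarith only [hab, hr3, hδr]

end Pool.STR
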