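import Pool.Agent.H77.GEN.WfF
import Pool.Agent.H77.STAT.GmeF

/-!
# The families selected at a row

If there are no cells (`NoJB2`, `NoFB`) and there is a selection of families at the row `Q`
(`SelB`), then the selected families satisfy `FamP` at the radius of the row: their last level is
static at all small scales. So a strategy against their wide cells (`GmeF`) is impossible
(`gme_of_box`).
-/

set_option autoImplicit false

namespace Pool.STR

open MeasureTheory Set Filter Topology Pool.LEV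

/-- The backward slopes of a monotone function at a point where it is differentiable. -/
theorem mono_bd {f : ℝ → ℝ} {g s : ℝ} (h0 : 0 < g)
    (hm : ∀ x y, 0 ≤ x → x ≤ y → y ≤ g → f x ≤ f y) (hd : HasDerivAt f s g) :
    ∃ S : ℝ, 0 ≤ S ∧ ∀ v : ℝ, 0 ≤ v → v ≤ g → f g - f (g - v) ≤ S * v := by
  obtain ⟨d, hd0, hdd⟩ := Metric.eventually_nhds_iff.1 ((hd.isLittleO).def one_pos)
  have hC : 0 ≤ f g - f 0 := sub_nonneg.2 (hm 0 g le_rfl h0.le le_rfl)
  obtain ⟨S, hS⟩ : ∃ S, S = max (|s| + 1) ((f g - f 0) / (d / 2)) := ⟨_, rfl⟩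
  have S1 : |s| + 1 ≤ S := by rw [hS]; exact le_max_left _ _
  have S2 : (f g - f 0) / (d / 2) ≤ S := by rw [hS]; exact le_max_right _ _
  have S0 : 0 ≤ S := (by positivity : (0 : ℝ) ≤ |s| + 1).trans S1
  refine ⟨S, S0, fun v v0 va => ?_⟩
  rcases lt_or_ge v (d / 2) with hv | hv
  · have e1 := hdd (show dist (g - v) g < d by
      rw [Real.dist_eq, abs_of_nonpos (by linarith)]
      linarith)
    rw [Real.norm_eq_abs, Real.norm_eq_abs, smul_eq_mul] at e1
    change |f (g - v) - f g - (g - v - g) * s| ≤ 1 * |g - v - g| at e1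
    rw [show g - v - g = -v by ring, abs_neg, abs_of_nonneg v0] at e1
    have e2 := (abs_le.1 e1).1
    have e3 : s * v ≤ |s| * v := mul_le_mul_of_nonneg_right (le_abs_self s) v0
    have e4 : (|s| + 1) * v ≤ S * v := mul_le_mul_of_nonneg_right S1 v0
    linarith
  · have e1 : f 0 ≤ f (g - v) := hm _ _ le_rfl (by linarith) (by linarith)
    have e2 : f g - f 0 ≤ S * (d / 2) := by
      rwa [div_le_iff₀ (by linarith)] at S2
    have e3 : S * (d / 2) ≤ S * v := mul_le_mul_of_nonneg_left hv S0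
    linarith

/-- The derivative in the form of boxes. -/
theorem der_box {f : ℝ → ℝ} {g s : ℝ} (hd : HasDerivAt f s g) {e : ℝ} (he : 0 < e) :
    ∃ r₀ : ℝ, 0 < r₀ ∧ ∀ r : ℝ, 0 < r → r < r₀ → ∀ y : ℝ, -1 ≤ y → y ≤ 1 →
      |f (g + y * r) - f g - s * y * r| ≤ e * r := by
  obtain ⟨d, hd0, hdd⟩ := Metric.eventually_nhds_iff.1 ((hd.isLittleO).def he)
  refine ⟨d, hd0, fun r hr hr' y hy1 hy2 => ?_⟩
  have h1 : |y * r| ≤ r := by
    rw [abs_mul, abs_of_pos hr]
    exact mul_le_of_le_one_left hr.le (abs_le.2 ⟨hy1, hy2⟩)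
  have e1 := hdd (show dist (g + y * r) g < d by
    rw [Real.dist_eq, add_sub_cancel_left]
    exact lt_of_le_of_lt h1 hr')
  rw [Real.norm_eq_abs, Real.norm_eq_abs, smul_eq_mul, add_sub_cancel_left] at e1
  have e2 : f (g + y * r) - f g - s * y * r = f (g + y * r) - f g - y * r * s := by ring
  rw [e2]
  exact e1.trans (mul_le_mul_of_nonneg_left h1 he.le)

/-- **The selected families have static last levels.** -/
theorem famP_of_box {κ : Type*} {m n : ℕ} {P : ℝ → ℝ → ℝ} (hP : Law P) {W : Set ℝ} {ρ : ℝ → ℝ}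
    {PB : κ → ℝ → ℝ → ℝ} {R : κ → Fin m → ℝ × ℝ → ℝ} {Ad : ℝ → κ → ℝ → ℝ → ℝ → Prop}
    {df : κ → ℝ → ℝ → ℝ} (hJ : NoJB2 ρ PB R Ad df) (hF : NoFB ρ PB Ad df) {Q g : ℝ}
    (hrow : RowD P ρ W Q) (hg : g = Lv P (Q, 0)) {s : ℝ} (hs : 0 ≤ s) (hval : P g g = Q)
    (hd : HasDerivAt (fun a => P a a) s g) {C c K₀ : ℝ} (hC : 0 ≤ C) (hc : 0 < c)
    {L : κ → ℕ → ℝ → ℝ → ℝ} (hLn : ∀ x, L x n = PB x) (hLaw : ∀ x, ∀ i < n, Law (L x i))
    {D : ℕ → ℝ → ℝ} {σ : ℕ → ℝ}
    (hdiag : ∀ x, ∀ i < n, ∀ a, 0 ≤ a → a ≤ 1 → L x i a a = D i a)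
    (hder : ∀ i < n, HasDerivAt (D i) (σ i) g) (hσ : σ n = s) {OK : κ → ℝ → ℝ → Prop}
    (hOK : ∀ x e e' r, 0 < r → OK x e r → e ≤ e' → OK x e' r)
    (sel : ∀ e : ℝ, 0 < e → ∃ (k : ℝ → κ) (V : ℝ → Fin m → ℝ), SelB P PB R Ad df C c e Q k V ∧
      ∃ r₀ : ℝ, 0 < r₀ ∧ ∀ r : ℝ, 0 < r → r < r₀ → OK (k r) e r ∧
        ∀ v : ℝ, 7 / 4 * r ≤ v → v ≤ g → PB (k r) g g - PB (k r) (g - v) (g - v) ≤ K₀ * v) :
    ∃ K, FamP L (fun x e r => OK x e (24 * (s + 1) * r)) n (fun i => if i < n then D i g else Q) σ K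
      g := by
  classical
  have hg0 := hrow.g0
  have hg1 := hrow.g1
  have hQ0 := hrow.Q0
  have hQ1 := hrow.Q1
  rw [← hg] at hg0 hg1
  -- the slopes
  obtain ⟨k₁, _, _, _⟩ := sel 1 one_pos
  have hDm : ∀ i < n, ∀ x y, 0 ≤ x → x ≤ y → y ≤ g → D i x ≤ D i y := by
    intro i hi x y h1 h2 h3
    rw [← hdiag (k₁ 0) i hi x h1 (by linarith), ← hdiag (k₁ 0) i hi y (h1.trans h2) (by linarith)]
    exact (hLaw (k₁ 0) i hi).mono h1 le_rfl h2 h2 le_rfl (by linarith)
  have hKD : ∀ i : ℕ, ∃ S : ℝ, 0 ≤ S ∧ (i < n → ∀ v : ℝ, 0 ≤ v → v ≤ g →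
      D i g - D i (g - v) ≤ S * v) := by
    intro i
    by_cases hi : i < n
    · obtain ⟨S, h1, h2⟩ := mono_bd hg0 (hDm i hi) (hder i hi)
      exact ⟨S, h1, fun _ => h2⟩
    · exact ⟨0, le_rfl, fun h => absurd h hi⟩
  choose KD hKD0 hKD using hKD
  obtain ⟨K₁, hK₁, hKP⟩ := mono_bd (f := fun a => P a a) hg0
    (fun x y h1 h2 h3 => hP.mono h1 le_rfl h2 h2 le_rfl (by linarith)) hd
  obtain ⟨K, hK⟩ : ∃ K : ℕ → ℝ, K = fun i => if i < n then KD i else max K₀ K₁ := ⟨_, rfl⟩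
  refine ⟨K, fun e he => ?_⟩
  obtain ⟨M, hM⟩ : ∃ M, M = 24 * (s + 1) := ⟨_, rfl⟩
  have hM24 : 24 ≤ M := by rw [hM]; linarith
  have hM0 : 0 < M := by linarith
  obtain ⟨e₁, he₁, Htri⟩ := tri_of_box hP hJ hF hrow hs (by rw [← hg]; exact hval)
    (by rw [← hg]; exact hd) hC hc (ε := e / (2 * M)) (by positivity)
  rw [← hg] at Htri
  obtain ⟨e₂, he₂⟩ : ∃ e₂, e₂ = min (1 / 8) (e / (M * (K₁ + 1))) := ⟨_, rfl⟩
  have he20 : 0 < e₂ := by rw [he₂]; exact lt_min (by norm_num) (by positivity)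
  obtain ⟨e₃, he₃⟩ : ∃ e₃, e₃ = min (min e e₁) e₂ := ⟨_, rfl⟩
  have he30 : 0 < e₃ := by rw [he₃]; exact lt_min (lt_min he he₁) he20
  have he3e : e₃ ≤ e := by rw [he₃]; exact (min_le_left _ _).trans (min_le_left _ _)
  have he31 : e₃ ≤ e₁ := by rw [he₃]; exact (min_le_left _ _).trans (min_le_right _ _)
  have he38 : e₃ ≤ 1 / 8 := by
    rw [he₃, he₂]; exact (min_le_right _ _).trans (min_le_left _ _)
  have he3K : e₃ * (M * (K₁ + 1)) ≤ e := by
    have h1 : e₃ ≤ e / (M * (K₁ + 1)) := by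
      rw [he₃, he₂]; exact (min_le_right _ _).trans (min_le_right _ _)
    rwa [le_div_iff₀ (by positivity)] at h1
  obtain ⟨k, V, hsel, r₅, hr₅, hok⟩ := sel e₃ he30
  obtain ⟨r₂, hr₂, Htri⟩ := Htri k V (hsel.mono he31)
  obtain ⟨r₀, hr₀, hbox⟩ := hsel.box
  obtain ⟨r₃, hr₃, hdg⟩ := hsel.dg
  rw [← hg] at hbox hdg
  have hDr : ∀ i : ℕ, ∃ r₀ : ℝ, 0 < r₀ ∧ (i < n → ∀ r : ℝ, 0 < r → r < r₀ → ∀ y : ℝ, -1 ≤ y →
      y ≤ 1 → |D i (g + y * r) - D i g - σ i * y * r| ≤ e * r) := by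
    intro i
    by_cases hi : i < n
    · obtain ⟨r₀, h1, h2⟩ := der_box (hder i hi) he
      exact ⟨r₀, h1, fun _ => h2⟩
    · exact ⟨1, one_pos, fun h => absurd h hi⟩
  choose rD hrD0 hrD using hDr
  obtain ⟨rm, hrm0, hrm⟩ : ∃ rm : ℝ, 0 < rm ∧ ∀ i < n, rm ≤ rD i := by
    rcases Nat.eq_zero_or_pos n with h | h
    · exact ⟨1, one_pos, fun i hi => by omega⟩
    · refine ⟨(Finset.range n).inf' ⟨0, Finset.mem_range.2 h⟩ rD, ?_, fun i hi =>
        Finset.inf'_le _ (Finset.mem_range.2 hi)⟩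
      rw [Finset.lt_inf'_iff]
      exact fun i _ => hrD0 i
  obtain ⟨ρ', hρ'⟩ : ∃ ρ', ρ' = min (min (min (r₅ / M) (r₂ / M)) (min (r₀ / M) (r₃ / M)))
    (min rm (min (g / (8 * M)) ((1 - g) / (8 * M)))) := ⟨_, rfl⟩
  have hg1' : 0 < 1 - g := by linarith
  have hρ'0 : 0 < ρ' := by
    rw [hρ']
    exact lt_min (lt_min (lt_min (by positivity) (by positivity)) (lt_min (by positivity)
      (by positivity))) (lt_min hrm0 (lt_min (by positivity) (by positivity)))
  refine ⟨ρ', hρ'0, fun r hr hr' => ?_⟩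
  have n1 := hr'.trans_le (hρ'.le.trans (min_le_left _ _))
  have n2 := hr'.trans_le (hρ'.le.trans (min_le_right _ _))
  have m5 : r * M < r₅ := by
    rw [← lt_div_iff₀ hM0]
    exact n1.trans_le ((min_le_left _ _).trans (min_le_left _ _))
  have m2 : r * M < r₂ := by
    rw [← lt_div_iff₀ hM0]
    exact n1.trans_le ((min_le_left _ _).trans (min_le_right _ _))
  have m0 : r * M < r₀ := by
    rw [← lt_div_iff₀ hM0]
    exact n1.trans_le ((min_le_right _ _).trans (min_le_left _ _))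
  have m3 : r * M < r₃ := by
    rw [← lt_div_iff₀ hM0]
    exact n1.trans_le ((min_le_right _ _).trans (min_le_right _ _))
  have m6 : r < rm := n2.trans_le (min_le_left _ _)
  have m7 : r * (8 * M) < g := by
    rw [← lt_div_iff₀ (by positivity)]
    exact n2.trans_le ((min_le_right _ _).trans (min_le_left _ _))
  have m8 : r * (8 * M) < 1 - g := by
    rw [← lt_div_iff₀ (by positivity)]
    exact n2.trans_le ((min_le_right _ _).trans (min_le_right _ _))
  obtain ⟨t, ht⟩ : ∃ t, t = M * r := ⟨_, rfl⟩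
  have ht0 : 0 < t := by rw [ht]; exact mul_pos hM0 hr
  have htr : r * M = t := by rw [ht]; ring
  rw [htr] at m5 m2 m0 m3
  have e8 : r * (8 * M) = 8 * t := by rw [ht]; ring
  rw [e8] at m7 m8
  have hrt : 24 * r ≤ t := by rw [ht]; exact mul_le_mul_of_nonneg_right hM24 hr.le
  obtain ⟨hL, hle, hlv⟩ := hbox t ht0 m0
  obtain ⟨hokt, hbk⟩ := hok t ht0 m5
  have hdgt := hdg t ht0 m3
  have htri : ∀ a w : ℝ, g - r ≤ w → w ≤ a → a ≤ g + r →
      |PB (k t) a w - Q - s * (a - g)| ≤ e / 2 * r := by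
    intro a w h1 h2 h3
    have e1 : t / (24 * (s + 1)) = r := by
      rw [← hM, ht]
      field_simp
    have h4 := Htri t ht0 m2 a w (by rw [e1]; exact h1) h2 (by rw [e1]; exact h3)
    have e2 : e / (2 * M) * t = e / 2 * r := by
      rw [ht]
      field_simp
    rw [e2] at h4
    exact h4
  refine ⟨k t, ?_, ?_, ?_, ?_, ?_⟩
  · show OK (k t) e (24 * (s + 1) * r)
    rw [← hM, ← ht]
    exact hOK _ _ _ _ ht0 hokt he3e
  · intro i hi
    rcases hi.lt_or_eq with h | h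
    · exact hLaw _ i h
    · rw [h, hLn]
      exact hL
  · intro i hi y hy1 hy2
    have hyr1 : -r ≤ y * r := by nlinarith
    have hyr2 : y * r ≤ r := by nlinarith
    rcases hi.lt_or_eq with h | h
    · rw [hdiag _ i h _ (by linarith) (by linarith)]
      simp only [if_pos h]
      exact hrD i h r hr (m6.trans_le (hrm i h)) y hy1 hy2
    · rw [h, hLn, hσ]
      simp only [lt_irrefl, if_false]
      have h1 := htri (g + y * r) (g + y * r) (by linarith) le_rfl (by linarith)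
      have e1 : s * (g + y * r - g) = s * y * r := by ring
      rw [e1] at h1
      refine h1.trans ?_
      have : 0 < e * r := mul_pos he hr
      linarith
  · intro i hi v hv1 hv2
    rcases hi.lt_or_eq with h | h
    · rw [hdiag _ i h _ hg0.le hg1.le, hdiag _ i h _ (by linarith) (by linarith)]
      have h1 := hKD i h v hv1 hv2
      have : 0 < e * r := mul_pos he hr
      rw [hK]
      simp only [if_pos h]
      linarith
    · rw [h, hLn, hK]
      simp only [lt_irrefl, if_false]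
      have hm1 : K₀ * v ≤ max K₀ K₁ * v := mul_le_mul_of_nonneg_right (le_max_left _ _) hv1
      have hm2 : K₁ * v ≤ max K₀ K₁ * v := mul_le_mul_of_nonneg_right (le_max_right _ _) hv1
      have her : 0 < e * r := mul_pos he hr
      rcases le_total (7 / 4 * t) v with c1 | c1
      · have := hbk v c1 hv2
        linarith
      · have h0t : 0 < e₃ * t := mul_pos he30 ht0
        have h8t : e₃ * t ≤ 1 / 8 * t := mul_le_mul_of_nonneg_right he38 ht0.le
        obtain ⟨x', k1, k2, k3⟩ := hdgt (g - v - e₃ * t) (by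
          rw [abs_le]
          constructor <;> linarith)
        have k4 : PB (k t) x' x' ≤ PB (k t) (g - v) (g - v) :=
          hL.mono (by linarith) le_rfl (by linarith) (by linarith) le_rfl (by linarith)
        have k5 := hle g g (by linarith) le_rfl (by linarith)
        have k6 := hKP (g - x') (by linarith) (by linarith)
        rw [sub_sub_cancel] at k6
        have k7 : K₁ * (g - x') ≤ K₁ * (v + e₃ * t) :=
          mul_le_mul_of_nonneg_left (by linarith) hK₁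
        have k8 : K₁ * (e₃ * t) + e₃ * t ≤ e * r := by
          have e1 : K₁ * (e₃ * t) + e₃ * t = e₃ * (M * (K₁ + 1)) * r := by
            rw [ht]
            ring
          rw [e1]
          exact mul_le_mul_of_nonneg_right he3K hr.le
        linarith
  · intro a' w' h1 h2 h3
    rw [hLn]
    have k1 := (abs_le.1 (htri a' w' h1 h2 h3)).1
    have k2 := (abs_le.1 (htri a' a' (by linarith) le_rfl h3)).2
    linarith

end Pool.STR
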