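import Pool.Agent.H77.STAT.Top

/-!
# The affine cells of families

The base levels of the families are the smallest ones with their diagonals,
`L i a w = L i w w + (a - w)` (or the diagonal has slope `1`), and the last level is static. Then
all levels are affine in both variables near the radius of the row (`CellI`), with the slopes `1`
in the radius and `σ i - 1` in the window, `i < n`, and the slope `σ n` in the radius, `i = n`.

`GmI`: a strategy against such cells with a generic centre; `gmI`: this is impossible.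
-/

set_option autoImplicit false

namespace Pool.STAT

/-- **The affine cell** of size `r` around `b`: levels `L i`, the base `i < n` and the target
`i = n`. `s`: the slope of the diagonals at all scales. -/
structure CellI (L : ℕ → ℝ → ℝ → ℝ) (n : ℕ) (σ : ℕ → ℝ) (s : ℕ) (b r ε : ℝ) : Prop where
  lo : r ≤ b / 2
  hi : b + r ≤ 1
  one : 2 ≤ s * b
  bas : ∀ i < n, ∀ a' w', b - r ≤ w' → w' ≤ a' → a' ≤ b + r →
    |L i a' w' - L i b b - (a' - b) - (σ i - 1) * (w' - b)| ≤ ε * r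
  tgt : ∀ a' w', b - r ≤ w' → w' ≤ a' → a' ≤ b + r →
    |L n a' w' - L n b b - σ n * (a' - b)| ≤ ε * r
  sl : ∀ i ≤ n, ∀ v, 0 ≤ v → v ≤ b → L i b b - L i (b - v) (b - v) ≤ s * v + ε * r

end Pool.STAT

namespace Pool.STR

open Set Filter Topology Pool.LEV MeasureTheory

/-- **A strategy against the affine cells of families with a generic centre.** -/
def GmI {κ : Type*} (L : κ → ℕ → ℝ → ℝ → ℝ) (OK : κ → ℝ → ℝ → Prop) (n : ℕ) (σ : ℕ → ℝ) (a : ℝ)
    (W : Set ℝ) (Att : κ → Set (ℝ × ℝ)) : Prop :=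
  ∀ s : ℕ, ∃ ε : ℝ, 0 < ε ∧ ∃ e : ℝ, 0 < e ∧ ∃ r₁ : ℝ, 0 < r₁ ∧ ∃ K : Finset ℝ,
    ∀ (x : κ) (r b : ℝ), 0 < r → r < r₁ → |b - a| ≤ r → OK x e (2 * r) →
      STAT.CellI (L x) n σ s b r ε → (∀ k ∈ K, b - k * r ∈ W) →
      (∀ p₁ q₁ p₂ q₂ : ℚ, 0 < b - p₂ - q₂ * r → b - p₂ - q₂ * r ≤ b - p₁ - q₁ * r →
        b - p₁ - q₁ * r < 1 → (b - p₁ - q₁ * r, b - p₂ - q₂ * r) ∈ Att x) → False

/-- **The affine cell.** -/
theorem cellI_of {L : ℕ → ℝ → ℝ → ℝ} {n : ℕ} {d σ K : ℕ → ℝ} {a b r e ε S : ℝ} {s : ℕ}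
    (hL : ∀ i ≤ n, Law (L i)) (hr : 0 < r) (he : 0 ≤ e)
    (hdiag : ∀ i ≤ n, ∀ y : ℝ, -1 ≤ y → y ≤ 1 →
      |L i (a + y * (2 * r)) (a + y * (2 * r)) - d i - σ i * y * (2 * r)| ≤ e * (2 * r))
    (hsl : ∀ i ≤ n, ∀ v : ℝ, 0 ≤ v → v ≤ a →
      L i a a - L i (a - v) (a - v) ≤ K i * v + e * (2 * r))
    (htri : ∀ a' w' : ℝ, a - 2 * r ≤ w' → w' ≤ a' → a' ≤ a + 2 * r →
      L n a' a' - e * (2 * r) ≤ L n a' w')
    (hiso : ∀ i < n, σ i = 1 ∨ ∀ a' w', 0 ≤ w' → w' ≤ a' → a' ≤ 1 →
      L i a' w' ≤ L i w' w' + (a' - w'))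
    (hd : ∀ i < n, d i + (S + 1) * (4 * r) + e * (2 * r) ≤ 1)
    (hσ0 : ∀ i ≤ n, 0 ≤ σ i) (hσS : ∀ i ≤ n, σ i ≤ S)
    (hs : ∀ i ≤ n, K i ≤ s) (hsS : S ≤ s) (hsa : 2 ≤ s * a) (hab : a ≤ b) (hba : b ≤ a + r)
    (hra : 4 * r ≤ a) (hr1 : 4 * r ≤ 1 - a) (hε : 16 * e ≤ ε) :
    STAT.CellI L n σ s b r ε := by
  have her : 0 ≤ e * r := mul_nonneg he hr.le
  have hεr : 16 * (e * r) ≤ ε * r := by
    have := mul_le_mul_of_nonneg_right hε hr.le
    linarith
  have hs0 : (0 : ℝ) ≤ s := Nat.cast_nonneg s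
  -- the diagonals
  have hD : ∀ i ≤ n, ∀ x : ℝ, a - 2 * r ≤ x → x ≤ a + 2 * r →
      |L i x x - d i - σ i * (x - a)| ≤ 2 * (e * r) := by
    intro i hi x h2 h3
    have h4 := hdiag i hi ((x - a) / (2 * r)) (by
      rw [le_div_iff₀ (by positivity)]
      linarith) (by
      rw [div_le_iff₀ (by positivity)]
      linarith)
    have e1 : (x - a) / (2 * r) * (2 * r) = x - a := div_mul_cancel₀ _ (by positivity)
    have e2 : a + (x - a) / (2 * r) * (2 * r) = x := by rw [e1]; ring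
    rw [mul_assoc (σ i), e1, add_sub_cancel] at h4
    linarith
  have hsx : ∀ i ≤ n, ∀ x : ℝ, 0 ≤ x → σ i * x ≤ s * x := fun i hi x hx =>
    mul_le_mul_of_nonneg_right ((hσS i hi).trans hsS) hx
  refine ⟨by linarith, by linarith, ?_, fun i hi a' w' h2 h3 h4 => ?_, fun a' w' h2 h3 h4 => ?_,
    fun i hi v h2 h3 => ?_⟩
  · have : s * a ≤ s * b := mul_le_mul_of_nonneg_left hab hs0
    linarith
  · have hw := abs_le.1 (hD i hi.le w' (by linarith) (by linarith))
    have ha := abs_le.1 (hD i hi.le a' (by linarith) (by linarith))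
    have hb := abs_le.1 (hD i hi.le b (by linarith) (by linarith))
    have hlaw := hL i hi.le
    have hw0 : 0 ≤ w' := by linarith
    have ha1 : a' ≤ 1 := by linarith
    -- the lower bound
    have k1 := hlaw.slope w' w' (a' - w') hw0 le_rfl (by linarith) (by linarith)
    rw [add_sub_cancel] at k1
    have hdi := hd i hi
    have hσw : σ i * (w' - a) ≤ S * (2 * r) := by
      have u1 : σ i * (w' - a) ≤ σ i * (2 * r) :=
        mul_le_mul_of_nonneg_left (by linarith) (hσ0 i hi.le)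
      have u2 : σ i * (2 * r) ≤ S * (2 * r) :=
        mul_le_mul_of_nonneg_right (hσS i hi.le) (by linarith)
      linarith
    have hS0 : 0 ≤ S := (hσ0 i hi.le).trans (hσS i hi.le)
    have hSr : 0 ≤ S * r := mul_nonneg hS0 hr.le
    have k2 : L i w' w' + (a' - w') ≤ L i a' w' := by
      refine le_trans (le_min ?_ le_rfl) k1
      linarith [hw.2]
    -- the upper bound
    have k3 : L i a' w' ≤ L i w' w' + (a' - w') + 4 * (e * r) := by
      rcases hiso i hi with h | h
      · have u1 := hlaw.mono_w a' w' a' hw0 h3 le_rfl ha1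
        rw [h] at hw ha
        linarith [hw.1, ha.2]
      · have u1 := h a' w' hw0 h3 ha1
        linarith
    have e1 : σ i * (w' - a) - σ i * (b - a) = σ i * (w' - b) := by ring
    have e2 : (σ i - 1) * (w' - b) = σ i * (w' - b) - (w' - b) := by ring
    rw [e2, abs_le]
    constructor <;> linarith [hw.1, hw.2, hb.1, hb.2]
  · have ha := abs_le.1 (hD n le_rfl a' (by linarith) (by linarith))
    have hb := abs_le.1 (hD n le_rfl b (by linarith) (by linarith))
    have k1 := htri a' w' (by linarith) h3 (by linarith)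
    have k2 := (hL n le_rfl).mono_w a' w' a' (by linarith) h3 le_rfl (by linarith)
    have e1 : σ n * (a' - a) - σ n * (b - a) = σ n * (a' - b) := by ring
    rw [abs_le]
    constructor <;> linarith [ha.1, ha.2, hb.1, hb.2]
  · have hb := abs_le.1 (hD i hi b (by linarith) (by linarith))
    rcases le_or_gt v (b - a) with h5 | h5
    · have ha := abs_le.1 (hD i hi (b - v) (by linarith) (by linarith))
      have u1 := hsx i hi v h2
      have e1 : σ i * (b - a) - σ i * (b - v - a) = σ i * v := by ring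
      linarith [ha.1, hb.2]
    · have ha := abs_le.1 (hD i hi a (by linarith) (by linarith))
      rw [sub_self, mul_zero, sub_zero] at ha
      have u2 := hsl i hi (v - (b - a)) (by linarith) (by linarith)
      have e1 : a - (v - (b - a)) = b - v := by ring
      rw [e1] at u2
      have u3 : K i * (v - (b - a)) ≤ s * (v - (b - a)) :=
        mul_le_mul_of_nonneg_right (hs i hi) (by linarith)
      have u4 := hsx i hi (b - a) (by linarith)
      have e2 : s * (v - (b - a)) = s * v - s * (b - a) := by ring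
      linarith [ha.1, hb.2]

/-- **Nobody has a strategy against the affine cells of families which exist.** -/
theorem gmI {κ : Type*} {L : κ → ℕ → ℝ → ℝ → ℝ} {OK : κ → ℝ → ℝ → Prop} {n : ℕ}
    {d σ K : ℕ → ℝ} {a : ℝ} {W : Set ℝ} {Att : κ → Set (ℝ × ℝ)} (h0 : 0 < a) (h1 : a < 1)
    (hσ : ∀ i ≤ n, 0 ≤ σ i) (hW : Dns W a) (hA : ∀ x, AttN (Att x))
    (hOK : ∀ x e e' r, 0 < r → OK x e r → e ≤ e' → OK x e' r) (hP : FamP L OK n d σ K a)
    (hd : ∀ i < n, d i < 1)
    (hiso : ∀ x, ∀ i < n, σ i = 1 ∨ ∀ a' w', 0 ≤ w' → w' ≤ a' → a' ≤ 1 →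
      L x i a' w' ≤ L x i w' w' + (a' - w'))
    (G : GmI L OK n σ a W Att) : False := by
  classical
  obtain ⟨S, hS, hS0⟩ : ∃ S : ℝ, (∀ i ≤ n, σ i ≤ S) ∧ 0 ≤ S :=
    ⟨∑ i ∈ Finset.range (n + 1), |σ i|, fun i hi => (le_abs_self _).trans
      (Finset.single_le_sum (f := fun i => |σ i|) (fun _ _ => abs_nonneg _)
        (Finset.mem_range.2 (Nat.lt_succ_of_le hi))), Finset.sum_nonneg fun _ _ => abs_nonneg _⟩
  obtain ⟨KK, hKK⟩ : ∃ KK : ℝ, ∀ i ≤ n, K i ≤ KK :=
    ⟨∑ i ∈ Finset.range (n + 1), |K i|, fun i hi => (le_abs_self _).trans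
      (Finset.single_le_sum (f := fun i => |K i|) (fun _ _ => abs_nonneg _)
        (Finset.mem_range.2 (Nat.lt_succ_of_le hi)))⟩
  obtain ⟨lam, hlam, hlam'⟩ : ∃ lam : ℝ, 0 < lam ∧ ∀ i < n, d i + lam ≤ 1 := by
    rcases Nat.eq_zero_or_pos n with h | h
    · exact ⟨1, one_pos, fun i hi => by omega⟩
    · refine ⟨(Finset.range n).inf' ⟨0, Finset.mem_range.2 h⟩ fun i => 1 - d i, ?_, fun i hi => ?_⟩
      · rw [Finset.lt_inf'_iff]
        exact fun i hi => by
          have := hd i (Finset.mem_range.1 hi)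
          linarith
      · have := Finset.inf'_le (fun i => 1 - d i) (Finset.mem_range.2 hi)
        linarith
  obtain ⟨s, hs⟩ := exists_nat_ge (max (max S KK) (2 / a))
  have s1 : S ≤ s := (le_max_left _ _).trans ((le_max_left _ _).trans hs)
  have s2 : KK ≤ s := (le_max_right _ _).trans ((le_max_left _ _).trans hs)
  have s3 : 2 ≤ s * a := by
    have := (le_max_right _ _).trans hs
    rwa [div_le_iff₀ h0] at this
  obtain ⟨ε, hε, e, he, r₁, hr₁, KF, G⟩ := G s
  obtain ⟨e', he'⟩ : ∃ e', e' = min e (min (ε / 16) 1) := ⟨_, rfl⟩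
  have he'0 : 0 < e' := by rw [he']; exact lt_min he (lt_min (by positivity) one_pos)
  have he'e : e' ≤ e := by rw [he']; exact min_le_left _ _
  have he'ε : 16 * e' ≤ ε := by
    have : e' ≤ ε / 16 := by rw [he']; exact (min_le_right _ _).trans (min_le_left _ _)
    linarith
  have he'1 : e' ≤ 1 := by rw [he']; exact (min_le_right _ _).trans (min_le_right _ _)
  obtain ⟨r₀, hr₀, hfam⟩ := hP e' he'0
  obtain ⟨r₂, hr₂, hsh⟩ := good_shiftF hW one_pos KF
  obtain ⟨r, hr⟩ : ∃ r, r = min (min (r₀ / 4) (r₁ / 2)) (min (r₂ / 2)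
    (min (min (a / 4) ((1 - a) / 4)) (lam / (4 * (S + 2))))) := ⟨_, rfl⟩
  have hr0 : 0 < r := by
    rw [hr]
    exact lt_min (lt_min (by linarith) (by linarith)) (lt_min (by linarith)
      (lt_min (lt_min (by linarith) (by linarith)) (by positivity)))
  have q1 : r ≤ r₀ / 4 := by rw [hr]; exact (min_le_left _ _).trans (min_le_left _ _)
  have q2 : r ≤ r₁ / 2 := by rw [hr]; exact (min_le_left _ _).trans (min_le_right _ _)
  have q3 : r ≤ r₂ / 2 := by rw [hr]; exact (min_le_right _ _).trans (min_le_left _ _)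
  have q4 : r ≤ a / 4 := by
    rw [hr]
    exact (min_le_right _ _).trans ((min_le_right _ _).trans ((min_le_left _ _).trans
      (min_le_left _ _)))
  have q5 : r ≤ (1 - a) / 4 := by
    rw [hr]
    exact (min_le_right _ _).trans ((min_le_right _ _).trans ((min_le_left _ _).trans
      (min_le_right _ _)))
  have q6 : r * (4 * (S + 2)) ≤ lam := by
    have : r ≤ lam / (4 * (S + 2)) := by
      rw [hr]
      exact (min_le_right _ _).trans ((min_le_right _ _).trans (min_le_right _ _))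
    rwa [le_div_iff₀ (by positivity)] at this
  obtain ⟨x, hok, hlaw, hdiag, hsl, htri⟩ := hfam (2 * r) (by linarith) (by linarith)
  obtain ⟨t, ht0, ht1, hK, hAt⟩ := hsh (Att x) (hA x) r a hr0 (by linarith) (by
    rw [sub_self, abs_zero]
    exact hr0.le)
  rw [one_mul] at ht1
  refine G x r (a + t) hr0 (by linarith) (by rw [add_sub_cancel_left, abs_of_nonneg ht0]; exact ht1)
    (hOK _ _ _ _ (by linarith) hok he'e) ?_ hK hAt
  refine cellI_of (d := d) (K := K) (e := e') (S := S) hlaw hr0 he'0.le hdiag hsl htri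
    (hiso x) (fun i hi => ?_) hσ hS (fun i hi => (hKK i hi).trans s2) s1 s3 (by linarith)
    (by linarith) (by linarith) (by linarith) he'ε
  have h2 := hlam' i hi
  have h3 : (S + 1) * (4 * r) + e' * (2 * r) ≤ r * (4 * (S + 2)) := by nlinarith
  linarith

end Pool.STR
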