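import Pool.Agent.H77.STAT.NumR
import Pool.Agent.H82.STAT.Gri

/-!
# The numbers of the drop-out system from the cell

`CelR.nms`: the structure `GRD.Nms` of the numbers. `CelR.raw`, `CelR.raw_ball`: the precisions
`⌊(L i a w - δr) J⌋` of the raw labels are larger than the precisions of the closed labels by the
numbers which are lost.
-/

set_option autoImplicit false

namespace Pool.STAT

open Finset Pool.LEV

namespace CelR

open BR

variable {L : ℕ → ℝ → ℝ → ℝ} {n : ℕ} {p : ℕ → Prop} {σ : ℕ → ℝ} {R M : ℕ} {w : ℕ → ℝ}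
  {b ζ e e' θ V : ℝ} {δ δ₁ : ℝ} {J w₀ z : ℕ} [DecidablePred p]

/-- The precision of the raw labels at the radius `b + k ζ` in the window `w`. -/
noncomputable def rawn (L : ℕ → ℝ → ℝ → ℝ) (b ζ δr : ℝ) (J : ℕ) (w : ℝ) (k i : ℕ) : ℕ :=
  ⌊(L i (b + k * ζ) w - δr) * J⌋₊

/-- **The raw precisions.** -/
theorem raw (H : CelR L n p σ R M w b ζ e e' θ V) {i : ℕ} (h1 : 1 ≤ i) (hi : i ≤ n + 1) {k : ℕ}
    (hk : k ≤ M + 2) {w' : ℝ} (hw : w 0 ≤ w') (hw' : w' ≤ b + k * ζ) {δr δ' δ₂ : ℝ}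
    (hδ : δ' + e ≤ δ) (hδ₁ : δ' ≤ δ₁) (hδ₂ : δ + e ≤ δ₂) (hδ₁₂ : δ₁ ≤ δ₂)
    (hL : δ₂ ≤ L i b (w 0)) {x y : ℕ} (hx : (x : ℝ) ≤ (δ' - δr) * J)
    (hy : (δ₂ - δr) * J + 1 ≤ (x : ℝ) + y) :
    num L σ p b ζ δ δ₁ J w' k i + x ≤ rawn L b ζ δr J w' k i ∧
      rawn L b ζ δr J w' k i ≤ num L σ p b ζ δ δ₁ J w' k i + x + y := by
  have hJ : (0 : ℝ) ≤ J := Nat.cast_nonneg J
  have he := H.e_nn
  have hLb : L i b (w 0) ≤ L i b b :=
    (H.law i h1 hi).mono_w b (w 0) b H.w_nn (H.w_le (Nat.zero_le R)) le_rfl (by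
      have := H.top
      have := mul_nonneg (by positivity : (0 : ℝ) ≤ (M : ℝ) + 2) H.ζ_nn
      linarith)
  have h2 := H.num_ub (J := J) h1 hi hk hw hw' hδ hδ₁ (by linarith) (by linarith)
  have h3 := H.num_lb (J := J) h1 hi hk hw hw' hδ₂ hδ₁₂
  constructor
  · refine Nat.le_floor ?_
    push_cast
    have e1 : (L i (b + k * ζ) w' - δr) * J = (L i (b + k * ζ) w' - δ') * J + (δ' - δr) * J := by
      ring
    linarith
  · have h4 : (rawn L b ζ δr J w' k i : ℝ) ≤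
        ((num L σ p b ζ δ δ₁ J w' k i + x + y : ℕ) : ℝ) := by
      push_cast
      have e1 : (L i (b + k * ζ) w' - δr) * J = (L i (b + k * ζ) w' - δ₂) * J + (δ₂ - δr) * J := by
        ring
      rcases le_or_gt 0 ((L i (b + k * ζ) w' - δr) * J) with h5 | h5
      · have h6 : (rawn L b ζ δr J w' k i : ℝ) ≤ (L i (b + k * ζ) w' - δr) * J := Nat.floor_le h5
        linarith
      · have h6 : rawn L b ζ δr J w' k i = 0 := Nat.floor_of_nonpos h5.le
        rw [h6, Nat.cast_zero]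
        positivity
    exact_mod_cast h4

omit [DecidablePred p] in
/-- **The raw precisions of the balls.** -/
theorem raw_ball (H : CelR L n p σ R M w b ζ e e' θ V) {i : ℕ} (h1 : 1 ≤ i) (hi : i ≤ n + 1) {k : ℕ}
    (hk : k ≤ M + 2) {δr δ' δ₂ : ℝ} (hδ : δ' + e ≤ δ) (hδ₂ : δ + e ≤ δ₂)
    (hL : δ₂ ≤ L i b b) {x y : ℕ} (hx : (x : ℝ) ≤ (δ' - δr) * J)
    (hy : (δ₂ - δr) * J + 1 ≤ (x : ℝ) + y) :
    BK.g L σ b ζ δ J k i + x ≤ rawn L b ζ δr J (b + k * ζ) k i ∧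
      rawn L b ζ δr J (b + k * ζ) k i ≤ BK.g L σ b ζ δ J k i + x + y := by
  have hJ : (0 : ℝ) ≤ J := Nat.cast_nonneg J
  have he := H.e_nn
  have hσ := H.σ_nn h1 hi
  have h2 := BK.g_le (J := J) (L := L) (by linarith) hσ H.ζ_nn (H.ball h1 hi hk) hδ
  have h3 := BK.g_ge (J := J) (δ := δ) (H.ball h1 hi hk)
  constructor
  · refine Nat.le_floor ?_
    push_cast
    have e1 : (L i (b + k * ζ) (b + k * ζ) - δr) * J =
        (L i (b + k * ζ) (b + k * ζ) - δ') * J + (δ' - δr) * J := by ring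
    linarith
  · have h4 : (rawn L b ζ δr J (b + k * ζ) k i : ℝ) ≤
        ((BK.g L σ b ζ δ J k i + x + y : ℕ) : ℝ) := by
      push_cast
      have h7 := mul_le_mul_of_nonneg_right
        (by linarith : L i (b + k * ζ) (b + k * ζ) - δ₂ ≤
          L i (b + k * ζ) (b + k * ζ) - δ - e) hJ
      have e1 : (L i (b + k * ζ) (b + k * ζ) - δr) * J =
          (L i (b + k * ζ) (b + k * ζ) - δ₂) * J + (δ₂ - δr) * J := by ring
      rcases le_or_gt 0 ((L i (b + k * ζ) (b + k * ζ) - δr) * J) with h5 | h5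
      · have h6 : (rawn L b ζ δr J (b + k * ζ) k i : ℝ) ≤
            (L i (b + k * ζ) (b + k * ζ) - δr) * J := Nat.floor_le h5
        linarith
      · have h6 : rawn L b ζ δr J (b + k * ζ) k i = 0 := Nat.floor_of_nonpos h5.le
        rw [h6, Nat.cast_zero]
        positivity
    exact_mod_cast h4

/-- **The numbers of the drop-out system.** The thin windows are `w 1, …, w (R + 1)`. -/
theorem nms {R : ℕ} (H : CelR L n p σ (R + 1) M w b ζ e e' θ V) (hp : DPP.Stc p (n + 1))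
    (hn : n ≤ R + 1) (htop : w₀ + (M + 1) * z ≤ J) (hδ : δ + e ≤ δ₁) {c : ℝ} (hc0 : 0 ≤ c)
    (hc : ∀ i, 1 ≤ i → i ≤ n + 1 → δ₁ + c ≤ L i b (w 0)) (hJ : 1 ≤ c * J) {D : ℝ} {Rr gn : ℕ}
    (hD : V * ((M + 2) * ζ) + e' ≤ D) (hRr : D * J + 1 ≤ Rr)
    (hz : (M + 1) * z ≤ Rr) (hgn : (gn : ℝ) ≤ θ * J - 1) (v : ℕ) :
    GRD.Nms p (n + 1) w₀ z M R J Rr v gn ((Finset.range (n + 1)).filter fun i => ¬ p i)
      (fat L σ p b ζ δ δ₁ J (w 0)) (BK.g L σ b ζ δ J)
      (fun j => num L σ p b ζ δ δ₁ J (w j) 0) := by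
  obtain ⟨q1, q2, q5, q6⟩ := H.hyp_num (J := J) hδ hc hJ
  have hc' : ∀ i, 1 ≤ i → i ≤ n + 1 → δ₁ ≤ L i b (w 0) := fun i h1 hi => by
    linarith [hc i h1 hi]
  have htt : ∀ j i, 1 ≤ i → GRD.tt w₀ (fat L σ p b ζ δ δ₁ J (w 0))
      (fun j => num L σ p b ζ δ δ₁ J (w j) 0) j i = num L σ p b ζ δ δ₁ J (w j) 0 i := by
    intro j i h1
    unfold GRD.tt
    rw [if_neg (by omega)]
    split_ifs with h0
    · rw [h0, fat_zero]
    · rfl
  refine
    { n_pos := by omega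
      stc := hp
      top := htop
      U_iff := fun i hi => by rw [Finset.mem_filter, Finset.mem_range]; tauto
      card := ?_
      g_pos := q1
      g_ge := q2
      hg := q5
      ratio := fun k hk i h1 hi => ?_
      ratio0 := hz
      st := fun j _ i h1 _ hpi => ?_
      dy := fun j hj i h1 hi hpi => ?_
      hB := q6 }
  · have h1 : (Finset.range (n + 1)).filter (fun i => ¬ p i) ⊆ Finset.Ico 1 (n + 1) := by
      intro i hi
      rw [Finset.mem_filter, Finset.mem_range] at hi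
      rw [Finset.mem_Ico]
      refine ⟨?_, hi.1⟩
      rcases Nat.eq_zero_or_pos i with h | h
      · exact absurd (h ▸ hp.zero) hi.2
      · exact h
    refine (Finset.card_le_card h1).trans ?_
    rw [Nat.card_Ico]
    omega
  · have h2 := H.num_grow (J := J) (δ := δ) (δ₁ := δ₁) h1 hi (show k ≤ M + 2 by omega)
      (by
        have hLb : L i b (w 0) ≤ L i b b :=
          (H.law i h1 hi).mono_w b (w 0) b H.w_nn (H.w_le (Nat.zero_le _)) le_rfl (by
            have := H.top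
            have := mul_nonneg (by positivity : (0 : ℝ) ≤ (M : ℝ) + 2) H.ζ_nn
            linarith)
        linarith [hc i h1 hi, H.e_nn]) (hc' i h1 hi) hD
    have h4 : (fat L σ p b ζ δ δ₁ J (w 0) k i : ℝ) ≤
        ((fat L σ p b ζ δ δ₁ J (w 0) 0 i + Rr : ℕ) : ℝ) := by
      push_cast
      linarith
    exact_mod_cast h4
  · rw [htt j i h1, htt (j + 1) i h1, num_stat hpi, num_stat hpi]
    omega
  · rw [htt j i h1, htt (j + 1) i h1]
    have h2 := H.num_gap (J := J) (δ := δ) (δ₁ := δ₁) h1 (by omega) hpi (show j < R + 1 by omega)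
      (hc' i h1 (by omega))
    have h4 : ((num L σ p b ζ δ δ₁ J (w j) 0 i + gn : ℕ) : ℝ) ≤
        num L σ p b ζ δ δ₁ J (w (j + 1)) 0 i := by
      push_cast
      linarith
    exact_mod_cast h4

end CelR

end Pool.STAT
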