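import Pool.Agent.H82.STAT.Bk
import Pool.Agent.H82.STAT.Dpp
import Pool.Agent.H75.STAT.Thin
import Pool.Agent.H77.STAT.CellX

/-!
# The precisions of the labels of a cell with dynamic coordinates

The centre `b` of the cell is the smallest radius; the radii of the levels are `b + k ζ`,
`k ≤ M + 2`. The windows at the radius `b` are `w 0 < … < w R ≤ b`; the fat labels are at the radii
`b + k ζ` in the windows `w 0 + k ζ`, the thin chart `j` at the radius `b` in the window `w j`, the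
balls in the windows `b + k ζ`. The coordinates `i` with `p i` are static. `BR.num w k i` is the
precision of the coordinate `i` at the radius `b + k ζ` in the window `w`; for the static
coordinates it does not depend on the window. `CelR`: what is needed of the cell (`CellX.celR`).
The numerical conditions of the drop-out system (`DPP.Hyp`) and of the thin charts (`Thin.Ths`).
-/

set_option autoImplicit false

namespace Pool.STAT

open Finset Pool.LEV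

/-- **A cell with dynamic coordinates**, at the base radius `b`. The coordinates are `1, …, n + 1`;
`n + 1` is the target. `e`, `e'`: the errors, `θ`: the growth of the dynamic coordinates between
the windows, `V`: a bound of the slopes. -/
structure CelR (L : ℕ → ℝ → ℝ → ℝ) (n : ℕ) (p : ℕ → Prop) (σ : ℕ → ℝ) (R M : ℕ) (w : ℕ → ℝ)
    (b ζ e e' θ V : ℝ) : Prop where
  law : ∀ i, 1 ≤ i → i ≤ n + 1 → Law (L i)
  w_nn : 0 ≤ w 0
  top : b + (M + 2) * ζ ≤ 1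
  ζ_nn : 0 ≤ ζ
  e_nn : 0 ≤ e
  tgt : p (n + 1)
  win : ∀ j < R, w j ≤ w (j + 1)
  le : w R ≤ b
  σ_ge : ∀ i, 1 ≤ i → i ≤ n + 1 → 1 ≤ σ i
  σ_le : ∀ i, 1 ≤ i → i ≤ n + 1 → σ i ≤ V
  stat : ∀ i, p i → 1 ≤ i → i ≤ n + 1 → ∀ a' w', w 0 ≤ w' → w' ≤ a' → a' ≤ b + (M + 2) * ζ →
    |L i a' w' - L i b b - σ i * (a' - b)| ≤ e
  diag : ∀ i, 1 ≤ i → i ≤ n + 1 → ∀ a', w 0 ≤ a' → a' ≤ b + (M + 2) * ζ →
    |L i a' a' - L i b b - σ i * (a' - b)| ≤ e
  gap : ∀ i, ¬ p i → 1 ≤ i → i ≤ n → ∀ j < R, L i b (w j) + θ ≤ L i b (w (j + 1))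
  fl : ∀ i, 1 ≤ i → i ≤ n + 1 → ∃ β : ℝ, 0 ≤ β ∧ β ≤ V ∧ ∀ x, 0 ≤ x → x ≤ (M + 2) * ζ →
    |L i (b + x) (w 0 + x) - L i b (w 0) - β * x| ≤ e'
  bk : ∀ i, 1 ≤ i → i ≤ n + 1 → ∀ j ≤ R, ∀ v, 0 ≤ v → v ≤ w j →
    L i b (w j) - L i (b - v) (w j - v) ≤ V * v + e
  sl : ∀ i, 1 ≤ i → i ≤ n + 1 → ∀ v, 0 ≤ v → v ≤ b → L i b b - L i (b - v) (b - v) ≤ V * v + e

namespace BR

/-- The precision of the coordinate `i` at the radius `b + k ζ` in the window `w`. -/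
noncomputable def num (L : ℕ → ℝ → ℝ → ℝ) (σ : ℕ → ℝ) (p : ℕ → Prop) [DecidablePred p]
    (b ζ δ δ₁ : ℝ) (J : ℕ) (w : ℝ) (k i : ℕ) : ℕ :=
  if p i then BK.g L σ b ζ δ J k i else ⌊(L i (b + k * ζ) w - δ₁) * J⌋₊

variable {L : ℕ → ℝ → ℝ → ℝ} {σ : ℕ → ℝ} {p : ℕ → Prop} [DecidablePred p] {b ζ δ δ₁ : ℝ} {J : ℕ}

theorem num_stat {i : ℕ} (h : p i) (w : ℝ) (k : ℕ) :
    num L σ p b ζ δ δ₁ J w k i = BK.g L σ b ζ δ J k i := if_pos h

theorem num_dyn {i : ℕ} (h : ¬ p i) (w : ℝ) (k : ℕ) :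
    num L σ p b ζ δ δ₁ J w k i = ⌊(L i (b + k * ζ) w - δ₁) * J⌋₊ := if_neg h

/-- **The fat precisions**: the radius `b + k ζ`, the window `w₀ + k ζ`. -/
noncomputable def fat (L : ℕ → ℝ → ℝ → ℝ) (σ : ℕ → ℝ) (p : ℕ → Prop) [DecidablePred p]
    (b ζ δ δ₁ : ℝ) (J : ℕ) (w : ℝ) (k i : ℕ) : ℕ :=
  num L σ p b ζ δ δ₁ J (w + k * ζ) k i

theorem fat_zero (w : ℝ) (i : ℕ) :
    fat L σ p b ζ δ δ₁ J w 0 i = num L σ p b ζ δ δ₁ J w 0 i := by
  unfold fat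
  rw [Nat.cast_zero, zero_mul, add_zero]

end BR

namespace CelR

open BR

variable {L : ℕ → ℝ → ℝ → ℝ} {n : ℕ} {p : ℕ → Prop} {σ : ℕ → ℝ} {R M : ℕ} {w : ℕ → ℝ}
  {b ζ e e' θ V : ℝ} {δ δ₁ : ℝ} {J : ℕ}

theorem win_le (H : CelR L n p σ R M w b ζ e e' θ V) {i j : ℕ} (hij : i ≤ j) (hj : j ≤ R) :
    w i ≤ w j := by
  induction j, hij using Nat.le_induction with
  | base => exact le_rfl
  | succ j _ ih => exact (ih (by omega)).trans (H.win j (by omega))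

theorem w0_le (H : CelR L n p σ R M w b ζ e e' θ V) {j : ℕ} (hj : j ≤ R) : w 0 ≤ w j :=
  H.win_le (Nat.zero_le j) hj

theorem w_le (H : CelR L n p σ R M w b ζ e e' θ V) {j : ℕ} (hj : j ≤ R) : w j ≤ b :=
  (H.win_le hj le_rfl).trans H.le

theorem kz (H : CelR L n p σ R M w b ζ e e' θ V) {k : ℕ} (hk : k ≤ M + 2) :
    b + k * ζ ≤ b + (M + 2) * ζ := by
  have h1 : (k : ℝ) ≤ M + 2 := by exact_mod_cast hk
  have := mul_le_mul_of_nonneg_right h1 H.ζ_nn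
  linarith

theorem k0 (H : CelR L n p σ R M w b ζ e e' θ V) (k : ℕ) : b ≤ b + k * ζ := by
  have : 0 ≤ (k : ℝ) * ζ := mul_nonneg (Nat.cast_nonneg k) H.ζ_nn
  linarith

theorem σ_nn (H : CelR L n p σ R M w b ζ e e' θ V) {i : ℕ} (h1 : 1 ≤ i) (hi : i ≤ n + 1) :
    0 ≤ σ i := zero_le_one.trans (H.σ_ge i h1 hi)

theorem V_nn (H : CelR L n p σ R M w b ζ e e' θ V) : 0 ≤ V :=
  (H.σ_nn (i := n + 1) (by omega) le_rfl).trans (H.σ_le _ (by omega) le_rfl)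

theorem w0k (H : CelR L n p σ R M w b ζ e e' θ V) (k : ℕ) : w 0 ≤ w 0 + k * ζ := by
  have : 0 ≤ (k : ℝ) * ζ := mul_nonneg (Nat.cast_nonneg k) H.ζ_nn
  linarith

theorem w0b (H : CelR L n p σ R M w b ζ e e' θ V) (k : ℕ) : w 0 + k * ζ ≤ b + k * ζ := by
  have := H.w_le (Nat.zero_le R)
  linarith

/-- The ball at the radius `b + k ζ`. -/
theorem ball (H : CelR L n p σ R M w b ζ e e' θ V) {i : ℕ} (h1 : 1 ≤ i) (hi : i ≤ n + 1) {k : ℕ}
    (hk : k ≤ M + 2) :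
    |L i (b + k * ζ) (b + k * ζ) - L i b b - σ i * (k * ζ)| ≤ e := by
  have h2 := H.diag i h1 hi (b + k * ζ) (((H.w_le (Nat.zero_le R))).trans (H.k0 k)) (H.kz hk)
  rwa [add_sub_cancel_left] at h2

/-- The static coordinates at the radius `b + k ζ`. -/
theorem lev (H : CelR L n p σ R M w b ζ e e' θ V) {i : ℕ} (hp : p i) (h1 : 1 ≤ i) (hi : i ≤ n + 1)
    {k : ℕ} (hk : k ≤ M + 2) {w' : ℝ} (hw : w 0 ≤ w') (hw' : w' ≤ b + k * ζ) :
    |L i (b + k * ζ) w' - L i b b - σ i * (k * ζ)| ≤ e := by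
  have h2 := H.stat i hp h1 hi (b + k * ζ) w' hw hw' (H.kz hk)
  rwa [add_sub_cancel_left] at h2

/-- The level is at most the one of the ball. -/
theorem le_ball (H : CelR L n p σ R M w b ζ e e' θ V) {i : ℕ} (h1 : 1 ≤ i) (hi : i ≤ n + 1)
    {k k' : ℕ} (hk : k ≤ k') (hk' : k' ≤ M + 2) {w' : ℝ} (hw : w 0 ≤ w') (hw' : w' ≤ b + k * ζ) :
    L i (b + k * ζ) w' ≤ L i b b + σ i * (k' * ζ) + e := by
  have h2 : (k : ℝ) * ζ ≤ k' * ζ := mul_le_mul_of_nonneg_right (by exact_mod_cast hk) H.ζ_nn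
  have hkk := H.kz hk'
  have h3 := (H.law i h1 hi).mono (w := w') (a := b + k * ζ) (w' := b + k' * ζ)
    (a' := b + k' * ζ) (H.w_nn.trans hw) hw' (by linarith) (by linarith) le_rfl
    (hkk.trans H.top)
  have h4 := (abs_le.1 (H.ball h1 hi hk')).2
  linarith

section
variable [DecidablePred p]

/-- **The precision is at most the number of the radius and the window.** -/
theorem num_ub (H : CelR L n p σ R M w b ζ e e' θ V) {i : ℕ} (h1 : 1 ≤ i) (hi : i ≤ n + 1) {k : ℕ}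
    (hk : k ≤ M + 2) {w' : ℝ} (hw : w 0 ≤ w') (hw' : w' ≤ b + k * ζ) {δ' : ℝ}
    (hδ : δ' + e ≤ δ) (hδ₁ : δ' ≤ δ₁) (hL : δ ≤ L i b b) (hL' : δ' ≤ L i b (w 0)) :
    (num L σ p b ζ δ δ₁ J w' k i : ℝ) ≤ (L i (b + k * ζ) w' - δ') * J := by
  have hJ : (0 : ℝ) ≤ J := Nat.cast_nonneg J
  by_cases hp : p i
  · rw [num_stat hp]
    exact BK.g_le hL (H.σ_nn h1 hi) H.ζ_nn (H.lev hp h1 hi hk hw hw') hδ
  · rw [num_dyn hp]
    have h3 := (H.law i h1 hi).mono (w := w 0) (a := b) (w' := w') (a' := b + k * ζ)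
      H.w_nn (H.w_le (Nat.zero_le R)) (H.k0 k) hw hw' ((H.kz hk).trans H.top)
    rcases le_or_gt 0 ((L i (b + k * ζ) w' - δ₁) * J) with h2 | h2
    · refine (Nat.floor_le h2).trans (mul_le_mul_of_nonneg_right ?_ hJ)
      linarith
    · rw [Nat.floor_of_nonpos h2.le, Nat.cast_zero]
      exact mul_nonneg (by linarith) hJ

/-- **The precision is at least the number of the radius and the window**, up to the tolerance. -/
theorem num_lb (H : CelR L n p σ R M w b ζ e e' θ V) {i : ℕ} (h1 : 1 ≤ i) (hi : i ≤ n + 1) {k : ℕ}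
    (hk : k ≤ M + 2) {w' : ℝ} (hw : w 0 ≤ w') (hw' : w' ≤ b + k * ζ) {δ₂ : ℝ} (hδ : δ + e ≤ δ₂)
    (hδ₁ : δ₁ ≤ δ₂) :
    (L i (b + k * ζ) w' - δ₂) * J - 1 ≤ num L σ p b ζ δ δ₁ J w' k i := by
  by_cases hp : p i
  · rw [num_stat hp]
    refine le_trans ?_ (BK.g_ge (H.lev hp h1 hi hk hw hw'))
    have h3 := mul_le_mul_of_nonneg_right
      (by linarith : L i (b + k * ζ) w' - δ₂ ≤ L i (b + k * ζ) w' - δ - e) (Nat.cast_nonneg' J)
    linarith
  · rw [num_dyn hp]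
    have h2 := Nat.lt_floor_add_one ((L i (b + k * ζ) w' - δ₁) * J)
    have h3 := mul_le_mul_of_nonneg_right
      (by linarith : L i (b + k * ζ) w' - δ₂ ≤ L i (b + k * ζ) w' - δ₁) (Nat.cast_nonneg' J)
    linarith

/-- The precisions increase with the level and the window. -/
theorem num_mono (H : CelR L n p σ R M w b ζ e e' θ V) {i : ℕ} (h1 : 1 ≤ i) (hi : i ≤ n + 1)
    {k k' : ℕ} (hk : k ≤ k') (hk' : k' ≤ M + 2) {w' w'' : ℝ} (hw : w 0 ≤ w') (hww : w' ≤ w'')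
    (hw' : w' ≤ b + k * ζ) (hw'' : w'' ≤ b + k' * ζ) :
    num L σ p b ζ δ δ₁ J w' k i ≤ num L σ p b ζ δ δ₁ J w'' k' i := by
  by_cases hp : p i
  · rw [num_stat hp, num_stat hp]
    exact BK.g_mono (H.σ_nn h1 hi) H.ζ_nn hk
  · rw [num_dyn hp, num_dyn hp]
    refine Nat.floor_le_floor (mul_le_mul_of_nonneg_right ?_ (Nat.cast_nonneg J))
    have h2 : (k : ℝ) * ζ ≤ k' * ζ := mul_le_mul_of_nonneg_right (by exact_mod_cast hk) H.ζ_nn
    have h3 := (H.law i h1 hi).mono (w := w') (a := b + k * ζ) (w' := w'') (a' := b + k' * ζ)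
      (H.w_nn.trans hw) hw' (by linarith) hww hw'' ((H.kz hk').trans H.top)
    linarith

/-- The fat precisions increase with the level. -/
theorem fat_mono (H : CelR L n p σ R M w b ζ e e' θ V) {i : ℕ} (h1 : 1 ≤ i) (hi : i ≤ n + 1)
    {k k' : ℕ} (hk : k ≤ k') (hk' : k' ≤ M + 2) :
    fat L σ p b ζ δ δ₁ J (w 0) k i ≤ fat L σ p b ζ δ δ₁ J (w 0) k' i := by
  have h2 : (k : ℝ) * ζ ≤ k' * ζ := mul_le_mul_of_nonneg_right (by exact_mod_cast hk) H.ζ_nn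
  exact H.num_mono h1 hi hk hk' (H.w0k k) (by linarith) (H.w0b k) (H.w0b k')

/-- The precisions of the dynamic coordinates increase with the window. -/
theorem num_win (H : CelR L n p σ R M w b ζ e e' θ V) {i : ℕ} (h1 : 1 ≤ i) (hi : i ≤ n + 1)
    {k : ℕ} (hk : k ≤ M + 2) {w' w'' : ℝ} (hw : w 0 ≤ w') (hww : w' ≤ w'')
    (hw' : w'' ≤ b + k * ζ) :
    num L σ p b ζ δ δ₁ J w' k i ≤ num L σ p b ζ δ δ₁ J w'' k i := by
  by_cases hp : p i
  · rw [num_stat hp, num_stat hp]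
  · rw [num_dyn hp, num_dyn hp]
    refine Nat.floor_le_floor (mul_le_mul_of_nonneg_right ?_ (Nat.cast_nonneg J))
    have h3 := (H.law i h1 hi).mono_w (b + k * ζ) w' w'' (H.w_nn.trans hw) hww hw'
      ((H.kz hk).trans H.top)
    linarith

/-- **The precisions are at most the ones of the ball.** -/
theorem num_ball (H : CelR L n p σ R M w b ζ e e' θ V) {i : ℕ} (h1 : 1 ≤ i) (hi : i ≤ n + 1)
    {k k' : ℕ} (hk : k ≤ k') (hk' : k' ≤ M + 2) {w' : ℝ} (hw : w 0 ≤ w') (hw' : w' ≤ b + k * ζ)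
    (hδ : δ + e ≤ δ₁) :
    num L σ p b ζ δ δ₁ J w' k i ≤ BK.g L σ b ζ δ J k' i := by
  by_cases hp : p i
  · rw [num_stat hp]
    exact BK.g_mono (H.σ_nn h1 hi) H.ζ_nn hk
  · rw [num_dyn hp]
    refine Nat.floor_le_floor (mul_le_mul_of_nonneg_right ?_ (Nat.cast_nonneg J))
    have := H.le_ball h1 hi hk hk' hw hw'
    linarith

/-- The precisions are positive. -/
theorem num_pos (H : CelR L n p σ R M w b ζ e e' θ V) {i : ℕ} (h1 : 1 ≤ i) (hi : i ≤ n + 1)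
    {k : ℕ} (hk : k ≤ M + 2) {w' : ℝ} (hw : w 0 ≤ w') (hw' : w' ≤ b + k * ζ) {c : ℝ}
    (hc : δ + e + c ≤ L i b (w 0)) (hc₁ : δ₁ + c ≤ L i b (w 0)) (hJ : 1 ≤ c * J) :
    1 ≤ num L σ p b ζ δ δ₁ J w' k i := by
  have h3 := (H.law i h1 hi).mono (w := w 0) (a := b) (w' := w') (a' := b + k * ζ)
    H.w_nn (H.w_le (Nat.zero_le R)) (H.k0 k) hw hw' ((H.kz hk).trans H.top)
  by_cases hp : p i
  · rw [num_stat hp]
    refine Nat.le_floor ?_
    have h4 := (abs_le.1 (H.lev hp h1 hi hk hw hw')).2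
    rw [Nat.cast_one]
    refine hJ.trans (mul_le_mul_of_nonneg_right ?_ (Nat.cast_nonneg J))
    linarith
  · rw [num_dyn hp]
    refine Nat.le_floor ?_
    rw [Nat.cast_one]
    refine hJ.trans (mul_le_mul_of_nonneg_right ?_ (Nat.cast_nonneg J))
    linarith

/-- **The growth of the fat precisions.** -/
theorem num_grow (H : CelR L n p σ R M w b ζ e e' θ V) {i : ℕ} (h1 : 1 ≤ i) (hi : i ≤ n + 1)
    {k : ℕ} (hk : k ≤ M + 2) (hL : δ ≤ L i b b) (hL₁ : δ₁ ≤ L i b (w 0)) {D : ℝ}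
    (hD : V * ((M + 2) * ζ) + e' ≤ D) :
    (fat L σ p b ζ δ δ₁ J (w 0) k i : ℝ) ≤ fat L σ p b ζ δ δ₁ J (w 0) 0 i + (D * J + 1) := by
  have hJ : (0 : ℝ) ≤ J := Nat.cast_nonneg J
  have hk' : (k : ℝ) ≤ M + 2 := by exact_mod_cast hk
  have hkz : (k : ℝ) * ζ ≤ (M + 2) * ζ := mul_le_mul_of_nonneg_right hk' H.ζ_nn
  have hk0 : 0 ≤ (k : ℝ) * ζ := mul_nonneg (Nat.cast_nonneg k) H.ζ_nn
  obtain ⟨β, hβ0, hβV, hβ⟩ := H.fl i h1 hi
  have he' : 0 ≤ e' := (abs_nonneg _).trans (hβ 0 le_rfl (hk0.trans hkz))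
  rw [fat_zero]
  unfold fat
  by_cases hp : p i
  · rw [num_stat hp, num_stat hp]
    have h2 := BK.g_ub (J := J) (k := k) hL (H.σ_nn h1 hi) H.ζ_nn
    have h3 := BK.g_lb (L := L) (σ := σ) (b := b) (ζ := ζ) (δ := δ) (J := J) (k := 0) (i := i)
    simp only [Nat.cast_zero, zero_mul, mul_zero, add_zero] at h3
    have h4 : σ i * (k * ζ) ≤ D := by
      have h5 : σ i * (k * ζ) ≤ V * ((M + 2) * ζ) :=
        mul_le_mul (H.σ_le i h1 hi) hkz hk0 H.V_nn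
      linarith
    have h5 := mul_le_mul_of_nonneg_right h4 hJ
    linarith
  · rw [num_dyn hp, num_dyn hp]
    simp only [Nat.cast_zero, zero_mul, add_zero]
    have h2 := (abs_le.1 (hβ (k * ζ) hk0 hkz)).2
    have h2' : β * (k * ζ) ≤ V * ((M + 2) * ζ) := mul_le_mul hβV hkz hk0 H.V_nn
    have h4 := (H.law i h1 hi).mono (w := w 0) (a := b) (w' := w 0 + k * ζ) (a' := b + k * ζ)
      H.w_nn (H.w_le (Nat.zero_le R)) (H.k0 k) (H.w0k k) (H.w0b k) ((H.kz hk).trans H.top)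
    have h5 : (⌊(L i (b + k * ζ) (w 0 + k * ζ) - δ₁) * J⌋₊ : ℝ) ≤
        (L i (b + k * ζ) (w 0 + k * ζ) - δ₁) * J :=
      Nat.floor_le (mul_nonneg (by linarith) hJ)
    have h6 := Nat.lt_floor_add_one ((L i b (w 0) - δ₁) * J)
    have h7 : (L i (b + k * ζ) (w 0 + k * ζ) - δ₁) * J ≤ (L i b (w 0) - δ₁ + D) * J :=
      mul_le_mul_of_nonneg_right (by linarith) hJ
    have h8 : (L i b (w 0) - δ₁ + D) * J = (L i b (w 0) - δ₁) * J + D * J := by ring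
    linarith

/-- **The gain of the dynamic coordinates** in the thin charts. -/
theorem num_gap (H : CelR L n p σ R M w b ζ e e' θ V) {i : ℕ} (h1 : 1 ≤ i) (hi : i ≤ n)
    (hp : ¬ p i) {j : ℕ} (hj : j < R) (hL₁ : δ₁ ≤ L i b (w 0)) :
    (num L σ p b ζ δ δ₁ J (w j) 0 i : ℝ) + (θ * J - 1) ≤
      num L σ p b ζ δ δ₁ J (w (j + 1)) 0 i := by
  have hJ : (0 : ℝ) ≤ J := Nat.cast_nonneg J
  rw [num_dyn hp, num_dyn hp]
  simp only [Nat.cast_zero, zero_mul, add_zero]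
  have h2 := (H.law i h1 (by omega)).mono_w b (w 0) (w j) H.w_nn (H.w0_le hj.le) (H.w_le hj.le)
    (by have := H.top; have := mul_nonneg (by positivity : (0 : ℝ) ≤ M + 2) H.ζ_nn; linarith)
  have h3 : (⌊(L i b (w j) - δ₁) * J⌋₊ : ℝ) ≤ (L i b (w j) - δ₁) * J :=
    Nat.floor_le (mul_nonneg (by linarith) hJ)
  have h4 := Nat.lt_floor_add_one ((L i b (w (j + 1)) - δ₁) * J)
  have h5 := mul_le_mul_of_nonneg_right
    (by linarith [H.gap i hp h1 hi j hj] : L i b (w j) - δ₁ + θ ≤ L i b (w (j + 1)) - δ₁) hJ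
  have h6 : (L i b (w j) - δ₁ + θ) * J = (L i b (w j) - δ₁) * J + θ * J := by ring
  linarith

end

end CelR

/-- **From the wide cell.** The centre `b` of the cell is the smallest radius. -/
theorem CellX.celR {L : ℕ → ℝ → ℝ → ℝ} {n : ℕ} {S : Finset ℕ} {σ : ℕ → ℝ} {s A R : ℕ}
    {κ : ℕ → ℝ} {θ τ γ μ : ℝ} {F : Finset (ℚ × ℚ)} {V : ℚ × ℚ → ℕ} {dl o b r ε : ℝ}
    (H : CellX (fun i => L (i + 1)) n S (fun i => σ (i + 1)) s A R κ θ τ γ μ F V dl o b r ε)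
    (hL : ∀ i, 1 ≤ i → i ≤ n + 1 → Law (L i)) (hσ : ∀ i, 1 ≤ i → i ≤ n + 1 → 1 ≤ σ i)
    (hr : 0 < r) (hε : 0 ≤ ε) (hγ : 0 ≤ γ) (hμ : 0 ≤ μ) (ho : 0 ≤ o) (hA : 1 ≤ A)
    (hκ : ∀ j < R, κ (j + 1) ≤ κ j) (hγκ : γ ≤ κ R) {q : ℕ → ℚ}
    (hq : ∀ j ≤ R, (q j : ℝ) = κ j) (hF : ∀ j ≤ R, ((0 : ℚ), q j) ∈ F) {p : ℕ → Prop}
    (hp : ∀ i < n, p (i + 1) ↔ i ∈ S) (hpt : p (n + 1)) {M : ℕ} {ζ Vr : ℝ} (hζ : 0 ≤ ζ)
    (hM : (M + 2) * ζ ≤ o * r) (hM' : (M + 2) * ζ ≤ (γ + μ) * r)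
    (hV : ∀ j ≤ R, (V (0, q j) : ℝ) ≤ Vr) (hs : (s : ℝ) ≤ Vr)
    (hσV : ∀ i, 1 ≤ i → i ≤ n + 1 → σ i ≤ Vr) :
    CelR L n p σ R M (fun j => b - κ j * r) b ζ (ε * r) ((dl * o + ε) * r) (θ * r) Vr := by
  have hκa : ∀ i j, i ≤ j → j ≤ R → κ j ≤ κ i := by
    intro i j hij
    induction j, hij using Nat.le_induction with
    | base => exact fun _ => le_rfl
    | succ j _ ih => exact fun h => (hκ j (by omega)).trans (ih (by omega))
  have hκle : ∀ j ≤ R, κ R ≤ κ j := fun j hj => hκa j R hj le_rfl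
  have hκ00 : κ R ≤ κ 0 := hκle 0 (Nat.zero_le R)
  have hA1 : (1 : ℝ) ≤ A := by exact_mod_cast hA
  have hAκ : κ 0 ≤ A * κ 0 := by nlinarith
  have hMζ : 0 ≤ ((M : ℝ) + 2) * ζ := by positivity
  have hεr : 0 ≤ ε * r := mul_nonneg hε hr.le
  have hμr : 0 ≤ μ * r := mul_nonneg hμ hr.le
  have hγr : 0 ≤ γ * r := mul_nonneg hγ hr.le
  have hor : 0 ≤ o * r := mul_nonneg ho hr.le
  have hlo := H.lo
  have hhi := H.hi
  have e1 : (A * κ 0 + μ) * r = A * κ 0 * r + μ * r := by ring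
  have e2 : (γ + μ + o) * r = γ * r + μ * r + o * r := by ring
  have e3 : (γ + μ) * r = γ * r + μ * r := by ring
  rw [e1] at hlo
  rw [e2] at hhi
  rw [e3] at hM'
  have h0 : κ 0 * r ≤ A * κ 0 * r := mul_le_mul_of_nonneg_right hAκ hr.le
  have hκ0r : γ * r ≤ κ 0 * r := mul_le_mul_of_nonneg_right (hγκ.trans hκ00) hr.le
  have hκj : ∀ j ≤ R, κ j * r ≤ κ 0 * r ∧ γ * r ≤ κ j * r := fun j hj =>
    ⟨mul_le_mul_of_nonneg_right (hκa 0 j (Nat.zero_le j) hj) hr.le,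
      mul_le_mul_of_nonneg_right (hγκ.trans (hκle j hj)) hr.le⟩
  have hb0 : 0 ≤ b / 2 := by linarith
  -- the diagonal
  have hdg : ∀ i, i ≤ n → ∀ a', b - (A * κ 0 + μ) * r ≤ a' → a' ≤ b + (γ + μ) * r →
      |L (i + 1) a' a' - L (i + 1) b b - σ (i + 1) * (a' - b)| ≤ ε * r := by
    intro i hi a' h1 h2
    by_cases hS : i ∈ S ∨ i = n
    · exact H.stat i hS a' a' h1 le_rfl h2
    · push Not at hS
      exact H.diag i (lt_of_le_of_ne hi hS.2) hS.1 a' h1 h2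
  refine
    { law := hL
      w_nn := ?_
      top := by linarith
      ζ_nn := hζ
      e_nn := hεr
      tgt := hpt
      win := fun j hj => ?_
      le := ?_
      σ_ge := hσ
      σ_le := hσV
      stat := fun i hpi h1 hi a' w' h2 h3 h4 => ?_
      diag := fun i h1 hi a' h2 h4 => ?_
      gap := fun i hpi h1 hi j hj => ?_
      fl := fun i h1 hi => ?_
      bk := fun i h1 hi j hj v h2 h3 => ?_
      sl := fun i h1 hi v h2 h3 => ?_ }
  · show 0 ≤ b - κ 0 * r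
    linarith
  · show b - κ j * r ≤ b - κ (j + 1) * r
    have := mul_le_mul_of_nonneg_right (hκ j hj) hr.le
    linarith
  · show b - κ R * r ≤ b
    have := (hκj R le_rfl).2
    linarith
  · obtain ⟨i, rfl⟩ : ∃ j, i = j + 1 := ⟨i - 1, by omega⟩
    have hin : i ≤ n := by omega
    have hS : i ∈ S ∨ i = n := by
      rcases hin.lt_or_eq with h | h
      · exact Or.inl ((hp i h).1 hpi)
      · exact Or.inr h
    change b - κ 0 * r ≤ w' at h2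
    exact H.stat i hS a' w' (by linarith) h3 (by linarith)
  · obtain ⟨i, rfl⟩ : ∃ j, i = j + 1 := ⟨i - 1, by omega⟩
    change b - κ 0 * r ≤ a' at h2
    exact hdg i (by omega) a' (by linarith) (by linarith)
  · obtain ⟨i, rfl⟩ : ∃ j, i = j + 1 := ⟨i - 1, by omega⟩
    have hin : i < n := by omega
    have h2 := H.dyn i hin (fun h => hpi ((hp i hin).2 h)) j hj
    have f1 : (κ j - μ) * r = κ j * r - μ * r := by ring
    have f2 : (κ (j + 1) + μ) * r = κ (j + 1) * r + μ * r := by ring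
    rw [e3, f1, f2] at h2
    have k1 := hκj j hj.le
    have k2 := hκj (j + 1) hj
    show L (i + 1) b (b - κ j * r) + θ * r ≤ L (i + 1) b (b - κ (j + 1) * r)
    have g2 : L (i + 1) b (b - κ j * r) ≤ L (i + 1) (b + (γ * r + μ * r)) (b - (κ j * r - μ * r)) :=
      (hL (i + 1) h1 (by omega)).mono (by linarith) (by linarith) (by linarith) (by linarith)
        (by linarith) (by linarith)
    have g3 : L (i + 1) (b - (γ * r + μ * r)) (b - (κ (j + 1) * r + μ * r)) ≤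
        L (i + 1) b (b - κ (j + 1) * r) :=
      (hL (i + 1) h1 (by omega)).mono (by linarith) (by linarith) (by linarith) (by linarith)
        (by linarith) (by linarith)
    linarith
  · obtain ⟨i, rfl⟩ : ∃ j, i = j + 1 := ⟨i - 1, by omega⟩
    obtain ⟨β, hβ0, hβV, hβ⟩ := H.df i (by omega) (0, q 0) (hF 0 (Nat.zero_le R))
    refine ⟨β, hβ0, hβV.trans (hV 0 (Nat.zero_le R)), fun x hx0 hx => ?_⟩
    obtain ⟨v, hv⟩ : ∃ v, v = x / r := ⟨_, rfl⟩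
    have hvr : v * r = x := by rw [hv, div_mul_cancel₀ _ hr.ne']
    have hv0 : 0 ≤ v := by rw [hv]; positivity
    have h2 := hβ v (by linarith) (by
      rw [hv, div_le_iff₀ hr]
      linarith)
    have e5 : b - ((0 : ℚ) - v) * r = b + x := by rw [← hvr]; push_cast; ring
    have e6 : b - ((q 0 : ℝ) - v) * r = b - κ 0 * r + x := by
      rw [← hvr, hq 0 (Nat.zero_le R)]; ring
    have e7 : b - ((0 : ℚ) : ℝ) * r = b := by push_cast; ring
    simp only at h2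
    rw [e5, e6, e7, hq 0 (Nat.zero_le R), mul_assoc β v r, hvr] at h2
    exact h2
  · obtain ⟨i, rfl⟩ : ∃ j, i = j + 1 := ⟨i - 1, by omega⟩
    change v ≤ b - κ j * r at h3
    obtain ⟨v', hv⟩ : ∃ v', v' = v / r := ⟨_, rfl⟩
    have hvr : v' * r = v := by rw [hv, div_mul_cancel₀ _ hr.ne']
    have hv0 : 0 ≤ v' := by rw [hv]; positivity
    have h4 := H.bk i (by omega) (0, q j) (hF j hj) v' hv0 (by
      simp only
      rw [hq j hj, add_mul, hvr]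
      linarith)
    have e5 : b - ((0 : ℚ) + v') * r = b - v := by rw [← hvr]; push_cast; ring
    have e6 : b - ((q j : ℝ) + v') * r = b - κ j * r - v := by
      rw [← hvr, hq j hj]; ring
    have e7 : b - ((0 : ℚ) : ℝ) * r = b := by push_cast; ring
    simp only at h4
    rw [e5, e6, e7, hq j hj, add_mul, mul_assoc, hvr] at h4
    show L (i + 1) b (b - κ j * r) - L (i + 1) (b - v) (b - κ j * r - v) ≤ Vr * v + ε * r
    have h5 := mul_le_mul_of_nonneg_right (hV j hj) h2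
    linarith
  · obtain ⟨i, rfl⟩ : ∃ j, i = j + 1 := ⟨i - 1, by omega⟩
    have h4 := H.sl i (by omega) v h2 h3
    have h5 := mul_le_mul_of_nonneg_right hs h2
    linarith

/-! ### The slopes -/

namespace CelR

variable {L : ℕ → ℝ → ℝ → ℝ} {n : ℕ} {p : ℕ → Prop} {σ : ℕ → ℝ} {R M : ℕ} {w : ℕ → ℝ}
  {b ζ e e' θ V : ℝ}

/-- **The slopes at the fat ends**, on the line of direction `(1, 1)`. -/
theorem slF (H : CelR L n p σ R M w b ζ e e' θ V) {i : ℕ} (h1 : 1 ≤ i) (hi : i ≤ n + 1) {k : ℕ}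
    (hk : k ≤ M + 2) {v : ℝ} (hv0 : 0 ≤ v) (hv : v ≤ w 0 + k * ζ) :
    L i (b + k * ζ) (w 0 + k * ζ) - L i (b + k * ζ - v) (w 0 + k * ζ - v) ≤
      V * v + (e + 2 * e') := by
  obtain ⟨β, hβ0, hβV, hβ⟩ := H.fl i h1 hi
  have hk' : (k : ℝ) ≤ M + 2 := by exact_mod_cast hk
  have hkz : (k : ℝ) * ζ ≤ (M + 2) * ζ := mul_le_mul_of_nonneg_right hk' H.ζ_nn
  have hk0 : 0 ≤ (k : ℝ) * ζ := mul_nonneg (Nat.cast_nonneg k) H.ζ_nn
  have he' : 0 ≤ e' := (abs_nonneg _).trans (hβ 0 le_rfl (hk0.trans hkz))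
  have he := H.e_nn
  have h2 := (abs_le.1 (hβ (k * ζ) hk0 hkz)).2
  rcases le_or_gt v (k * ζ) with h3 | h3
  · have h4 := (abs_le.1 (hβ (k * ζ - v) (by linarith) (by linarith))).1
    have e1 : b + (k * ζ - v) = b + k * ζ - v := by ring
    have e2 : w 0 + (k * ζ - v) = w 0 + k * ζ - v := by ring
    rw [e1, e2] at h4
    have h5 : β * v ≤ V * v := mul_le_mul_of_nonneg_right hβV hv0
    have h6 : β * (k * ζ - v) = β * (k * ζ) - β * v := by ring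
    linarith
  · have h4 := H.bk i h1 hi 0 (Nat.zero_le R) (v - k * ζ) (by linarith) (by linarith)
    have e1 : b - (v - k * ζ) = b + k * ζ - v := by ring
    have e2 : w 0 - (v - k * ζ) = w 0 + k * ζ - v := by ring
    rw [e1, e2] at h4
    have h5 : β * (k * ζ) ≤ V * (k * ζ) := mul_le_mul_of_nonneg_right hβV hk0
    have h6 : V * (v - k * ζ) = V * v - V * (k * ζ) := by ring
    linarith

/-- **The slopes at the balls.** -/
theorem slB (H : CelR L n p σ R M w b ζ e e' θ V) {i : ℕ} (h1 : 1 ≤ i) (hi : i ≤ n + 1) {k : ℕ}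
    (hk : k ≤ M + 2) {v : ℝ} (hv0 : 0 ≤ v) (hv : v ≤ b + k * ζ) :
    L i (b + k * ζ) (b + k * ζ) - L i (b + k * ζ - v) (b + k * ζ - v) ≤ V * v + 2 * e := by
  have hk0 : 0 ≤ (k : ℝ) * ζ := mul_nonneg (Nat.cast_nonneg k) H.ζ_nn
  have he := H.e_nn
  have hw := H.w_le (Nat.zero_le R)
  have h2 := (abs_le.1 (H.ball h1 hi hk)).2
  rcases le_or_gt v (k * ζ) with h3 | h3
  · have h4 := (abs_le.1 (H.diag i h1 hi (b + k * ζ - v) (by linarith)
      (by linarith [H.kz hk]))).1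
    have h5 : σ i * v ≤ V * v := mul_le_mul_of_nonneg_right (H.σ_le i h1 hi) hv0
    have h6 : σ i * (b + k * ζ - v - b) = σ i * (k * ζ) - σ i * v := by ring
    linarith
  · have h4 := H.sl i h1 hi (v - k * ζ) (by linarith) (by linarith)
    have e1 : b - (v - k * ζ) = b + k * ζ - v := by ring
    rw [e1] at h4
    have h5 : σ i * (k * ζ) ≤ V * (k * ζ) := mul_le_mul_of_nonneg_right (H.σ_le i h1 hi) hk0
    have h6 : V * (v - k * ζ) = V * v - V * (k * ζ) := by ring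
    linarith

end CelR

/-! ### The conditions of the drop-out system -/

namespace CelR

open BR

variable {L : ℕ → ℝ → ℝ → ℝ} {n : ℕ} {p : ℕ → Prop} {σ : ℕ → ℝ} {R M : ℕ} {w : ℕ → ℝ}
  {b ζ e e' θ V : ℝ} {δ δ₁ : ℝ} {J : ℕ} [DecidablePred p]

/-- **The number fields of `DPP.Hyp`.** -/
theorem hyp_num (H : CelR L n p σ R M w b ζ e e' θ V) (hδ : δ + e ≤ δ₁) {c : ℝ}
    (hc : ∀ i, 1 ≤ i → i ≤ n + 1 → δ₁ + c ≤ L i b (w 0)) (hJ : 1 ≤ c * J) :
    (∀ k ≤ M, ∀ i, 1 ≤ i → i ≤ n + 1 → 1 ≤ fat L σ p b ζ δ δ₁ J (w 0) k i) ∧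
    (∀ k ≤ M, ∀ i, 1 ≤ i → i ≤ n + 1 →
      fat L σ p b ζ δ δ₁ J (w 0) 0 i ≤ fat L σ p b ζ δ δ₁ J (w 0) k i) ∧
    (∀ k ≤ M, ∀ i, 1 ≤ i → i < n + 1 → p i →
      BK.g L σ b ζ δ J k i = fat L σ p b ζ δ δ₁ J (w 0) k i) ∧
    (∀ k ≤ M, ∀ i, 1 ≤ i → i < n + 1 →
      num L σ p b ζ δ δ₁ J (w R) 0 i ≤ BK.g L σ b ζ δ J k i) :=
  ⟨fun k hk i h1 hi => H.num_pos h1 hi (by omega) (H.w0k k) (H.w0b k) (c := c)
      (by linarith [hc i h1 hi]) (by linarith [hc i h1 hi]) hJ,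
    fun k hk i h1 hi => H.fat_mono h1 hi (Nat.zero_le k) (by omega),
    fun k _ i _ _ hp => (num_stat hp _ _).symm,
    fun k hk i h1 hi => H.num_ball h1 hi.le (Nat.zero_le k) (by omega) (H.w0_le le_rfl)
      (H.le.trans (H.k0 0)) hδ⟩

end CelR

end Pool.STAT
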