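import Pool.Agent.H82.STAT.Grq
import Pool.Agent.H77.STAT.GmI

/-!
# The real conditions of the grid in an affine cell

`CellI.celG`: an affine cell (`STAT.CellI`) satisfies the real conditions `GRD.CelG` of the grid of
levels with the lines `W q = b - (Q - q) x`, `Q = Rd + 2`: the line `0` is fat, the lines
`1, …, Rd + 1` are thin, the line `Q` is the diagonal.
-/

set_option autoImplicit false

namespace Pool.STAT

open Finset Pool.LEV Pool.STAT.GRD Pool.STAT.DPP

/-- The lines of the grid. -/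
noncomputable def lnW (Q : ℕ) (b x : ℝ) (q : ℕ) : ℝ := b - ((Q : ℝ) - q) * x

theorem lnW_top (Q : ℕ) (b x : ℝ) : lnW Q b x Q = b := by
  unfold lnW
  ring

theorem lnW_succ (Q : ℕ) (b x : ℝ) (q : ℕ) : lnW Q b x (q + 1) = lnW Q b x q + x := by
  unfold lnW
  push_cast
  ring

theorem lnW_zero (Q : ℕ) (b x : ℝ) : lnW Q b x 0 = b - Q * x := by
  unfold lnW
  push_cast
  ring

theorem lnW_le {Q : ℕ} {b x : ℝ} (hx : 0 ≤ x) {q : ℕ} (hq : q ≤ Q) : lnW Q b x q ≤ b := by
  unfold lnW
  have h1 : (q : ℝ) ≤ Q := by exact_mod_cast hq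
  have h2 : 0 ≤ ((Q : ℝ) - q) * x := mul_nonneg (by linarith) hx
  linarith

theorem lnW_ge {Q : ℕ} {b x : ℝ} (hx : 0 ≤ x) (q : ℕ) : b - Q * x ≤ lnW Q b x q := by
  unfold lnW
  have h1 : (0 : ℝ) ≤ q * x := mul_nonneg (Nat.cast_nonneg q) hx
  have h2 : ((Q : ℝ) - q) * x = Q * x - q * x := by ring
  linarith

section

variable {L : ℕ → ℝ → ℝ → ℝ} {n : ℕ} {σ : ℕ → ℝ} {s : ℕ} {b r ε : ℝ}

/-- A point of the cell, base levels: the levels are affine. -/
theorem CellI.pt (H : CellI L (n + 1) σ s b r ε) {i : ℕ} (hi : i ≤ n) {x w : ℝ}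
    (h1 : b - r ≤ w + x) (h2 : w ≤ b) (h3 : b + x ≤ b + r) :
    |L i (b + x) (w + x) - L i b b - x - (σ i - 1) * (w + x - b)| ≤ ε * r := by
  have h := H.bas i (by omega) (b + x) (w + x) h1 (by linarith) h3
  have e1 : b + x - b = x := by ring
  rwa [e1] at h

/-- A point of the cell, the target. -/
theorem CellI.ptt (H : CellI L (n + 1) σ s b r ε) {x w : ℝ}
    (h1 : b - r ≤ w + x) (h2 : w ≤ b) (h3 : b + x ≤ b + r) :
    |L (n + 1) (b + x) (w + x) - L (n + 1) b b - σ (n + 1) * x| ≤ ε * r := by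
  have h := H.tgt (b + x) (w + x) h1 (by linarith) h3
  have e1 : b + x - b = x := by ring
  rwa [e1] at h

/-- The upper bound of the levels near the centre. -/
theorem CellI.up (H : CellI L (n + 1) σ s b r ε) (hσ : ∀ i, 1 ≤ σ i) {i : ℕ} (hi : i ≤ n + 1)
    {x w : ℝ} (h1 : b - r ≤ w + x) (h2 : w ≤ b) (h3 : b + x ≤ b + r) :
    L i (b + x) (w + x) ≤ L i b b + σ i * x + ε * r := by
  rcases Nat.lt_or_ge n i with h | h
  · obtain rfl : i = n + 1 := by omega
    have := (abs_le.1 (H.ptt h1 h2 h3)).2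
    linarith
  · have h4 := (abs_le.1 (H.pt h h1 h2 h3)).2
    have h5 : (σ i - 1) * (w + x - b) ≤ (σ i - 1) * x :=
      mul_le_mul_of_nonneg_left (by linarith) (by linarith [hσ i])
    have e1 : (σ i - 1) * x = σ i * x - x := by ring
    linarith

/-- **The real conditions of the grid in an affine cell.** -/
theorem CellI.celG (H : CellI L (n + 1) σ s b r ε) (hL : ∀ i, Law (L i))
    (hge : ∀ i a w, 0 ≤ w → w ≤ a → a ≤ 1 → a ≤ L i a w) (hσ : ∀ i, 1 ≤ σ i)
    (hs : ∀ i ≤ n + 1, σ i ≤ s) {p : ℕ → Prop} (hp : Stc p (n + 1)) {β : ℝ}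
    (hps : ∀ i ≤ n, p i → σ i = 1) (hpd : ∀ i ≤ n, ¬ p i → 1 + 2 * β ≤ σ i)
    {Rd M S P : ℕ} (hRd : n ≤ Rd + 1) {x ρ o η e θ V : ℝ} (hr : 0 < r) (hε : 0 ≤ ε) (hx : 0 ≤ x)
    (hQx : ((Rd + 2 : ℕ) : ℝ) * x ≤ r / 8) (hη : 0 < η) (hηr : η ≤ r / 8)
    (hρ0 : 0 ≤ ρ) (hρ : ρ ≤ b / 2) (ho : M * (P * η) ≤ o) (hor : o ≤ r / 8)
    (hlt : ∀ i ≤ n + 1, L i (b + o) (b + o) < 1) (hS : 2 * s ≤ S) (hfar : 1 ≤ S * (ρ - η))
    (he : 2 * (ε * r) + s * η ≤ e) (hθ : θ + 2 * (ε * r) ≤ 2 * β * x)
    (hV : s * (M * (P * η)) + 2 * (ε * r) ≤ V) :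
    CelG L (n + 1) p σ Rd M S P (lnW (Rd + 2) b x) b ρ o (b / 2) η e θ V := by
  have hεr : 0 ≤ ε * r := mul_nonneg hε hr.le
  have hb0 : r ≤ b / 2 := H.lo
  have hb : 0 < b := by linarith
  have hs1 : (1 : ℝ) ≤ s := (hσ 0).trans (hs 0 (Nat.zero_le _))
  have hsη : 0 ≤ s * η := mul_nonneg (by linarith) hη.le
  have hSs : (2 : ℝ) * s ≤ S := by exact_mod_cast hS
  have hM0 : (0 : ℝ) ≤ M * (P * η) := by positivity
  have ho0 : 0 ≤ o := hM0.trans ho
  have hbo : b + o ≤ 1 := by linarith [H.hi]
  have hWlo : ∀ q, b - r / 8 ≤ lnW (Rd + 2) b x q := fun q => by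
    have := lnW_ge (Q := Rd + 2) (b := b) hx q
    linarith
  have hWhi : ∀ q ≤ Rd + 2, lnW (Rd + 2) b x q ≤ b := fun q hq => lnW_le hx hq
  -- the offsets of the closing levels
  have hxe : ∀ k ≤ M, -η ≤ xe P η k ∧ xe P η k ≤ o ∧ xe P η k = k * (P * η) - η := by
    intro k hk
    refine ⟨xe_ge hη.le k, ?_, rfl⟩
    have h1 : (k : ℝ) * (P * η) ≤ M * (P * η) :=
      mul_le_mul_of_nonneg_right (by exact_mod_cast hk) (by positivity)
    show (k : ℝ) * (P * η) - η ≤ o
    linarith
  -- the lines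
  have hlns : Lns L (n + 1) (Rd + 2) (lnW (Rd + 2) b x) b ρ o (b / 2) := by
    refine
      { law := fun i _ _ => hL i
        ρ_nn := hρ0
        o_nn := ho0
        c_nn := by linarith
        W0 := by linarith [hWlo 0]
        win := fun j _ => by rw [lnW_succ]; linarith
        WQ := lnW_top _ _ _
        top := hbo
        lo := fun i _ _ => ?_
        lt := fun i _ hi => hlt i hi }
    have h1 := hge i (b - ρ) (lnW (Rd + 2) b x 0 - ρ) (by linarith [hWlo 0])
      (by linarith [hWhi 0 (Nat.zero_le _)]) (by linarith)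
    linarith
  refine
    { lns := hlns
      n_pos := Nat.succ_pos n
      stc := hp
      card := fun U hU => ?_
      σ_nn := fun i _ _ => zero_le_one.trans (hσ i)
      e_nn := by linarith
      far := hfar
      slope := fun q hq k hk _ i h1 hi y hy1 hy2 => ?_
      stat := fun i hpi h1 hi q hq k hk _ => ?_
      diag := fun i h1 hi k hk => ?_
      gap := fun i hpi h1 hi j hj => ?_
      grow := fun i hpi h1 hi k hk => ?_ }
  · -- the number of dynamic coordinates
    have h1 : U ⊆ Finset.Icc 1 n := fun i hi => by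
      obtain ⟨h2, h3⟩ := hU i hi
      rw [Finset.mem_Icc]
      refine ⟨?_, by omega⟩
      rcases Nat.eq_zero_or_pos i with h4 | h4
      · rw [h4] at h3
        exact absurd hp.zero h3
      · exact h4
    have h2 := Finset.card_le_card h1
    rw [Nat.card_Icc] at h2
    omega
  · -- the slopes
    obtain ⟨x1, x2, -⟩ := hxe k hk
    have hW1 := hWlo q
    have hW2 := hWhi q hq
    have hup := H.up hσ hi (x := xe P η k) (w := lnW (Rd + 2) b x q) (by linarith) hW2
      (by linarith)
    have hσs := hs i hi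
    have hσ1 := hσ i
    rcases le_or_gt (b - r) (lnW (Rd + 2) b x q + y) with h5 | h5
    · -- in the cell
      have k1 : L i (b + xe P η k) (lnW (Rd + 2) b x q + xe P η k) -
          L i (b + y) (lnW (Rd + 2) b x q + y) ≤ σ i * (xe P η k - y) + 2 * (ε * r) := by
        rcases Nat.lt_or_ge n i with h | h
        · obtain rfl : i = n + 1 := by omega
          have a1 := (abs_le.1 (H.ptt (x := xe P η k) (w := lnW (Rd + 2) b x q) (by linarith) hW2
            (by linarith))).2
          have a2 := (abs_le.1 (H.ptt (x := y) (w := lnW (Rd + 2) b x q) h5 hW2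
            (by linarith))).1
          linarith
        · have a1 := (abs_le.1 (H.pt h (x := xe P η k) (w := lnW (Rd + 2) b x q) (by linarith)
            hW2 (by linarith))).2
          have a2 := (abs_le.1 (H.pt h (x := y) (w := lnW (Rd + 2) b x q) h5 hW2
            (by linarith))).1
          linarith
      have k2 : σ i * (xe P η k - y) ≤ S * (xe P η k - y) :=
        mul_le_mul_of_nonneg_right (by linarith) (by linarith)
      linarith
    · -- below the cell
      have hv0 : 0 ≤ lnW (Rd + 2) b x q + y := by linarith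
      obtain ⟨v, hv⟩ : ∃ v, v = b - (lnW (Rd + 2) b x q + y) := ⟨_, rfl⟩
      have ev : b - v = lnW (Rd + 2) b x q + y := by rw [hv]; ring
      have a1 := H.sl i hi v (by linarith) (by linarith)
      rw [ev] at a1
      have a2 := (hL i).mono_a (lnW (Rd + 2) b x q + y) (b + y) (lnW (Rd + 2) b x q + y) hv0
        le_rfl (by linarith) (by linarith)
      have hsv : s * v = s * (b - lnW (Rd + 2) b x q) - s * y := by rw [hv]; ring
      have c1 : s * (b - lnW (Rd + 2) b x q) ≤ s * (r / 8) :=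
        mul_le_mul_of_nonneg_left (by linarith) (by linarith)
      -- `(S - σ) xe ≥ - (S - σ) η`
      have c2 : (S - σ i) * (-η) ≤ (S - σ i) * xe P η k :=
        mul_le_mul_of_nonneg_left x1 (by linarith)
      have c3 : (S - s) * (r - r / 8) ≤ (S - s) * (-y) :=
        mul_le_mul_of_nonneg_left (by linarith) (by linarith)
      have c4 : (S - σ i) * η ≤ S * (r / 8) := by
        have d1 : (S - σ i) * η ≤ S * η := mul_le_mul_of_nonneg_right (by linarith) hη.le
        have d2 : (S : ℝ) * η ≤ S * (r / 8) := mul_le_mul_of_nonneg_left hηr (by linarith)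
        linarith
      have c5 : 2 * s * r ≤ S * r := mul_le_mul_of_nonneg_right hSs hr.le
      have c6 : 0 ≤ s * r := mul_nonneg (by linarith) hr.le
      linarith
  · -- static levels
    obtain ⟨x1, x2, x3⟩ := hxe k hk
    have hW1 := hWlo q
    have hW2 := hWhi q hq
    rcases Nat.lt_or_ge n i with h | h
    · obtain rfl : i = n + 1 := by omega
      have a1 := abs_le.1 (H.ptt (x := xe P η k) (w := lnW (Rd + 2) b x q) (by linarith) hW2
        (by linarith))
      have a2 : σ (n + 1) * η ≤ s * η := mul_le_mul_of_nonneg_right (hs _ le_rfl) hη.le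
      have a3 : 0 ≤ σ (n + 1) * η := mul_nonneg (by linarith [hσ (n + 1)]) hη.le
      have e1 : σ (n + 1) * xe P η k = σ (n + 1) * (k * (P * η)) - σ (n + 1) * η := by
        rw [x3]; ring
      rw [e1] at a1
      rw [abs_le]
      constructor <;> linarith [a1.1, a1.2]
    · have a1 := abs_le.1 (H.pt h (x := xe P η k) (w := lnW (Rd + 2) b x q) (by linarith) hW2
        (by linarith))
      rw [hps i h hpi] at a1 ⊢
      rw [sub_self, zero_mul, sub_zero] at a1
      have a2 : η ≤ s * η := le_mul_of_one_le_left hη.le hs1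
      rw [one_mul, abs_le]
      rw [x3] at a1 ⊢
      constructor <;> linarith [a1.1, a1.2]
  · -- the diagonal
    obtain ⟨x1, x2, x3⟩ := hxe k hk
    have a2 : σ i * η ≤ s * η := mul_le_mul_of_nonneg_right (hs _ hi) hη.le
    have a3 : 0 ≤ σ i * η := mul_nonneg (by linarith [hσ i]) hη.le
    have e1 : σ i * xe P η k = σ i * (k * (P * η)) - σ i * η := by
      rw [x3]; ring
    rcases Nat.lt_or_ge n i with h | h
    · obtain rfl : i = n + 1 := by omega
      have a1 := abs_le.1 (H.ptt (x := xe P η k) (w := b) (by linarith) le_rfl (by linarith))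
      rw [e1] at a1
      rw [abs_le]
      constructor <;> linarith [a1.1, a1.2]
    · have a1 := abs_le.1 (H.pt h (x := xe P η k) (w := b) (by linarith) le_rfl (by linarith))
      have e2 : b + xe P η k - b = xe P η k := by ring
      have e3 : (σ i - 1) * xe P η k = σ i * xe P η k - xe P η k := by ring
      rw [e2, e3, e1] at a1
      rw [abs_le]
      constructor <;> linarith [a1.1, a1.2]
  · -- the gain
    have hW1 := hWlo j
    have hW1' := hWlo (j + 1)
    have hW2 := hWhi j (by omega)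
    have hW2' := hWhi (j + 1) (by omega)
    have a1 := (abs_le.1 (H.pt (i := i) (by omega) (x := -η) (w := lnW (Rd + 2) b x j)
      (by linarith) hW2 (by linarith))).2
    have a2 := (abs_le.1 (H.pt (i := i) (by omega) (x := -η) (w := lnW (Rd + 2) b x (j + 1))
      (by linarith) hW2' (by linarith))).1
    have a3 : 2 * β * x ≤ (σ i - 1) * x :=
      mul_le_mul_of_nonneg_right (by linarith [hpd i (by omega) hpi]) hx
    have e1 := lnW_succ (Rd + 2) b x j
    have e2 : (σ i - 1) * (lnW (Rd + 2) b x (j + 1) + -η - b) =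
        (σ i - 1) * (lnW (Rd + 2) b x j + -η - b) + (σ i - 1) * x := by rw [e1]; ring
    have e3 : ∀ y : ℝ, y - η = y + -η := fun y => by ring
    rw [e3, e3, e3]
    linarith
  · -- the growth
    obtain ⟨x1, x2, x3⟩ := hxe k hk
    have hW1 := hWlo 0
    have hW2 := hWhi 0 (Nat.zero_le _)
    have a1 := (abs_le.1 (H.pt (i := i) (by omega) (x := xe P η k) (w := lnW (Rd + 2) b x 0)
      (by linarith) hW2 (by linarith))).2
    have a2 := (abs_le.1 (H.pt (i := i) (by omega) (x := -η) (w := lnW (Rd + 2) b x 0)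
      (by linarith) hW2 (by linarith))).1
    have e2 : (σ i - 1) * (lnW (Rd + 2) b x 0 + xe P η k - b) =
        (σ i - 1) * (lnW (Rd + 2) b x 0 + -η - b) + (σ i - 1) * (xe P η k + η) := by ring
    have e3 : ∀ y : ℝ, y - η = y + -η := fun y => by ring
    have a3 : (xe P η k + η) + (σ i - 1) * (xe P η k + η) ≤ s * (M * (P * η)) := by
      have b1 : xe P η k + η = k * (P * η) := by rw [x3]; ring
      have b2 : (k : ℝ) * (P * η) ≤ M * (P * η) :=
        mul_le_mul_of_nonneg_right (by exact_mod_cast hk) (by positivity)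
      have b3 : σ i * (k * (P * η)) ≤ s * (M * (P * η)) :=
        mul_le_mul (hs i (by omega)) b2 (by positivity) (by linarith)
      rw [b1]
      linarith
    rw [e3, e3]
    linarith

end

end Pool.STAT
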