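import Pool.Agent.H82.STAT.Grw
import Pool.Agent.H77.STAT.StaN

/-!
# The real numbers of the grid in an affine cell

`Rl`: the homogeneous inequalities for the step `ω` of the levels, the loss `κ`, the mesh `η` and
the error `ε`; `rl_ex`: they are solvable. `CellI.real`: with these numbers, an affine cell of
small size satisfies the real conditions `GRD.CelG` and `GRD.Rls` of the grid.
-/

set_option autoImplicit false

namespace Pool.STAT

open Finset Pool.LEV Pool.STAT.GRD Pool.STAT.DPP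

/-- **The real numbers of the grid**, for the size one: `ω` step of the levels, `κ` loss of the
numbers, `η` mesh, `ε` error of the cell, `φ` loss of the labels, `gp` the gain of the thin
windows. -/
structure Rl (Λ s S M : ℕ) (gp ω κ η ε φ : ℝ) : Prop where
  ω_pos : 0 < ω
  κ_pos : 0 < κ
  η_pos : 0 < η
  ε_pos : 0 < ε
  φ_pos : 0 < φ
  ωM : (M + 2) * ω ≤ 1 / 8
  ηω : η ≤ ω
  small : Λ * (2 * ε + s * η + (S + 2) * η + φ) < κ
  κω : Λ * κ < ω
  κω' : κ ≤ ω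
  gn : Λ * (s * ((M + 1) * ω) + 2 * ε) < gp - 2 * ε

/-- The numbers exist: `ω` first, then `κ`, then the mesh. -/
theorem rl_ex (Λ s S M : ℕ) {gp ω₁ : ℝ} (hgp : 0 < gp) (hω₁ : 0 < ω₁) :
    ∃ ω : ℚ, (0 : ℝ) < ω ∧ (ω : ℝ) ≤ ω₁ ∧ (M + 2) * (ω : ℝ) ≤ 1 / 8 ∧ ∀ κ₁ : ℝ, 0 < κ₁ →
    ∃ (κ ε φ : ℝ) (P₁ : ℕ), κ ≤ κ₁ ∧ φ ≤ κ ∧ ∀ P : ℕ, P₁ ≤ P → 1 ≤ P →
      Rl Λ s S M gp ω κ (ω / P) ε φ := by
  have hΛ : (0 : ℝ) ≤ Λ := Nat.cast_nonneg _
  have hs : (0 : ℝ) ≤ s := Nat.cast_nonneg _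
  have hS : (0 : ℝ) ≤ S := Nat.cast_nonneg _
  have hM : (0 : ℝ) ≤ M := Nat.cast_nonneg _
  obtain ⟨ω, hω0, hω⟩ := exists_rat_btwn (show (0 : ℝ) < min ω₁ (min (1 / (8 * ((M : ℝ) + 2)))
    (gp / (4 * (Λ * (s * (M + 1)) + 1)))) from
      lt_min hω₁ (lt_min (by positivity) (by positivity)))
  have hω1 : (M + 2) * (ω : ℝ) ≤ 1 / 8 := by
    have := (hω.trans_le ((min_le_right _ _).trans (min_le_left _ _))).le
    rw [le_div_iff₀ (by positivity)] at this
    linarith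
  have hω2 : 4 * (Λ * (s * ((M + 1) * (ω : ℝ)))) + 4 * ω < gp := by
    have := hω.trans_le ((min_le_right _ _).trans (min_le_right _ _))
    rw [lt_div_iff₀ (by positivity)] at this
    linarith
  refine ⟨ω, hω0, (hω.trans_le (min_le_left _ _)).le, hω1, fun κ₁ hκ₁ => ?_⟩
  obtain ⟨κ, hκ⟩ : ∃ κ : ℝ, κ = min κ₁ (ω / (2 * (Λ + 1))) := ⟨_, rfl⟩
  have hκ0 : 0 < κ := by rw [hκ]; exact lt_min hκ₁ (by positivity)
  have hκω : 2 * (Λ * κ) + 2 * κ ≤ ω := by
    have : κ ≤ ω / (2 * (Λ + 1)) := by rw [hκ]; exact min_le_right _ _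
    rw [le_div_iff₀ (by positivity)] at this
    linarith
  have hΛκ : 0 ≤ Λ * κ := by positivity
  obtain ⟨ε, hε⟩ : ∃ ε : ℝ, ε = κ / (16 * (Λ + 1)) := ⟨_, rfl⟩
  have hε0 : 0 < ε := by rw [hε]; positivity
  have hεκ : 16 * (Λ * ε) + 16 * ε = κ := by
    rw [hε]
    field_simp
  have hΛε : 0 ≤ Λ * ε := by positivity
  obtain ⟨P₁, hP₁⟩ := exists_nat_gt (ω * (8 * (Λ + 1) * (s + S + 2)) / κ : ℝ)
  refine ⟨κ, ε, ε, P₁, by rw [hκ]; exact min_le_left _ _, by linarith, fun P hPP hP1 => ?_⟩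
  have hP : (ω * (8 * (Λ + 1) * (s + S + 2)) / κ : ℝ) < P :=
    hP₁.trans_le (by exact_mod_cast hPP)
  have hP0 : (0 : ℝ) < P := by exact_mod_cast (by omega : 0 < P)
  rw [div_lt_iff₀ hκ0] at hP
  obtain ⟨η, hη⟩ : ∃ η : ℝ, η = ω / P := ⟨_, rfl⟩
  have hη0 : 0 < η := by rw [hη]; positivity
  have hηω : η ≤ ω := by
    rw [hη]
    exact div_le_self hω0.le (by exact_mod_cast hP1)
  have hηκ : η * (8 * (Λ + 1) * (s + S + 2)) < κ := by
    rw [hη, div_mul_eq_mul_div, div_lt_iff₀ hP0]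
    linarith
  rw [← hη]
  have hx : 8 * (Λ * (s * η + (S + 2) * η)) ≤ η * (8 * (Λ + 1) * (s + S + 2)) := by
    have e1 : η * (8 * (Λ + 1) * (s + S + 2)) =
      8 * (Λ * (s * η + (S + 2) * η)) + 8 * (η * (s + S + 2)) := by ring
    have e2 : 0 ≤ η * ((s : ℝ) + S + 2) := by positivity
    linarith
  refine
    { ω_pos := hω0
      κ_pos := hκ0
      η_pos := hη0
      ε_pos := hε0
      φ_pos := hε0
      ωM := hω1
      ηω := hηω
      small := ?_
      κω := by linarith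
      κω' := by linarith
      gn := ?_ }
  · have e1 : Λ * (2 * ε + s * η + (S + 2) * η + ε) = 3 * (Λ * ε) +
      Λ * (s * η + (S + 2) * η) := by ring
    linarith
  · have e1 : Λ * (s * ((M + 1) * ω) + 2 * ε) = Λ * (s * ((M + 1) * (ω : ℝ))) +
      2 * (Λ * ε) := by ring
    linarith

/-- The relative distance of the lines. -/
noncomputable def lx (Rd : ℕ) : ℝ := 1 / (8 * ((Rd + 2 : ℕ) : ℝ))

theorem lx_pos (Rd : ℕ) : 0 < lx Rd := by
  unfold lx
  positivity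

theorem lx_mul (Rd : ℕ) : ((Rd + 2 : ℕ) : ℝ) * lx Rd = 1 / 8 := by
  unfold lx
  have : ((Rd + 2 : ℕ) : ℝ) ≠ 0 := by positivity
  field_simp

section

variable {L : ℕ → ℝ → ℝ → ℝ} {n : ℕ} {σ : ℕ → ℝ} {s : ℕ} {b r ε : ℝ}

/-- **The real conditions of the grid in an affine cell of small size.** `ρ₀`: the depth of the
lines, `gp = 2 β lx`: the gain of the thin windows. -/
theorem CellI.real (H : CellI L (n + 1) σ s b r ε) (hL : ∀ i, Law (L i))
    (hge : ∀ i a w, 0 ≤ w → w ≤ a → a ≤ 1 → a ≤ L i a w) (hσ : ∀ i, 1 ≤ σ i)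
    (hs : ∀ i ≤ n + 1, σ i ≤ s) {p : ℕ → Prop} (hp : Stc p (n + 1)) {β : ℝ}
    (hps : ∀ i ≤ n, p i → σ i = 1) (hpd : ∀ i ≤ n, ¬ p i → 1 + 2 * β ≤ σ i)
    {Rd M S P Λ : ℕ} (hRd : n ≤ Rd + 1) (hr : 0 < r) {ω κ φ ρ₀ X₀ y E ε₀ e' : ℝ}
    (hP : 1 ≤ P) (R : Rl Λ s S M (2 * β * lx Rd) ω κ (ω / P) ε φ)
    (hρ₀ : 0 < ρ₀) (hρb : ρ₀ ≤ b / 4) (hSρ : 2 ≤ S * ρ₀) (hrρ : r ≤ ρ₀) (hS : 2 * s ≤ S)
    (hX : ∀ i ≤ n + 1, L i (b + M * (ω * r)) (b + M * (ω * r)) ≤ X₀) (hE : 0 ≤ E) (he' : 0 ≤ e')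
    (hy : ω ≤ y) (hone : X₀ + y * r + 4 * (κ * r) + E < 1) (hδε : Λ * (κ * r) + e' < ε₀)
    (hφ : φ ≤ κ) :
    ∃ T : ℕ, 1 ≤ T ∧ ρ₀ ≤ T * (ω / P * r) ∧ T * (ω / P * r) ≤ ρ₀ + ω / P * r ∧
      CelG L (n + 1) p σ Rd M S P (lnW (Rd + 2) b (lx Rd * r)) b (T * (ω / P * r)) (M * (ω * r))
        (b / 2) (ω / P * r) (2 * (ε * r) + s * (ω / P * r)) (2 * β * lx Rd * r - 2 * (ε * r))
        (s * (M * (P * (ω / P * r))) + 2 * (ε * r)) ∧
      Rls Λ L (n + 1) σ M S P T (lnW (Rd + 2) b (lx Rd * r)) b (T * (ω / P * r)) (M * (ω * r))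
        (b / 2) (ω / P * r) (2 * (ε * r) + s * (ω / P * r)) (2 * β * lx Rd * r - 2 * (ε * r))
        (s * (M * (P * (ω / P * r))) + 2 * (ε * r)) (κ * r) (φ * r)
        (s * ((M + 1) * (ω * r)) + 2 * (ε * r)) E (ω * r) X₀ (y * r)
        ((Λ * (s * ((M + 1) * ω) + 2 * ε) + 1) * r) ε₀ e' := by
  have hb0 : r ≤ b / 2 := H.lo
  have hb : 0 < b := by linarith
  have hω := R.ω_pos
  have hκ := R.κ_pos
  have hη := R.η_pos
  have hε := R.ε_pos
  have hφ0 := R.φ_pos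
  have hM0 : (0 : ℝ) ≤ M := Nat.cast_nonneg M
  have hΛ0 : (0 : ℝ) ≤ Λ := Nat.cast_nonneg Λ
  have hs1 : (1 : ℝ) ≤ s := (hσ 0).trans (hs 0 (Nat.zero_le _))
  have hPr : (1 : ℝ) ≤ P := by exact_mod_cast hP
  have hP0 : (0 : ℝ) < P := by linarith
  have hωr : 0 < ω * r := mul_pos hω hr
  have hηr : 0 < ω / P * r := mul_pos hη hr
  have hεr : 0 < ε * r := mul_pos hε hr
  have hκr : 0 < κ * r := mul_pos hκ hr
  have hPη : P * (ω / P * r) = ω * r := by field_simp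
  have hMω : (M + 2) * (ω * r) ≤ r / 8 := by
    have h1 := mul_le_mul_of_nonneg_right R.ωM hr.le
    have e1 : (M + 2) * (ω * r) = (M + 2) * ω * r := by ring
    rw [e1]
    linarith
  have hMω' : (M : ℝ) * (ω * r) + 2 * (ω * r) ≤ r / 8 := by
    have e1 : (M + 2) * (ω * r) = M * (ω * r) + 2 * (ω * r) := by ring
    linarith
  have hMω0 : 0 ≤ (M : ℝ) * (ω * r) := by positivity
  have hηω : ω / P * r ≤ ω * r := mul_le_mul_of_nonneg_right R.ηω hr.le
  have hκω : κ * r ≤ ω * r := mul_le_mul_of_nonneg_right R.κω' hr.le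
  have hφκ : φ * r ≤ κ * r := mul_le_mul_of_nonneg_right hφ hr.le
  have hlx := lx_pos Rd
  have hQx : ((Rd + 2 : ℕ) : ℝ) * (lx Rd * r) = r / 8 := by
    rw [← mul_assoc, lx_mul]
    ring
  -- the number of levels
  obtain ⟨T, hT⟩ : ∃ T : ℕ, T = ⌈ρ₀ / (ω / P * r)⌉₊ := ⟨_, rfl⟩
  have hT1 : ρ₀ ≤ T * (ω / P * r) := by
    have h1 := Nat.le_ceil (ρ₀ / (ω / P * r))
    rw [← hT, div_le_iff₀ hηr] at h1
    exact h1
  have hT2 : T * (ω / P * r) ≤ ρ₀ + ω / P * r := by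
    have h1 := (Nat.ceil_lt_add_one (div_nonneg hρ₀.le hηr.le : 0 ≤ ρ₀ / (ω / P * r))).le
    rw [← hT] at h1
    have h2 := mul_le_mul_of_nonneg_right h1 hηr.le
    have e1 : (ρ₀ / (ω / P * r) + 1) * (ω / P * r) = ρ₀ + ω / P * r := by
      field_simp
    rwa [e1] at h2
  have hT0 : 1 ≤ T := by
    rw [Nat.one_le_iff_ne_zero]
    intro h
    rw [h] at hT1
    push_cast at hT1
    linarith
  have hηρ : ω / P * r ≤ ρ₀ / 2 := by linarith
  have hβ : 0 < 2 * β * lx Rd := by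
    have h1 := R.gn
    have h2 : 0 ≤ Λ * (s * ((M + 1) * ω) + 2 * ε) := by positivity
    linarith
  have hgn : Λ * (s * ((M + 1) * (ω * r)) + 2 * (ε * r)) < 2 * β * lx Rd * r - 2 * (ε * r) := by
    have h1 := mul_lt_mul_of_pos_right R.gn hr
    have e1 : Λ * (s * ((M + 1) * ω) + 2 * ε) * r =
      Λ * (s * ((M + 1) * (ω * r)) + 2 * (ε * r)) := by ring
    have e2 : (2 * β * lx Rd - 2 * ε) * r = 2 * β * lx Rd * r - 2 * (ε * r) := by ring
    rw [e1, e2] at h1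
    exact h1
  refine ⟨T, hT0, hT1, hT2, ?_, ?_⟩
  · refine H.celG hL hge hσ hs hp (β := β) hps hpd hRd hr hε.le (mul_nonneg hlx.le hr.le)
      (le_of_eq hQx) hηr (by linarith) (by linarith) (by linarith) (by rw [hPη])
      (by linarith) (fun i hi => ?_) hS ?_ le_rfl ?_ le_rfl
    · have h1 := hX i hi
      have h2 : 0 ≤ y * r := mul_nonneg (by linarith) hr.le
      linarith
    · have h1 : S * (ρ₀ / 2) ≤ S * (T * (ω / P * r) - ω / P * r) :=
        mul_le_mul_of_nonneg_left (by linarith) (Nat.cast_nonneg S)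
      linarith
    · have e1 : 2 * β * (lx Rd * r) = 2 * β * lx Rd * r := by ring
      linarith
  · refine
      { η_pos := hηr
        T_pos := hT0
        P_pos := hP
        ρ_eq := rfl
        ζ_eq := hPη.symm
        o_ge := le_rfl
        φ_nn := by positivity
        δ_le := fun i h1 hi => ?_
        c₀_ge := by linarith
        Dσ := fun i h1 hi => ?_
        DV := ?_
        DM := ?_
        fat := ?_
        top := ?_
        small := ?_
        δζ := ?_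
        Dθ := hgn
        Dq := ?_
        δε := hδε
        e'_nn := he'
        E_nn := hE
        X_nn := ?_
        X_ge := fun i h1 hi => hX i hi
        y_ge := mul_le_mul_of_nonneg_right hy hr.le
        one := hone }
    · have h1 := hge i b b hb.le le_rfl (by linarith [H.hi])
      linarith
    · have h1 : σ i * (M * (ω * r)) ≤ s * (M * (ω * r)) :=
        mul_le_mul_of_nonneg_right (hs i hi) hMω0
      have h2 : 0 ≤ s * (ω * r) := by positivity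
      have e1 : s * ((M + 1) * (ω * r)) = s * (M * (ω * r)) + s * (ω * r) := by ring
      linarith
    · rw [hPη]
      have h2 : 0 ≤ s * (ω * r) := by positivity
      have e1 : s * ((M + 1) * (ω * r)) = s * (M * (ω * r)) + s * (ω * r) := by ring
      linarith
    · have h1 : (M + 1) * (ω * r) ≤ s * ((M + 1) * (ω * r)) :=
        le_mul_of_one_le_left (by positivity) hs1
      linarith
    · rw [lnW_zero, hQx]
      linarith
    · have e1 : (M + 1 : ℝ) * (ω * r) = M * (ω * r) + ω * r := by ring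
      linarith [H.hi]
    · have h1 := mul_lt_mul_of_pos_right R.small hr
      have e1 : Λ * (2 * ε + s * (ω / P) + (S + 2) * (ω / P) + φ) * r =
        Λ * (2 * (ε * r) + s * (ω / P * r) + (S + 2) * (ω / P * r) + φ * r) := by ring
      rw [e1] at h1
      exact h1
    · have h1 := mul_lt_mul_of_pos_right R.κω hr
      rwa [mul_assoc] at h1
    · have e1 : (Λ * (s * ((M + 1) * ω) + 2 * ε) + 1) * r =
        Λ * (s * ((M + 1) * (ω * r)) + 2 * (ε * r)) + r := by ring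
      rw [e1]
      linarith
    · have h1 := hX 0 (Nat.zero_le _)
      have h2 := hge 0 (b + M * (ω * r)) (b + M * (ω * r)) (by linarith) le_rfl
        (by linarith [H.hi])
      linarith

end

end Pool.STAT
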