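import Pool.Agent.H90.STAT.Ful
import Pool.Agent.H12.STAT.CntS

/-!
# The inputs of a row (row N2), abstract form

`row_abs`: the structure `NDat.Row` for a system `D` in the units of the window, from
* the entropy of `Vf` given the labels;
* cells `Yv` of the base which determine `Vf`, and are triangular given the label and the natural
  digits (`hcnt`);
* the height `N` in absolute units: up to the units `2 ^ G n`, the height over the label is the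
  height, given `Vf` and the label (`hN`);
* the rates of the rows of the height given `Vf`.

The coordinates of `D` need not be the coordinates of the space.
-/

set_option autoImplicit false

namespace Pool.STAT.Cnr

open Finset MvPolynomial
open Pool.Agent.H49.Ent Pool.Agent.H32.Dense Pool.STK Pool.KS3

variable {D : NDat} {n J z M U v y : ℕ} {d : ℕ → ℕ} {q : D.Ω → ℝ}

/-- Fewer digits are a function of more digits. -/
theorem fl_coarse {x x' : ℝ} {P Q : ℕ} (h : P ≤ Q) (e : ⌊(2 : ℝ) ^ Q * x⌋ = ⌊(2 : ℝ) ^ Q * x'⌋) :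
    ⌊(2 : ℝ) ^ P * x⌋ = ⌊(2 : ℝ) ^ P * x'⌋ := by
  have e1 : ∀ x : ℝ, ⌊(2 : ℝ) ^ P * x⌋ = ⌊(2 : ℝ) ^ Q * x⌋ / 2 ^ (Q - P) := by
    intro x
    have e2 : (2 : ℝ) ^ P * x = (2 ^ Q * x) / ((2 ^ (Q - P) : ℕ) : ℝ) := by
      have e3 : (2 : ℝ) ^ Q = 2 ^ P * 2 ^ (Q - P) := by
        rw [← pow_add]
        congr 1
        omega
      rw [e3]
      push_cast
      field_simp
    rw [e2, Int.floor_div_natCast]
    push_cast
    rfl
  rw [e1, e1, e]

/-- **(count)** -/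
theorem count_abs (hq : IsLaw q) {L : ℝ} (hL : 0 ≤ L) {G : ℕ → ℕ}
    (hJ : ∀ i < n, G i + D.g v i + U * z ≤ J) {Yv : D.Ω → Fin n → ℤ}
    (hcnt : ∀ ω ω', 0 < q ω → 0 < q ω' → D.c v ω = D.c v ω' →
      (D.bd z U v ω : Fin n → ℤ) = D.bd z U v ω' → ∀ i : Fin n, (∀ j < i, Yv ω j = Yv ω' j) →
      |((Yv ω i - Yv ω' i : ℤ) : ℝ)| ≤ (L + 2) * 2 ^ (J - (G i + D.g v i + U * z)))
    {S : Type} (Vf : D.Ω → S) (hVf : Det q (fun ω => (Yv ω, D.c v ω)) Vf) :
    CH q Vf (fun ω => (D.c v ω, (D.bd z U v ω : Fin n → ℤ))) ≤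
      (∑ i ∈ range n, ((J : ℝ) - G i - (D.g v i + U * z))) * Real.log 2 +
        n * Real.log (5 + 2 * L) := by
  have h0 : CH q Vf (fun ω => (D.c v ω, (D.bd z U v ω : Fin n → ℤ))) ≤
      CH q Yv (fun ω => (D.c v ω, (D.bd z U v ω : Fin n → ℤ))) := by
    have h1 := CH_le_add hq.nonneg Vf Yv (fun ω => (D.c v ω, (D.bd z U v ω : Fin n → ℤ)))
    have h2 : CH q Vf (fun ω => (Yv ω, (D.c v ω, (D.bd z U v ω : Fin n → ℤ)))) = 0 :=
      CH_eq_zero hq.nonneg fun ω ω' h h' e => by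
        simp only [Prod.mk.injEq] at e
        exact hVf ω ω' h h' (Prod.ext e.1 e.2.1)
    linarith
  have h2 := Ful.ch_vec hq Yv (fun ω => (D.c v ω, (D.bd z U v ω : Fin n → ℤ)))
    (fun i => (L + 2) * 2 ^ (J - (G i + D.g v i + U * z))) (fun i ω ω' h h' e hj => by
      simp only [Prod.mk.injEq] at e
      exact hcnt ω ω' h h' e.1 e.2 i hj)
  have h3 : ∑ i ∈ range n,
      Real.log (2 * ((L + 2) * 2 ^ (J - (G i + D.g v i + U * z))) + 1) ≤
      ∑ i ∈ range n, (((J : ℝ) - G i - (D.g v i + U * z)) * Real.log 2 +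
        Real.log (5 + 2 * L)) := by
    refine Finset.sum_le_sum fun i hi => ?_
    have hi' := hJ i (mem_range.1 hi)
    have h4 : (1 : ℝ) ≤ 2 ^ (J - (G i + D.g v i + U * z)) := one_le_pow₀ (by norm_num)
    have h5 : 2 * ((L + 2) * (2 : ℝ) ^ (J - (G i + D.g v i + U * z))) + 1 ≤
        2 ^ (J - (G i + D.g v i + U * z)) * (5 + 2 * L) := by nlinarith
    refine (Real.log_le_log (by positivity) h5).trans (le_of_eq ?_)
    rw [Real.log_mul (by positivity) (by positivity), Real.log_pow, Nat.cast_sub hi']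
    push_cast
    ring
  rw [Finset.sum_add_distrib, ← Finset.sum_mul, Finset.sum_const, Finset.card_range,
    nsmul_eq_mul] at h3
  linarith

/-- **(rate)** -/
theorem rate_abs (hq : IsLaw q) {L C₁ a er : ℝ} (hL : 0 ≤ L) (hC₁ : 0 ≤ C₁) (he : 0 ≤ er)
    (ha : a ≤ 1) (ha0 : 0 ≤ a) {G : ℕ}
    (hhom : |(D.g v n : ℝ) - d n * (v * z)| ≤ C₁ * z)
    (hhgt : ∀ ω, 0 < q ω → |D.rh v ω n| ≤ 1 / 2 ^ D.g v n) (hy : C₁ * z + U * z ≤ y)
    {N : D.Ω → ℝ} {S : Type} {Vf : D.Ω → S}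
    (hN : ∀ ω ω', 0 < q ω → 0 < q ω' → D.c v ω = D.c v ω' → Vf ω = Vf ω' →
      |(D.rh v ω n - D.rh v ω' n) - 2 ^ G * (N ω - N ω')| ≤ L / 2 ^ (D.g v n + y))
    (hrate : ∀ Q : ℕ, G + D.g v n ≤ Q → Q ≤ G + D.g v n + y →
      CH q (fun ω => ⌊(2 : ℝ) ^ Q * N ω⌋)
        (fun ω => (⌊(2 : ℝ) ^ (G + D.g v n) * N ω⌋, Vf ω)) ≤
        (1 - a) * (((Q : ℝ) - (G + D.g v n : ℕ)) * Real.log 2) + er)
    {P : ℕ} (hP : P ≤ U * z) :
    CH q (fun ω => ⌊(2 : ℝ) ^ P * D.pN d z v n ω⌋)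
      (fun ω => (Vf ω, (D.c v ω, (D.bd z U v ω : Fin n → ℤ)))) ≤
      (1 - a) * (P * Real.log 2) + (C₁ * z + er + 2 * Real.log (7 + 2 * L)) := by
  have l2 : 0 < Real.log 2 := Real.log_pos (by norm_num)
  have l2' : Real.log 2 ≤ 1 := by linarith [Real.log_two_lt_d9]
  have n0 := hq.nonneg
  set Qa : ℕ := P + d n * (v * z) with hQa
  have hh := abs_le.1 hhom
  have hPr : (P : ℝ) ≤ U * z := by exact_mod_cast hP
  have hQr : (Qa : ℝ) = P + d n * (v * z) := by rw [hQa]; push_cast; ring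
  have hQ1 : (Qa : ℝ) ≤ D.g v n + y := by
    rw [hQr]
    linarith [hh.1]
  have hQ2 : Qa ≤ D.g v n + y := by exact_mod_cast hQ1
  -- the digits over the label
  have a1 : CH q (fun ω => ⌊(2 : ℝ) ^ P * D.pN d z v n ω⌋)
      (fun ω => (Vf ω, (D.c v ω, (D.bd z U v ω : Fin n → ℤ)))) ≤
      CH q (fun ω => ⌊(2 : ℝ) ^ Qa * D.rh v ω n⌋) (fun ω => (Vf ω, D.c v ω)) := by
    have e1 : (fun ω => ⌊(2 : ℝ) ^ P * D.pN d z v n ω⌋) =
        fun ω => ⌊(2 : ℝ) ^ Qa * D.rh v ω n⌋ := by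
      funext ω
      unfold NDat.pN
      rw [hQa, pow_add, mul_assoc]
    rw [e1]
    refine CH_mono_cond n0 fun ω ω' _ _ e => ?_
    simp only [Prod.mk.injEq] at e ⊢
    exact ⟨e.1, e.2.1⟩
  -- blocks
  have a2 := CH_le_add n0 (fun ω => ⌊(2 : ℝ) ^ Qa * D.rh v ω n⌋)
    (fun ω => ⌊(2 : ℝ) ^ (G + Qa) * N ω⌋) (fun ω => (Vf ω, D.c v ω))
  have a3 : CH q (fun ω => ⌊(2 : ℝ) ^ Qa * D.rh v ω n⌋)
      (fun ω => (⌊(2 : ℝ) ^ (G + Qa) * N ω⌋, (Vf ω, D.c v ω))) ≤ Real.log (7 + 2 * L) := by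
    have h := CH_le_int n0 hq.sum_one (fun ω => ⌊(2 : ℝ) ^ Qa * D.rh v ω n⌋)
      (fun ω => (⌊(2 : ℝ) ^ (G + Qa) * N ω⌋, (Vf ω, D.c v ω))) (fun _ => L + 2)
      (fun ω ω' h h' e => by
        simp only [Prod.mk.injEq] at e
        have h1 := hN ω ω' h h' e.2.2 e.2.1
        have h2 := Ful.fl_eq e.1
        have h3 : (2 : ℝ) ^ Qa * (L / 2 ^ (D.g v n + y)) ≤ L := by
          have h4 : (2 : ℝ) ^ Qa ≤ 2 ^ (D.g v n + y) := pow_le_pow_right₀ (by norm_num) hQ2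
          calc (2 : ℝ) ^ Qa * (L / 2 ^ (D.g v n + y)) ≤
              2 ^ (D.g v n + y) * (L / 2 ^ (D.g v n + y)) :=
                mul_le_mul_of_nonneg_right h4 (by positivity)
            _ = L := by field_simp
        have h4 : (2 : ℝ) ^ Qa * D.rh v ω n - 2 ^ Qa * D.rh v ω' n =
            2 ^ Qa * ((D.rh v ω n - D.rh v ω' n) - 2 ^ G * (N ω - N ω')) +
              (2 ^ (G + Qa) * N ω - 2 ^ (G + Qa) * N ω') := by
          rw [pow_add]
          ring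
        have h5 : |(2 : ℝ) ^ Qa * D.rh v ω n - 2 ^ Qa * D.rh v ω' n| ≤ L + 1 := by
          rw [h4]
          refine (abs_add_le _ _).trans ?_
          rw [abs_mul, abs_of_pos (show (0 : ℝ) < 2 ^ Qa by positivity)]
          have h6 := mul_le_mul_of_nonneg_left h1 (show (0 : ℝ) ≤ 2 ^ Qa by positivity)
          linarith
        have h6 := Ful.fl_le h5
        linarith)
    rw [Ex_const hq.sum_one] at h
    refine h.trans (Real.log_le_log (by positivity) (by linarith))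
  have a4 := CH_le_add n0 (fun ω => ⌊(2 : ℝ) ^ (G + Qa) * N ω⌋)
    (fun ω => ⌊(2 : ℝ) ^ (G + D.g v n) * N ω⌋) (fun ω => (Vf ω, D.c v ω))
  have a5 : CH q (fun ω => ⌊(2 : ℝ) ^ (G + D.g v n) * N ω⌋) (fun ω => (Vf ω, D.c v ω)) ≤
      Real.log (7 + 2 * L) := by
    have h := CH_le_int n0 hq.sum_one (fun ω => ⌊(2 : ℝ) ^ (G + D.g v n) * N ω⌋)
      (fun ω => (Vf ω, D.c v ω)) (fun _ => L + 3)
      (fun ω ω' h h' e => by
        simp only [Prod.mk.injEq] at e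
        have h1 := hN ω ω' h h' e.2 e.1
        have hp : (0 : ℝ) < 2 ^ D.g v n := by positivity
        have h3 : (2 : ℝ) ^ D.g v n * (L / 2 ^ (D.g v n + y)) ≤ L := by
          have h4 : (2 : ℝ) ^ D.g v n ≤ 2 ^ (D.g v n + y) :=
            pow_le_pow_right₀ (by norm_num) (Nat.le_add_right _ _)
          calc (2 : ℝ) ^ D.g v n * (L / 2 ^ (D.g v n + y)) ≤
              2 ^ (D.g v n + y) * (L / 2 ^ (D.g v n + y)) :=
                mul_le_mul_of_nonneg_right h4 (by positivity)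
            _ = L := by field_simp
        have h4 : (2 : ℝ) ^ (G + D.g v n) * N ω - 2 ^ (G + D.g v n) * N ω' =
            (2 ^ D.g v n * D.rh v ω n - 2 ^ D.g v n * D.rh v ω' n) -
              2 ^ D.g v n * ((D.rh v ω n - D.rh v ω' n) - 2 ^ G * (N ω - N ω')) := by
          rw [pow_add]
          ring
        have h7 : ∀ ω, 0 < q ω → |(2 : ℝ) ^ D.g v n * D.rh v ω n| ≤ 1 := by
          intro ω hω
          rw [abs_mul, abs_of_pos hp]
          calc (2 : ℝ) ^ D.g v n * |D.rh v ω n| ≤ 2 ^ D.g v n * (1 / 2 ^ D.g v n) :=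
                mul_le_mul_of_nonneg_left (hhgt ω hω) hp.le
            _ = 1 := by field_simp
        have h5 : |(2 : ℝ) ^ (G + D.g v n) * N ω - 2 ^ (G + D.g v n) * N ω'| ≤ L + 2 := by
          rw [h4]
          refine (abs_sub _ _).trans ?_
          rw [abs_mul _ ((D.rh v ω n - D.rh v ω' n) - 2 ^ G * (N ω - N ω')), abs_of_pos hp]
          have h6 := mul_le_mul_of_nonneg_left h1 hp.le
          have h8 := (abs_sub (2 ^ D.g v n * D.rh v ω n) (2 ^ D.g v n * D.rh v ω' n)).trans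
            (add_le_add (h7 ω h) (h7 ω' h'))
          linarith
        have h6 := Ful.fl_le h5
        linarith)
    rw [Ex_const hq.sum_one] at h
    refine h.trans (Real.log_le_log (by positivity) (by linarith))
  have a6 : CH q (fun ω => ⌊(2 : ℝ) ^ (G + Qa) * N ω⌋)
      (fun ω => (⌊(2 : ℝ) ^ (G + D.g v n) * N ω⌋, (Vf ω, D.c v ω))) ≤
      (1 - a) * (P * Real.log 2) + (C₁ * z + er) := by
    have hP0 : 0 ≤ (1 - a) * (P * Real.log 2) :=
      mul_nonneg (by linarith) (mul_nonneg (Nat.cast_nonneg P) l2.le)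
    have hCz : 0 ≤ C₁ * z := mul_nonneg hC₁ (Nat.cast_nonneg z)
    rcases le_total (D.g v n) Qa with h | h
    · have h5 := hrate (G + Qa) (Nat.add_le_add_left h G) (by omega)
      have h6 : CH q (fun ω => ⌊(2 : ℝ) ^ (G + Qa) * N ω⌋)
          (fun ω => (⌊(2 : ℝ) ^ (G + D.g v n) * N ω⌋, (Vf ω, D.c v ω))) ≤
          CH q (fun ω => ⌊(2 : ℝ) ^ (G + Qa) * N ω⌋)
          (fun ω => (⌊(2 : ℝ) ^ (G + D.g v n) * N ω⌋, Vf ω)) :=
        CH_mono_cond n0 fun ω ω' _ _ e => by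
          simp only [Prod.mk.injEq] at e ⊢
          exact ⟨e.1, e.2.1⟩
      have h7 : ((G + Qa : ℕ) : ℝ) - (G + D.g v n : ℕ) ≤ P + C₁ * z := by
        push_cast
        rw [hQr]
        linarith [hh.1]
      have h8 : (1 - a) * ((((G + Qa : ℕ) : ℝ) - (G + D.g v n : ℕ)) * Real.log 2) ≤
          (1 - a) * (P * Real.log 2) + C₁ * z := by
        have h9 : (((G + Qa : ℕ) : ℝ) - (G + D.g v n : ℕ)) * Real.log 2 ≤
            P * Real.log 2 + C₁ * z := by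
          have h10 := mul_le_mul_of_nonneg_right h7 l2.le
          have h11 : C₁ * z * Real.log 2 ≤ C₁ * z * 1 :=
            mul_le_mul_of_nonneg_left l2' hCz
          linarith
        have h12 := mul_le_mul_of_nonneg_left h9 (show 0 ≤ 1 - a by linarith)
        have h13 : (1 - a) * (C₁ * z) ≤ 1 * (C₁ * z) :=
          mul_le_mul_of_nonneg_right (by linarith) hCz
        linarith
      linarith
    · have h6 : CH q (fun ω => ⌊(2 : ℝ) ^ (G + Qa) * N ω⌋)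
          (fun ω => (⌊(2 : ℝ) ^ (G + D.g v n) * N ω⌋, (Vf ω, D.c v ω))) = 0 :=
        CH_eq_zero n0 fun ω ω' _ _ e => by
          simp only [Prod.mk.injEq] at e
          exact fl_coarse (Nat.add_le_add_left h G) e.1
      linarith
  linarith

/-- **The inputs of a row, abstract form.** -/
theorem row_abs (hq : IsLaw q) {L C₁ C a er ε : ℝ} (hL : 0 ≤ L) (hC₁ : 0 ≤ C₁) (he : 0 ≤ er)
    (ha : a ≤ 1) (ha0 : 0 ≤ a) {G : ℕ → ℕ} (hJ : ∀ i < n, G i + D.g v i + U * z ≤ J)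
    (hhom : |(D.g v n : ℝ) - d n * (v * z)| ≤ C₁ * z)
    (hhgt : ∀ ω, 0 < q ω → |D.rh v ω n| ≤ 1 / 2 ^ D.g v n) (hy : C₁ * z + U * z ≤ y)
    {Yv : D.Ω → Fin n → ℤ} {N : D.Ω → ℝ} {S : Type} {Vf : D.Ω → S}
    (hVf : Det q (fun ω => (Yv ω, D.c v ω)) Vf)
    (hcnt : ∀ ω ω', 0 < q ω → 0 < q ω' → D.c v ω = D.c v ω' →
      (D.bd z U v ω : Fin n → ℤ) = D.bd z U v ω' → ∀ i : Fin n, (∀ j < i, Yv ω j = Yv ω' j) →
      |((Yv ω i - Yv ω' i : ℤ) : ℝ)| ≤ (L + 2) * 2 ^ (J - (G i + D.g v i + U * z)))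
    (hN : ∀ ω ω', 0 < q ω → 0 < q ω' → D.c v ω = D.c v ω' → Vf ω = Vf ω' →
      |(D.rh v ω n - D.rh v ω' n) - 2 ^ G n * (N ω - N ω')| ≤ L / 2 ^ (D.g v n + y))
    (hex : ∀ v', v ≤ v' → v' ≤ v + U → v' ≤ M →
      (∑ i ∈ range n, ((J : ℝ) - G i - D.g v' i)) * Real.log 2 - ε ≤ CH q Vf (D.c v'))
    (hrate : ∀ Q : ℕ, G n + D.g v n ≤ Q → Q ≤ G n + D.g v n + y →
      CH q (fun ω => ⌊(2 : ℝ) ^ Q * N ω⌋)
        (fun ω => (⌊(2 : ℝ) ^ (G n + D.g v n) * N ω⌋, Vf ω)) ≤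
        (1 - a) * (((Q : ℝ) - (G n + D.g v n : ℕ)) * Real.log 2) + er)
    (hCε : ε ≤ C * z) (hCn : n * Real.log (5 + 2 * L) ≤ C * z)
    (hCe : C₁ * z + er + 2 * Real.log (7 + 2 * L) ≤ C * z) :
    D.Row n z M U d a C Vf ((∑ i ∈ range n, ((J : ℝ) - G i)) * Real.log 2) v q := by
  refine ⟨fun v' h1 h2 h3 => ?_, ?_, fun P hP => ?_⟩
  · have h4 := hex v' h1 h2 h3
    have h5 : (∑ i ∈ range n, ((J : ℝ) - G i)) * Real.log 2 -
        ∑ i ∈ range n, (D.g v' i : ℝ) * Real.log 2 =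
        (∑ i ∈ range n, ((J : ℝ) - G i - D.g v' i)) * Real.log 2 := by
      rw [← Finset.sum_mul, ← sub_mul, ← Finset.sum_sub_distrib]
    rw [h5]
    linarith
  · have h4 := count_abs hq hL hJ hcnt Vf hVf
    have h5 : (∑ i ∈ range n, ((J : ℝ) - G i)) * Real.log 2 -
        ∑ i ∈ range n, ((D.g v i : ℝ) + U * z) * Real.log 2 =
        (∑ i ∈ range n, ((J : ℝ) - G i - (D.g v i + U * z))) * Real.log 2 := by
      rw [← Finset.sum_mul, ← sub_mul, ← Finset.sum_sub_distrib]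
    rw [h5]
    linarith
  · have h4 := rate_abs (d := d) hq hL hC₁ he ha ha0 hhom hhgt hy hN hrate hP
    linarith

end Pool.STAT.Cnr
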