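import Pool.Agent.H77.STAT.RowA

/-!
# The inputs of a row (row N2) for the system in the units of the window

`row_of`: the structure `NDat.Row` of `D.nrmd` from statements in absolute units: exactness of the
base given the labels, the variation of the label polynomials in the cells, and the rates of the
rows of the height given the whole base.
-/

set_option autoImplicit false

namespace Pool.STAT.Cnr

open Finset MvPolynomial
open Pool.Agent.H49.Ent Pool.Agent.H32.Dense Pool.STK Pool.KS3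

variable {D : NDat} {n K J w₀ z M U v y : ℕ} {d : ℕ → ℕ} {σ : ℕ → ℝ} {κ C₁ : ℝ} {q : D.Ω → ℝ}

/-- The cells of the base positions. -/
noncomputable def cel (D : NDat) (n J : ℕ) (ω : D.Ω) (i : Fin n) : ℤ := ⌊(2 : ℝ) ^ J * D.X ω i⌋

/-- The natural digits of the base. -/
noncomputable def bdg (D : NDat) (n y v : ℕ) (ω : D.Ω) (i : Fin n) : ℤ :=
  ⌊(2 : ℝ) ^ y * D.pT v ω i⌋

/-- The labels determine the window and the label of level `0`. -/
theorem det_nrmd (hOk : D.Ok0 n K J w₀ z M σ κ C₁ q) (φ : D.Λ → D.Γ) (ψ : D.Λ → ℕ) {k : ℕ}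
    (hk : k ≤ M) : Det q (D.c k) ((D.nrmd n J w₀ φ ψ).c k) := by
  have h1 : ∀ k ≤ M, Det q (D.c k) (D.c 0) := by
    intro k
    induction k with
    | zero =>
      intro _ ω ω' _ _ e
      exact e
    | succ k ih =>
      intro hk ω ω' h h' e
      exact ih (by omega) ω ω' h h' (hOk.c_c k (by omega) ω ω' h h' e)
  intro ω ω' h h' e
  have h2 := h1 k hk ω ω' h h' e
  have h3 : D.wd J w₀ ω = D.wd J w₀ ω' := by
    have h4 := hOk.c_T 0 (Nat.zero_le _) ω ω' h h' h2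
    simpa [NDat.wd] using h4
  show (D.c k ω, D.c 0 ω, D.wd J w₀ ω) = (D.c k ω', D.c 0 ω', D.wd J w₀ ω')
  rw [e, h2, h3]

/-- The natural digits of the base are the same. -/
theorem bd_nrmd (hOk : D.Ok0 n K J w₀ z M σ κ C₁ q) {φ : D.Λ → D.Γ} {ψ : D.Λ → ℕ}
    (hv : v ≤ M)
    (hrh : ∀ ω, ∀ i ≤ n, 0 < q ω →
      (D.nrmd n J w₀ φ ψ).rh v ω i = (2 : ℝ) ^ D.g 0 i * D.rh v ω i)
    {ω : D.Ω} (hω : 0 < q ω) :
    (((D.nrmd n J w₀ φ ψ).bd z U v ω : Fin n → ℤ)) = bdg D n (U * z) v ω := by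
  funext i
  show ⌊(2 : ℝ) ^ (U * z) * ((2 : ℝ) ^ (D.g v i - D.g 0 i) *
    (D.nrmd n J w₀ φ ψ).rh v ω i)⌋ = ⌊(2 : ℝ) ^ (U * z) * D.pT v ω i⌋
  rw [hrh ω i i.2.le hω]
  have h1 := hOk.g_ge v hv i
  have h2 : (2 : ℝ) ^ (D.g v i - D.g 0 i) * ((2 : ℝ) ^ D.g 0 i * D.rh v ω i) =
      D.pT v ω i := by
    unfold NDat.pT
    rw [← mul_assoc, ← pow_add, Nat.sub_add_cancel h1]
  rw [h2]

/-- **The inputs of a row.** -/
theorem row_of (hOk : D.Ok0 n K J w₀ z M σ κ C₁ q) {φ : D.Λ → D.Γ} {ψ : D.Λ → ℕ}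
    (hvM : v ≤ M)
    (hrh : ∀ ω, ∀ i ≤ n, 0 < q ω →
      (D.nrmd n J w₀ φ ψ).rh v ω i = (2 : ℝ) ^ D.g 0 i * D.rh v ω i)
    (hσ : σ n = d n) {a L e ε C : ℝ} (hL : 0 ≤ L) (he : 0 ≤ e) (ha : a ≤ 1) (ha0 : 0 ≤ a)
    (hC₁ : 0 ≤ C₁) (hy : C₁ * z + U * z ≤ y)
    (hlip : ∀ ω ω', 0 < q ω → 0 < q ω' → D.c v ω = D.c v ω' → ∀ i ≤ n,
      (∀ j < i, ⌊(2 : ℝ) ^ J * D.X ω j⌋ = ⌊(2 : ℝ) ^ J * D.X ω' j⌋) →
      |eval (D.X ω) (D.P v (D.c v ω) i) - eval (D.X ω') (D.P v (D.c v ω) i)| ≤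
        L / 2 ^ (D.g v i + y))
    (hJ : ∀ i < n, D.g v i + U * z ≤ J)
    {𝒱 : Type} (Vf : D.Ω → 𝒱) (hV1 : Det q (fun ω => (cel D n J ω, D.c v ω)) Vf)
    (hV2 : Det q Vf (cel D n J))
    (hex : ∀ v', v ≤ v' → v' ≤ v + U → v' ≤ M →
      (∑ i ∈ range n, ((J : ℝ) - D.g v' i)) * Real.log 2 - ε ≤ CH q Vf (D.c v'))
    (hrate : ∀ Q : ℕ, D.g v n ≤ Q → Q ≤ D.g v n + y →
      CH q (fun ω => ⌊(2 : ℝ) ^ Q * D.X ω n⌋)
        (fun ω => (⌊(2 : ℝ) ^ D.g v n * D.X ω n⌋, Vf ω)) ≤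
        (1 - a) * (((Q : ℝ) - D.g v n) * Real.log 2) + e)
    (hCε : ε ≤ C * z) (hCn : n * Real.log (5 + 2 * L) ≤ C * z)
    (hCe : C₁ * z + e + 2 * Real.log (7 + 2 * L) ≤ C * z) :
    (D.nrmd n J w₀ φ ψ).Row n z M U d a C Vf
      ((∑ i ∈ range n, ((J : ℝ) - D.g 0 i)) * Real.log 2) v q := by
  have hq := hOk.isLaw
  have hgc : ∀ k ≤ M, ∀ i, (D.nrmd n J w₀ φ ψ).g k i + D.g 0 i = D.g k i :=
    fun k hk i => Nat.sub_add_cancel (hOk.g_ge k hk i)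
  have hgn : D.g 0 n + (D.nrmd n J w₀ φ ψ).g v n = D.g v n := by
    rw [add_comm]
    exact hgc v hvM n
  have hUy : U * z ≤ y := by
    have h1 : 0 ≤ C₁ * (z : ℝ) := by positivity
    have h2 : ((U * z : ℕ) : ℝ) ≤ y := by push_cast; linarith
    exact_mod_cast h2
  refine row_abs (D := D.nrmd n J w₀ φ ψ) (G := D.g 0) (Yv := cel D n J)
    (N := fun ω => D.X ω n) (y := y) (ε := ε) hq hL hC₁ he ha ha0 ?_ ?_ ?_ hy ?_ ?_ ?_ ?_ ?_
    hCε hCn hCe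
  · intro i hi
    have h1 := hJ i hi
    have h2 := hgc v hvM i
    omega
  · have h1 := hOk.hom v hvM n le_rfl
    rw [hσ] at h1
    have h2 : (((D.nrmd n J w₀ φ ψ).g v n : ℕ) : ℝ) = (D.g v n : ℝ) - D.g 0 n := by
      have := hgc v hvM n
      rw [← this]
      push_cast
      ring
    rw [h2]
    exact h1
  · intro ω hω
    rw [hrh ω n le_rfl hω, abs_mul, abs_of_pos (by positivity)]
    have h1 := hOk.hgt v hvM ω hω n le_rfl
    calc (2 : ℝ) ^ D.g 0 n * |D.rh v ω n| ≤ 2 ^ D.g 0 n * (1 / 2 ^ D.g v n) :=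
          mul_le_mul_of_nonneg_left h1 (by positivity)
      _ = 1 / 2 ^ (D.nrmd n J w₀ φ ψ).g v n := by
          rw [← hgn, pow_add]
          field_simp
  · intro ω ω' h h' e
    refine hV1 ω ω' h h' ?_
    have e1 := Prod.ext_iff.mp e
    have e2 : (D.c v ω, D.c 0 ω, D.wd J w₀ ω) = (D.c v ω', D.c 0 ω', D.wd J w₀ ω') := e1.2
    exact Prod.ext e1.1 (Prod.ext_iff.mp e2).1
  · intro ω ω' h h' e eb i hj
    have e2 : D.c v ω = D.c v ω' := by
      have e3 : (D.c v ω, D.c 0 ω, D.wd J w₀ ω) = (D.c v ω', D.c 0 ω', D.wd J w₀ ω') := e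
      exact (Prod.ext_iff.mp e3).1
    rw [bd_nrmd hOk hvM hrh h, bd_nrmd hOk hvM hrh h'] at eb
    have hgi := hgc v hvM i
    have hexp : J - (D.g 0 i + (D.nrmd n J w₀ φ ψ).g v i + U * z) = J - (D.g v i + U * z) := by
      congr 1
      omega
    rw [hexp]
    have h3 : |D.rh v ω i - D.rh v ω' i| ≤ 1 / 2 ^ (D.g v i + U * z) := by
      have h4 := Ful.fl_eq (congrFun eb i)
      unfold NDat.pT at h4
      rw [← mul_assoc, ← mul_assoc, ← mul_sub, ← pow_add, add_comm (U * z), abs_mul,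
        abs_of_pos (by positivity)] at h4
      rw [le_div_iff₀' (by positivity)]
      exact h4
    have h4 := hlip ω ω' h h' e2 i i.2.le (fun j hji => hj ⟨j, by omega⟩ hji)
    have h4' : L / (2 : ℝ) ^ (D.g v i + y) ≤ L / 2 ^ (D.g v i + U * z) :=
      div_le_div_of_nonneg_left hL (by positivity)
        (pow_le_pow_right₀ (by norm_num) (Nat.add_le_add_left hUy _))
    have h5 : D.X ω i - D.X ω' i = (D.rh v ω i - D.rh v ω' i) +
        (eval (D.X ω) (D.P v (D.c v ω) i) - eval (D.X ω') (D.P v (D.c v ω) i)) := by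
      unfold NDat.rh
      rw [e2]
      ring
    have h6 : |(2 : ℝ) ^ J * D.X ω i - 2 ^ J * D.X ω' i| ≤
        (L + 1) * 2 ^ (J - (D.g v i + U * z)) := by
      rw [← mul_sub, abs_mul, abs_of_pos (by positivity : (0 : ℝ) < 2 ^ J), h5]
      have h7 : (2 : ℝ) ^ J * (1 / 2 ^ (D.g v i + U * z)) = 2 ^ (J - (D.g v i + U * z)) := by
        rw [mul_one_div, div_eq_iff (by positivity), ← pow_add]
        congr 1
        have := hJ i i.2
        omega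
      calc (2 : ℝ) ^ J * |_| ≤ 2 ^ J * (1 / 2 ^ (D.g v i + U * z) +
            L / 2 ^ (D.g v i + U * z)) :=
            mul_le_mul_of_nonneg_left ((abs_add_le _ _).trans (add_le_add h3 (h4.trans h4')))
              (by positivity)
        _ = (L + 1) * (2 ^ J * (1 / 2 ^ (D.g v i + U * z))) := by ring
        _ = _ := by rw [h7]
    have h8 := Ful.fl_le h6
    have h9 : (1 : ℝ) ≤ 2 ^ (J - (D.g v i + U * z)) := one_le_pow₀ (by norm_num)
    refine h8.trans ?_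
    linarith
  · intro ω ω' h h' e e2
    have e2' : D.c v ω = D.c v ω' := by
      have e3 : (D.c v ω, D.c 0 ω, D.wd J w₀ ω) = (D.c v ω', D.c 0 ω', D.wd J w₀ ω') := e
      exact (Prod.ext_iff.mp e3).1
    have h5 := hV2 ω ω' h h' e2
    have h4 := hlip ω ω' h h' e2' n le_rfl (fun j hj => congrFun h5 ⟨j, hj⟩)
    rw [hrh ω n le_rfl h, hrh ω' n le_rfl h']
    have h6 : (2 : ℝ) ^ D.g 0 n * D.rh v ω n - 2 ^ D.g 0 n * D.rh v ω' n -
        2 ^ D.g 0 n * (D.X ω n - D.X ω' n) = -(2 ^ D.g 0 n *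
          (eval (D.X ω) (D.P v (D.c v ω) n) - eval (D.X ω') (D.P v (D.c v ω) n))) := by
      unfold NDat.rh
      rw [e2']
      ring
    rw [h6, abs_neg, abs_mul, abs_of_pos (by positivity)]
    calc (2 : ℝ) ^ D.g 0 n * |_| ≤ 2 ^ D.g 0 n * (L / 2 ^ (D.g v n + y)) :=
          mul_le_mul_of_nonneg_left h4 (by positivity)
      _ = L / 2 ^ ((D.nrmd n J w₀ φ ψ).g v n + y) := by
          rw [← hgn, add_assoc, pow_add (2 : ℝ) (D.g 0 n)]
          field_simp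
  · intro v' h1 h2 h3
    have h4 := hex v' h1 h2 h3
    have h5 : CH q Vf (D.c v') ≤ CH q Vf ((D.nrmd n J w₀ φ ψ).c v') :=
      CH_mono_cond hq.nonneg (det_nrmd hOk φ ψ h3)
    have h6 : ∑ i ∈ range n, ((J : ℝ) - D.g 0 i - (D.nrmd n J w₀ φ ψ).g v' i) =
        ∑ i ∈ range n, ((J : ℝ) - D.g v' i) := by
      refine Finset.sum_congr rfl fun i _ => ?_
      have := hgc v' h3 i
      rw [← this]
      push_cast
      ring
    rw [h6]
    exact h4.trans h5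
  · intro Q hQ1 hQ2
    rw [hgn] at hQ1 hQ2 ⊢
    exact hrate Q hQ1 hQ2

end Pool.STAT.Cnr
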