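import Pool.Agent.H77.STAT.FamB
import Pool.Agent.H60.GEN.MicT

/-!
# The selection at a row, with one order

`CellD.selO`: as helper60's `CellD.sel`, with one order `o` for all scales, the density of the
windows of this order, the derivatives of the diagonals, and a bound for the backward slopes of the
diagonals of all the families. `CellD.ful`: if there are no cells and there is a strategy against
the wide cells of the selected families, then almost all rows are full.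
-/

set_option autoImplicit false

namespace Pool.STR

open MeasureTheory Set Filter Topology Pool.LEV

/-- Windows of a set with density one. -/
theorem win_near {W : Set ℝ} {g : ℝ}
    (hW : Tendsto (fun r => volume (W ∩ Metric.closedBall g r) / volume (Metric.closedBall g r))
      (𝓝[>] 0) (𝓝 1)) : ∃ ρ₀ : ℝ, 0 < ρ₀ ∧ ∀ v : ℝ, 0 < v → v < ρ₀ →
      ∃ g' ∈ W, g - 2 * v < g' ∧ g' < g - v := by
  have h1 : ∀ᶠ r in 𝓝[>] (0 : ℝ), ENNReal.ofReal (7 / 8) <
      volume (W ∩ Metric.closedBall g r) / volume (Metric.closedBall g r) := by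
    refine hW.eventually_const_lt ?_
    rw [ENNReal.ofReal_lt_one]
    norm_num
  obtain ⟨r₂, hr₂, h2⟩ := mem_nhdsGT_iff_exists_Ioo_subset.1 h1
  have hr₂' : (0 : ℝ) < r₂ := hr₂
  refine ⟨r₂ / 2, by linarith, fun v hv hv' => ?_⟩
  have h3 := h2 (show 2 * v ∈ Ioo 0 r₂ from ⟨by linarith, by linarith⟩)
  simp only [Set.mem_ofPred_eq, Real.volume_closedBall] at h3
  by_contra hcon
  push Not at hcon
  have h4 : W ∩ Metric.closedBall g (2 * v) ⊆
      Icc (g - 2 * v) (g - 2 * v) ∪ Icc (g - v) (g + 2 * v) := by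
    rintro y ⟨hy, hyb⟩
    rw [Metric.mem_closedBall, Real.dist_eq] at hyb
    have hyb' := abs_le.1 hyb
    rcases (show g - 2 * v ≤ y by linarith [hyb'.1]).eq_or_lt with h5 | h5
    · exact Or.inl ⟨h5.le, h5.ge⟩
    · exact Or.inr ⟨hcon y hy h5, by linarith [hyb'.2]⟩
  have h5 : volume (W ∩ Metric.closedBall g (2 * v)) ≤ ENNReal.ofReal (7 / 8 * (2 * (2 * v))) := by
    refine (measure_mono h4).trans ((measure_union_le _ _).trans ?_)
    rw [Real.volume_Icc, Real.volume_Icc, ← ENNReal.ofReal_add (by linarith) (by linarith)]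
    refine ENNReal.ofReal_le_ofReal ?_
    linarith
  have h7 : volume (W ∩ Metric.closedBall g (2 * v)) / ENNReal.ofReal (2 * (2 * v)) ≤
      ENNReal.ofReal (7 / 8) := by
    refine ENNReal.div_le_of_le_mul ?_
    rwa [← ENNReal.ofReal_mul (by norm_num)]
  exact absurd h3 (not_lt.2 h7)

/-- The derivative of a function which increases to the right. -/
theorem der_nn {f : ℝ → ℝ} {s g r₀ : ℝ} (hd : HasDerivAt f s g) (hr : 0 < r₀)
    (h : ∀ y : ℝ, g < y → y < g + r₀ → f g ≤ f y) : 0 ≤ s := by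
  have h2 : Tendsto (fun v : ℝ => v⁻¹ • (f (g + v) - f g)) (𝓝[>] 0) (𝓝 s) :=
    (hasDerivAt_iff_tendsto_slope_zero.1 hd).mono_left
      (nhdsWithin_mono _ fun x hx => ne_of_gt hx)
  refine ge_of_tendsto h2 ?_
  filter_upwards [Ioo_mem_nhdsGT hr] with v hv
  have h3 := h (g + v) (by linarith [hv.1]) (by linarith [hv.2])
  exact mul_nonneg (_root_.inv_nonneg.2 hv.1.le) (by linarith)

namespace CellD

variable {P : ℝ → ℝ → ℝ} {ρ : ℝ → ℝ} (E : CellD P ρ)

/-- **The selection** at almost every row, with one order `o`. `W' o` is any measurable set which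
contains almost all windows of the order `o`. -/
theorem selO (hP : Law P) (hP01 : ∀ a : ℝ, 0 ≤ a → a ≤ 1 → 0 ≤ P a a ∧ P a a ≤ 1)
    (hρ : LipschitzWith 1 ρ) (hPB0 : ∀ k a, 0 ≤ a → a ≤ 1 → 0 ≤ E.PB k a a)
    {W' : E.O → Set ℝ} (hW' : ∀ o, MeasurableSet (W' o))
    (hGW : ∀ o, ∀ᵐ g : ℝ, g ∈ E.G o → 0 < g → g < 1 → g ∈ W' o) : ∃ N' : Set ℝ, volume N' = 0 ∧
      ∀ᵐ Q : ℝ, RowD P ρ N'ᶜ Q → ∃ o, Lv P (Q, 0) ∈ E.G o ∧ Dns (W' o) (Lv P (Q, 0)) ∧
        DifferentiableAt ℝ (fun a => P a a) (Lv P (Q, 0)) ∧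
        (∀ j, DifferentiableAt ℝ (E.D o j) (Lv P (Q, 0))) ∧
        (∃ K₀ : ℝ, ∀ (x : E.α) (v : ℝ), 0 ≤ v → v ≤ Lv P (Q, 0) →
          E.PB (x, o) (Lv P (Q, 0)) (Lv P (Q, 0)) -
            E.PB (x, o) (Lv P (Q, 0) - v) (Lv P (Q, 0) - v) ≤ K₀ * v) ∧
        ∃ C c : ℝ, 0 ≤ C ∧ 0 < c ∧ ∀ e : ℝ, 0 < e →
        ∃ (k : ℝ → E.α) (V : ℝ → Fin E.m → ℝ),
          FamBox P (Lv P (Q, 0)) C (fun r => E.PB (k r, o)) (fun r => E.R (k r, o)) V ∧
          FamDg P (Lv P (Q, 0)) e (fun r => E.PB (k r, o)) ∧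
          ∃ r₀ : ℝ, 0 < r₀ ∧ ∀ r : ℝ, 0 < r → r < r₀ → E.Ad c (k r, o) Q (Lv P (Q, 0)) r ∧
            E.dfr (k r, o) (Lv P (Q, 0)) r ≤ e * r := by
  obtain ⟨α, O, J, cα, cO, fJ, m, PB, be, D, f, G, Ad', df, N, hPB, hle, hbe, hdia, hDm, hD0, hD1,
    hG, hPG, hN, hch⟩ := E
  simp only [CellD.Ad, CellD.dfr]
  classical
  obtain ⟨B, hB⟩ : ∃ B : α × O → ℝ → ℝ, B = fun k a => PB k (cl a) (cl a) := ⟨_, rfl⟩
  have hBm : ∀ k, Monotone (B k) := by
    intro k x y hxy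
    rw [hB]
    exact (hPB k).mono (cl_nonneg _) le_rfl (cl_mono hxy) (cl_mono hxy) le_rfl (cl_le_one _)
  obtain ⟨W, hW⟩ : ∃ W : O → Set ℝ, W = fun o =>
    {a | a ∈ G o ∧ 0 < a ∧ a < 1 ∧ ∀ x, ContinuousAt (B (x, o)) a} := ⟨_, rfl⟩
  have hWd : ∀ x o, ∀ a ∈ W o, P a a ≤ PB (x, o) a a := by
    intro x o a ha
    rw [hW] at ha
    obtain ⟨h1, h2, h3, h4⟩ := ha
    have h5 : Tendsto (B (x, o)) (𝓝[>] a) (𝓝 (B (x, o) a)) := (h4 x).tendsto.mono_left
      nhdsWithin_le_nhds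
    have h6 : ∀ᶠ y in 𝓝[>] a, P a a ≤ B (x, o) y := by
      filter_upwards [Ioo_mem_nhdsGT h3] with y hy
      rw [hB]
      simp only
      rw [cl_of_mem (by linarith [hy.1]) hy.2.le]
      exact hPG x o a h1 h2 h3 y hy.1 hy.2.le
    have h7 := ge_of_tendsto h5 h6
    rw [hB] at h7
    simp only at h7
    rwa [cl_of_mem h2.le h3.le] at h7
  -- the windows without exceptions
  have hDc : ∀ o j, Monotone fun a => D o j (cl a) := fun o j x y hxy =>
    hDm o j _ _ (cl_nonneg _) (cl_mono hxy) (cl_le_one _)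
  have hfa : ∀ᵐ g : ℝ, (0 < g → g < 1 →
      (∃ a', g < a' ∧ a' ≤ 1 ∧ ρ 1 - ρ (P a' a') < 1 - P a' a') → ∃ o, g ∈ G o) ∧
      (∀ o, g ∈ W o → Tendsto (fun r => volume (W o ∩ Metric.closedBall g r) /
        volume (Metric.closedBall g r)) (𝓝[>] 0) (𝓝 1)) ∧
      (∀ k, ContinuousAt (B k) g) ∧ (∀ p : O × J, 0 < g → g < 1 → DifferentiableAt ℝ (D p.1 p.2) g) ∧
      (0 < g → g < 1 → DifferentiableAt ℝ (fun a => P a a) g) ∧
      (∀ o, g ∈ G o → 0 < g → g < 1 → Dns (W' o) g) := by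
    have h1 := ae_all_iff.2 fun o : O =>
      ae_imp_of_ae_restrict (Besicovitch.ae_tendsto_measure_inter_div volume (W o))
    have h2 : ∀ᵐ g : ℝ, ∀ k, ContinuousAt (B k) g := ae_all_iff.2 fun k => by
      filter_upwards [(hBm k).ae_differentiableAt] with g hg
      exact hg.continuousAt
    have h3 : ∀ᵐ g : ℝ, ∀ p : O × J, 0 < g → g < 1 → DifferentiableAt ℝ (D p.1 p.2) g :=
      ae_all_iff.2 fun p => by
        filter_upwards [(hDc p.1 p.2).ae_differentiableAt] with g hg h0 h1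
        refine hg.congr_of_eventuallyEq ?_
        filter_upwards [Ioo_mem_nhds h0 h1] with x hx
        rw [cl_of_mem hx.1.le hx.2.le]
    have h4 : ∀ᵐ g : ℝ, ∀ o, g ∈ G o → 0 < g → g < 1 → Dns (W' o) g := ae_all_iff.2 fun o => by
      filter_upwards [hGW o, dns_ae (hW' o)] with g hg hg' k1 k2 k3
      exact hg' (hg k1 k2 k3)
    filter_upwards [hG, h1, h2, h3, diag_aeC hP, h4] with g k1 k2 k3 k4 k5 k6
    exact ⟨k1, k2, k3, k4, k5, k6⟩
  obtain ⟨N', hN'⟩ : ∃ N' : Set ℝ, N' = N ∪ {g : ℝ | ¬ ((0 < g → g < 1 →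
      (∃ a', g < a' ∧ a' ≤ 1 ∧ ρ 1 - ρ (P a' a') < 1 - P a' a') → ∃ o, g ∈ G o) ∧
      (∀ o, g ∈ W o → Tendsto (fun r => volume (W o ∩ Metric.closedBall g r) /
        volume (Metric.closedBall g r)) (𝓝[>] 0) (𝓝 1)) ∧
      (∀ k, ContinuousAt (B k) g) ∧ (∀ p : O × J, 0 < g → g < 1 → DifferentiableAt ℝ (D p.1 p.2) g) ∧
      (0 < g → g < 1 → DifferentiableAt ℝ (fun a => P a a) g) ∧
      (∀ o, g ∈ G o → 0 < g → g < 1 → Dns (W' o) g))} := ⟨_, rfl⟩
  have hN'0 : volume N' = 0 := by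
    rw [hN']
    exact measure_union_null hN (ae_iff.1 hfa)
  refine ⟨N', hN'0, ?_⟩
  filter_upwards [hch] with Q hQ hrow
  have hmem := hrow.mem
  rw [hN'] at hmem
  simp only [compl_union, mem_inter_iff, mem_compl_iff, mem_ofPred_eq, not_not] at hmem
  obtain ⟨hgN, f1, f2, f3, f4, f5, f6⟩ := hmem
  have hrow' : RowD P ρ Nᶜ Q := { hrow with mem := hgN }
  have hg0 := hrow.g0
  have hg1 := hrow.g1
  obtain ⟨g, hg⟩ : ∃ g, g = Lv P (Q, 0) := ⟨_, rfl⟩
  obtain ⟨cR, hcR, hR⟩ := adR_of hP hρ hrow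
  have hQ := hQ hrow'
  rw [← hg] at hg0 hg1 f1 f2 f3 f4 f5 f6 hR hQ ⊢
  -- the order
  obtain ⟨o, ho⟩ := f1 hg0 hg1 (by
    obtain ⟨r₀, hr₀, h1⟩ := hR cR hcR le_rfl
    obtain ⟨r, hr⟩ : ∃ r, r = min (r₀ / 2) ((1 - g) / 8) := ⟨_, rfl⟩
    have hr0 : 0 < r := by rw [hr]; exact lt_min (by linarith) (by linarith)
    have hr1 : r < r₀ := by
      have : r ≤ r₀ / 2 := by rw [hr]; exact min_le_left _ _
      linarith
    have hr2 : r ≤ (1 - g) / 8 := by rw [hr]; exact min_le_right _ _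
    have h2 := h1 r hr0 hr1
    have h3 := h2.row (g + r) (by rw [add_sub_cancel_left, abs_of_pos hr0]; linarith)
    have h4 := h2.pos (P (g + r) (g + r)) (by linarith)
    exact ⟨g + r, by linarith, by linarith, by linarith⟩)
  have hWo : g ∈ W o := by
    rw [hW]
    exact ⟨ho, hg0, hg1, fun x => f3 (x, o)⟩
  have hdens := f2 o hWo
  -- the slopes
  obtain ⟨cP, hcP, rP, hrP, hsP⟩ := slp_of (D := fun a => P a a)
    (fun x h0 h1 => (hP01 x h0 h1).1)
    (fun x h0 h1 => (hP01 x h0 h1).2) hg0 hg1 (f5 hg0 hg1)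
  have hsD : ∀ j : J, ∃ c : ℝ, 0 < c ∧ ∃ r₀ : ℝ, 0 < r₀ ∧ ∀ r : ℝ, 0 < r → r < r₀ →
      ∀ c' : ℝ, 0 < c' → c' ≤ c → Slp (D o j) c' g r := fun j =>
    slp_of (hD0 o j) (hD1 o j) hg0 hg1 (f4 (o, j) hg0 hg1)
  choose cD hcD rD hrD hsD using hsD
  obtain ⟨cA, hcA, hA⟩ := hQ o ho
  obtain ⟨c, hcdef⟩ : ∃ c, c = min (min cR cP) (min cA (⨅ j : Option J, j.elim 1 cD)) := ⟨_, rfl⟩
  have hfin : (Set.range fun j : Option J => j.elim 1 cD).Finite := Set.finite_range _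
  have hinf0 : 0 < ⨅ j : Option J, j.elim 1 cD := by
    obtain ⟨j, hj⟩ := exists_eq_ciInf_of_finite (f := fun j : Option J => j.elim 1 cD)
    rw [← hj]
    cases j with
    | none => exact one_pos
    | some j => exact hcD j
  have hinf : ∀ j : J, (⨅ j : Option J, j.elim 1 cD) ≤ cD j := fun j =>
    ciInf_le hfin.bddBelow (some j)
  have hc0 : 0 < c := by
    rw [hcdef]
    exact lt_min (lt_min hcR hcP) (lt_min hcA hinf0)
  have cc1 : c ≤ cR := by rw [hcdef]; exact (min_le_left _ _).trans (min_le_left _ _)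
  have cc2 : c ≤ cP := by rw [hcdef]; exact (min_le_left _ _).trans (min_le_right _ _)
  have cc3 : c ≤ cA := by rw [hcdef]; exact (min_le_right _ _).trans (min_le_left _ _)
  have cc4 : ∀ j, c ≤ cD j := fun j => by
    rw [hcdef]
    exact ((min_le_right _ _).trans (min_le_right _ _)).trans (hinf j)
  obtain ⟨r₁, hr₁, hR⟩ := hR c hc0 cc1
  -- a common scale
  obtain ⟨r₂, hr₂, hS⟩ : ∃ r₂ : ℝ, 0 < r₂ ∧ ∀ r : ℝ, 0 < r → r < r₂ →
      Slp (fun a => P a a) c g r ∧ ∀ j, Slp (D o j) c g r := by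
    have hfin' : (Set.range fun j : Option J => j.elim rP rD).Finite := Set.finite_range _
    refine ⟨⨅ j : Option J, j.elim rP rD, ?_, fun r hr hr' => ⟨hsP r hr (hr'.trans_le
      (ciInf_le hfin'.bddBelow none)) c hc0 cc2, fun j => hsD j r hr (hr'.trans_le
      (ciInf_le hfin'.bddBelow (some j))) c hc0 (cc4 j)⟩⟩
    obtain ⟨j, hj⟩ := exists_eq_ciInf_of_finite (f := fun j : Option J => j.elim rP rD)
    rw [← hj]
    cases j with
    | none => exact hrP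
    | some j => exact hrD j
  refine ⟨o, ho, f6 o ho hg0 hg1, f5 hg0 hg1, fun j => f4 (o, j) hg0 hg1, ?_, 3 / c, c,
    by positivity, hc0, fun e he => ?_⟩
  · -- the backward slopes of the diagonals of the families
    obtain ⟨K₁, hK₁, hKP⟩ := mono_bd (f := fun a => P a a) hg0
      (fun x y h1 h2 h3 => hP.mono h1 le_rfl h2 h2 le_rfl (by linarith)) (f5 hg0 hg1).hasDerivAt
    obtain ⟨ρ₀, hρ₀, hde⟩ := win_near hdens
    have hm0 : 0 < min ρ₀ (g / 2) := lt_min hρ₀ (by linarith)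
    refine ⟨max (2 * K₁) (1 / min ρ₀ (g / 2)), fun x v hv0 hvg => ?_⟩
    have hle1 : PB (x, o) g g ≤ P g g := hle _ g g hg0 le_rfl hg1.le
    rcases hv0.eq_or_lt with h0 | h0
    · rw [← h0, sub_zero, sub_self, mul_zero]
    rcases lt_or_ge v (min ρ₀ (g / 2)) with h1 | h1
    · obtain ⟨g', hg', k1, k2⟩ := hde v h0 (h1.trans_le (min_le_left _ _))
      have hv2 : v < g / 2 := h1.trans_le (min_le_right _ _)
      rw [hW] at hg'
      have k3 := hPG x o g' hg'.1 hg'.2.1 hg'.2.2.1 (g - v) k2 (by linarith)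
      have k4 := hKP (2 * v) (by linarith) (by linarith)
      have k5 : P (g - 2 * v) (g - 2 * v) ≤ P g' g' :=
        hP.mono (by linarith) le_rfl (by linarith) (by linarith) le_rfl (by linarith)
      have k6 : 2 * K₁ * v ≤ max (2 * K₁) (1 / min ρ₀ (g / 2)) * v :=
        mul_le_mul_of_nonneg_right (le_max_left _ _) hv0
      linarith
    · have k1 := (hP01 g hg0.le hg1.le).2
      have k2 := hPB0 (x, o) (g - v) (by linarith) (by linarith)
      have k3 : 1 ≤ 1 / min ρ₀ (g / 2) * v := by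
        rw [one_div_mul_eq_div, one_le_div hm0]
        exact h1
      have k4 : 1 / min ρ₀ (g / 2) * v ≤ max (2 * K₁) (1 / min ρ₀ (g / 2)) * v :=
        mul_le_mul_of_nonneg_right (le_max_right _ _) hv0
      linarith
  obtain ⟨k, r₃, hr₃, hA⟩ := hA c hc0 cc3 e he
  refine ⟨k, fun r j => D o (f o j) g, ?_, ?_, min (min r₁ r₂) (min r₃ e),
    lt_min (lt_min hr₁ hr₂) (lt_min hr₃ he), fun r hr hr' => ?_⟩
  · -- the boxes
    refine ⟨min r₂ (min (g / 8) ((1 - g) / 8)), lt_min hr₂ (lt_min (by linarith) (by linarith)),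
      fun r hr hr' => ?_⟩
    have m1 : r < r₂ := hr'.trans_le (min_le_left _ _)
    have m2 : r < g / 8 := (hr'.trans_le (min_le_right _ _)).trans_le (min_le_left _ _)
    have m3 : r < (1 - g) / 8 := (hr'.trans_le (min_le_right _ _)).trans_le (min_le_right _ _)
    refine ⟨hPB _, fun a w h1 h2 h3 => hle _ a w (by linarith) h2 (by linarith), fun j => ?_⟩
    have hSj := (hS r hr m1).2 (f o j)
    have hbox : ∀ y : ℝ × ℝ, WBox g (2 * r) y → g - 4 * r ≤ y.1 ∧ y.1 ≤ g + 4 * r ∧ 0 ≤ y.2 ∧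
        y.2 ≤ 2 * r := by
      intro y hy
      have := abs_le.1 hy.1
      exact ⟨by linarith, by linarith, hy.2.1, hy.2.2⟩
    refine ⟨fun y y' hy h1 h2 => ?_, fun y h1 => ?_⟩
    · obtain ⟨a1, a2, a3, a4⟩ := hbox y h1
      obtain ⟨b1, b2, b3, b4⟩ := hbox y' h2
      exact (hbe (k r, o) j).mono (by linarith) (by linarith) (by linarith [hy.1, hy.2]) hy.1
        (by linarith) (by linarith)
    · obtain ⟨a1, a2, a3, a4⟩ := hbox y h1
      have u1 : be (k r, o) j y.1 y.1 ≤ be (k r, o) j (y.1 + y.2) y.1 :=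
        (hbe (k r, o) j).mono (by linarith) le_rfl (by linarith) le_rfl (by linarith)
          (by linarith)
      have u2 : be (k r, o) j (y.1 + y.2) y.1 ≤ be (k r, o) j (y.1 + y.2) (y.1 + y.2) :=
        (hbe (k r, o) j).mono (by linarith) (by linarith) le_rfl (by linarith) le_rfl
          (by linarith)
      rw [hdia (k r) o j _ (by linarith) (by linarith)] at u1 u2
      have u3 : D o (f o j) (y.1 + y.2) ≤ D o (f o j) (g + 6 * r) :=
        hDm o _ _ _ (by linarith) (by linarith) (by linarith)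
      have u4 : D o (f o j) (g - 4 * r) ≤ D o (f o j) y.1 :=
        hDm o _ _ _ (by linarith) (by linarith) (by linarith)
      have u5 := hSj g (g + 6 * r) hg0.le le_rfl (by linarith) (by linarith)
      have u6 := hSj (g - 4 * r) g (by linarith) (by linarith) le_rfl (by linarith)
      show |be (k r, o) j (y.1 + y.2) y.1 - D o (f o j) g| ≤ 3 / c * (2 * r)
      have e1 : 3 / c * (2 * r) = (6 * r) / c := by ring
      have e2 : ∀ z : ℝ, |z| * c = |c * z| := fun z => by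
        rw [abs_mul, abs_of_pos hc0, mul_comm]
      rw [e1, le_div_iff₀ hc0, e2, abs_le]
      constructor
      · have := mul_le_mul_of_nonneg_left (u4.trans u1) hc0.le
        linarith
      · have := mul_le_mul_of_nonneg_left (u2.trans u3) hc0.le
        linarith
  · -- the diagonal
    refine famDg_of_density hdens he ⟨min (g / 8) ((1 - g) / 8), lt_min (by linarith)
      (by linarith), fun r hr hr' a ha _ => ?_⟩
    have := hWd (k r) o a ha
    have := mul_pos he hr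
    linarith
  · have m1 : r < r₁ := (hr'.trans_le (min_le_left _ _)).trans_le (min_le_left _ _)
    have m2 : r < r₂ := (hr'.trans_le (min_le_left _ _)).trans_le (min_le_right _ _)
    have m3 : r < r₃ := (hr'.trans_le (min_le_right _ _)).trans_le (min_le_left _ _)
    have m4 : r < e := (hr'.trans_le (min_le_right _ _)).trans_le (min_le_right _ _)
    obtain ⟨h1, h2⟩ := hA r hr m3
    refine ⟨⟨hR r hr m1, (hS r hr m2).1, (hS r hr m2).2, ho, h1⟩, max_le h2 ?_⟩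
    exact mul_le_mul_of_nonneg_right m4.le hr.le

/-- The levels of a chart; the last one is the target. -/
noncomputable def lv (o : E.O) (x : E.α) (i : ℕ) : ℝ → ℝ → ℝ :=
  if h : i < E.m then E.be (x, o) ⟨i, h⟩ else E.PB (x, o)

/-- The diagonals of the levels; the last one is the diagonal of the target. -/
noncomputable def dg (o : E.O) (i : ℕ) (a : ℝ) : ℝ :=
  if h : i < E.m then E.D o (E.f o ⟨i, h⟩) a else P a a

/-- The size of the box over the size of the wide cell. -/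
noncomputable def fac (P : ℝ → ℝ → ℝ) (g : ℝ) : ℝ := 24 * (deriv (fun a => P a a) g + 1)

/-- **The play against the wide cells of the selected families** at the row `Q`. -/
def Play (W' : E.O → Set ℝ) (Att : E.O → E.α → Set (ℝ × ℝ)) (Q : ℝ) : Prop :=
  ∀ (o : E.O) (c g : ℝ), g = Lv P (Q, 0) → 0 < g → g < 1 → P g g = Q → g ∈ E.G o →
    Dns (W' o) g → DifferentiableAt ℝ (fun a => P a a) g → 1 ≤ deriv (fun a => P a a) g →
    (∀ j, DifferentiableAt ℝ (E.D o j) g) → 0 < c →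
    GmeF (E.lv o) (fun x e r => E.Ad c (x, o) Q g (fac P g * r) ∧
        E.dfr (x, o) g (fac P g * r) ≤ e * (fac P g * r)) E.m
      (fun i => deriv (E.dg o i) g) g (W' o) (Att o)

/-- What a play may use of the row `Q` with the window `g`, the order `o` and the constant `c`. -/
structure RowO (W' : E.O → Set ℝ) (Q : ℝ) (o : E.O) (c g : ℝ) : Prop where
  eq : g = Lv P (Q, 0)
  g0 : 0 < g
  g1 : g < 1
  val : P g g = Q
  mem : g ∈ E.G o
  dns : Dns (W' o) g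
  dif : DifferentiableAt ℝ (fun a => P a a) g
  der : 1 ≤ deriv (fun a => P a a) g
  difD : ∀ j, DifferentiableAt ℝ (E.D o j) g
  c0 : 0 < c

theorem dg_m (o : E.O) : E.dg o E.m = fun a => P a a := by
  funext a
  unfold dg
  rw [dif_neg (lt_irrefl _)]

theorem dg_i (o : E.O) (i : ℕ) (h : i < E.m) : E.dg o i = E.D o (E.f o ⟨i, h⟩) := by
  funext a
  unfold dg
  rw [dif_pos h]

/-- The slopes of the diagonals are not negative. -/
theorem RowO.sl_nn {E : CellD P ρ} {W' : E.O → Set ℝ} {Q : ℝ} {o : E.O} {c g : ℝ}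
    (H : E.RowO W' Q o c g) {i : ℕ} (hi : i ≤ E.m) : 0 ≤ deriv (E.dg o i) g := by
  have hw := H.g0
  have hlt := H.g1
  rcases hi.lt_or_eq with h | h
  · rw [E.dg_i o i h]
    refine der_nn (H.difD (E.f o ⟨i, h⟩)).hasDerivAt (r₀ := 1 - g) (by linarith) fun y h1 h2 => ?_
    exact E.hDm o _ g y hw.le h1.le (by linarith)
  · rw [h, E.dg_m]
    exact zero_le_one.trans H.der

theorem fac_pos {g : ℝ} (h : 1 ≤ deriv (fun a => P a a) g) : 0 < fac P g := by
  unfold fac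
  linarith

/-- **The families of a nonfull row.** -/
theorem famR (hP : Law P) (hP01 : ∀ a : ℝ, 0 ≤ a → a ≤ 1 → 0 ≤ P a a ∧ P a a ≤ 1)
    (hρ : LipschitzWith 1 ρ) (hPB0 : ∀ k a, 0 ≤ a → a ≤ 1 → 0 ≤ E.PB k a a) (hJ : E.NoJ)
    (hF : E.NoF) {W' : E.O → Set ℝ} (hW' : ∀ o, MeasurableSet (W' o))
    (hGW : ∀ o, ∀ᵐ g : ℝ, g ∈ E.G o → 0 < g → g < 1 → g ∈ W' o)
    {Z : Set ℝ} (hZ : volume Z = 0) :
    ∀ᵐ Q : ℝ, 0 < Q → Q < 1 → 0 < Lv P (Q, 0) →
      DifferentiableAt ℝ (fun Q => Lv P (Q, 0)) Q → 0 < deriv (fun Q => Lv P (Q, 0)) Q →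
      DifferentiableAt ℝ ρ Q → deriv ρ Q < 1 → RowD P ρ Zᶜ Q ∧ ∃ (o : E.O) (c g : ℝ),
        E.RowO W' Q o c g ∧ ∃ K : ℕ → ℝ,
          FamP (E.lv o) (fun x e r => E.Ad c (x, o) Q g (fac P g * r) ∧
            E.dfr (x, o) g (fac P g * r) ≤ e * (fac P g * r)) E.m (fun i => E.dg o i g)
            (fun i => deriv (E.dg o i) g) K g := by
  obtain ⟨N', hN', hsel⟩ := E.selO hP hP01 hρ hPB0 hW' hGW
  have hgm : Monotone (fun Q => Lv P (Q, 0)) := fun x y hxy => Lv_mono hP ⟨hxy, le_rfl⟩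
  have hnull : volume (N' ∪ Z) = 0 := measure_union_null hN' hZ
  filter_upwards [ae_notMem_of_null hgm hnull, hsel] with Q hQ hsel h0 h1 hw hd hc hdr hcon
  have hlt := lv_lt_one hP hd hc
  have hnm := hQ hd hc
  rw [mem_union, not_or] at hnm
  have hrow : RowD P ρ N'ᶜ Q := ⟨h0, h1, hw, hlt, hnm.1, hd, hc, hdr, hcon⟩
  have hrowZ : RowD P ρ Zᶜ Q := ⟨h0, h1, hw, hlt, hnm.2, hd, hc, hdr, hcon⟩
  obtain ⟨o, ho, hdn, hdP, hdD, ⟨K₀, hK₀⟩, C, c, hC, hc0, hsel⟩ := hsel hrow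
  obtain ⟨-, hval, hder⟩ := diag_deriv hP h0 h1 hw hd hc
  obtain ⟨g, hg⟩ : ∃ g, g = Lv P (Q, 0) := ⟨_, rfl⟩
  have hs1 : 1 ≤ deriv (fun a => P a a) g := by
    rw [hg]
    exact diag_slope hP hw hlt hdP.hasDerivAt (by rw [hval]; exact h1)
  rw [← hg] at ho hdn hdP hdD hK₀ hsel hval hlt hw
  have hs0 : 0 ≤ deriv (fun a => P a a) g := zero_le_one.trans hs1
  refine ⟨hrowZ, o, c, g, ⟨hg, hw, hlt, hval, ho, hdn, hdP, hs1, hdD, hc0⟩, ?_⟩
  -- the hypotheses for the family with the order `o`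
  obtain ⟨K, hfam⟩ := famP_of_box (κ := E.α) (m := E.m) (n := E.m) hP (W := N'ᶜ) (ρ := ρ)
    (PB := fun x => E.PB (x, o)) (R := fun x => E.R (x, o)) (Ad := fun c x => E.Ad c (x, o))
    (df := fun x => E.dfr (x, o))
    (fun c β T h k1 k2 k3 k4 => by
      obtain ⟨ε, hε, H⟩ := hJ c β T h k1 k2 k3 k4
      exact ⟨ε, hε, fun x => H (x, o)⟩)
    (fun c β h k1 k2 k3 => by
      obtain ⟨s, hs, M, hM, ε, hε, H⟩ := hF c β h k1 k2 k3
      exact ⟨s, hs, M, hM, ε, hε, fun x => H (x, o)⟩)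
    hrow hg hs0 hval hdP.hasDerivAt hC hc0 (K₀ := K₀) (L := E.lv o)
    (fun x => by unfold lv; rw [dif_neg (lt_irrefl _)])
    (fun x i hi => by unfold lv; rw [dif_pos hi]; exact E.hbe _ _)
    (D := E.dg o) (σ := fun i => deriv (E.dg o i) g)
    (fun x i hi a h0 h1 => by
      unfold lv dg
      rw [dif_pos hi, dif_pos hi]
      exact E.hdia x o ⟨i, hi⟩ a h0 h1)
    (fun i hi => by
      rw [E.dg_i o i hi]
      exact (hdD _).hasDerivAt)
    (by rw [E.dg_m])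
    (OK := fun x e t => E.Ad c (x, o) Q g t ∧ E.dfr (x, o) g t ≤ e * t)
    (fun x e e' t h0 h1 h2 => ⟨h1.1, h1.2.trans (mul_le_mul_of_nonneg_right h2 h0.le)⟩)
    (fun e he => by
      obtain ⟨k, V, hb, hdg, r₀, hr₀, hA⟩ := hsel e he
      refine ⟨k, V, ⟨by rw [← hg]; exact hb, by rw [← hg]; exact hdg, r₀, hr₀, fun r hr hr' => ?_⟩,
        r₀, hr₀, fun r hr hr' => ⟨hA r hr hr', fun v hv1 hv2 => ?_⟩⟩
      · rw [← hg]
        exact hA r hr hr'
      · exact hK₀ (k r) v (by linarith) hv2)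
  have hd' : (fun i => if i < E.m then E.dg o i g else Q) = fun i => E.dg o i g := by
    funext i
    split_ifs with h
    · rfl
    · unfold dg
      rw [dif_neg h]
      exact hval.symm
  rw [hd'] at hfam
  exact ⟨K, hfam⟩

/-- **Almost all rows are full.** -/
theorem ful (hP : Law P) (hP01 : ∀ a : ℝ, 0 ≤ a → a ≤ 1 → 0 ≤ P a a ∧ P a a ≤ 1)
    (hρ : LipschitzWith 1 ρ) (hPB0 : ∀ k a, 0 ≤ a → a ≤ 1 → 0 ≤ E.PB k a a) (hJ : E.NoJ)
    (hF : E.NoF) {W' : E.O → Set ℝ} (hW' : ∀ o, MeasurableSet (W' o))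
    (hGW : ∀ o, ∀ᵐ g : ℝ, g ∈ E.G o → 0 < g → g < 1 → g ∈ W' o)
    {Att : E.O → E.α → Set (ℝ × ℝ)} (hAtt : ∀ o x, AttN (Att o x))
    {Z : Set ℝ} (hZ : volume Z = 0) (hplay : ∀ᵐ Q : ℝ, RowD P ρ Zᶜ Q → E.Play W' Att Q) :
    ∀ᵐ Q : ℝ, 0 < Q → Q < 1 → 0 < Lv P (Q, 0) →
      DifferentiableAt ℝ (fun Q => Lv P (Q, 0)) Q → 0 < deriv (fun Q => Lv P (Q, 0)) Q →
      DifferentiableAt ℝ ρ Q → 1 ≤ deriv ρ Q := by
  filter_upwards [E.famR hP hP01 hρ hPB0 hJ hF hW' hGW hZ, hplay] with Q hfam hplay h0 h1 hw hd hc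
    hdr
  by_contra hcon
  push Not at hcon
  obtain ⟨hrowZ, o, c, g, H, K, hfam⟩ := hfam h0 h1 hw hd hc hdr hcon
  have hplay := hplay hrowZ o c g H.eq H.g0 H.g1 H.val H.mem H.dns H.dif H.der H.difD H.c0
  have hfac := fac_pos H.der
  exact gmeF H.g0 H.g1 (fun i hi => H.sl_nn hi) H.dns (hAtt o) (fun x e e' r h0 h1 h2 =>
    ⟨h1.1, h1.2.trans (mul_le_mul_of_nonneg_right h2 (mul_pos hfac h0).le)⟩) hfam hplay

end CellD

end Pool.STR
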