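import Pool.Agent.H75.STAT.StaRE
import Pool.Agent.H87.GEN.StaP
import Pool.Agent.H77.STAT.GmI

/-!
# The play against the affine cells, from the labels

`LabI`: the labels of the levels `b + k ω r` in the affine cells of all charts. `gmI_of_labI`: they
give a strategy against the affine cells (`STR.GmI`).
-/

set_option autoImplicit false

namespace Pool.STAT

theorem CellI.mono_s {L : ℕ → ℝ → ℝ → ℝ} {n : ℕ} {σ : ℕ → ℝ} {s s' : ℕ} {b r ε : ℝ}
    (H : CellI L n σ s b r ε) (hr : 0 < r) (hs : s ≤ s') : CellI L n σ s' b r ε := by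
  have hss : (s : ℝ) ≤ s' := by exact_mod_cast hs
  have hb : 0 ≤ b := by have := H.lo; linarith
  refine ⟨H.lo, H.hi, H.one.trans (mul_le_mul_of_nonneg_right hss hb), H.bas, H.tgt,
    fun i hi v h1 h2 => ?_⟩
  have h3 := H.sl i hi v h1 h2
  have h4 := mul_le_mul_of_nonneg_right hss h1
  linarith

theorem CellI.mono_e {L : ℕ → ℝ → ℝ → ℝ} {n : ℕ} {σ : ℕ → ℝ} {s : ℕ} {b r ε ε' : ℝ}
    (H : CellI L n σ s b r ε) (hr : 0 < r) (hε : ε ≤ ε') : CellI L n σ s b r ε' := by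
  have h0 : ε * r ≤ ε' * r := mul_le_mul_of_nonneg_right hε hr.le
  exact ⟨H.lo, H.hi, H.one, fun i hi a' w' h1 h2 h3 => (H.bas i hi a' w' h1 h2 h3).trans h0,
    fun a' w' h1 h2 h3 => (H.tgt a' w' h1 h2 h3).trans h0, fun i hi v h1 h2 =>
      (H.sl i hi v h1 h2).trans (by linarith)⟩

end Pool.STAT

namespace Pool.STA

open Finset MvPolynomial
open Pool.Agent.H49.Ent Pool.Agent.H32.Dense Pool.STK Pool.KS3 Pool.KA Pool.KSAT Pool.K2S Pool.PB
open Pool.GEN Pool.S6C Pool.STAT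
open Pool.STAT.DPP (Stc)

/-- **The labels of the affine cells** of the charts `x` with the levels `Lx x`: the degree `K` and
the constants of the rows depend on the slope `s` and on the exponent `ε₀` of the gradients only;
`M`, `U`: the number of levels and the depth; `ω r`: the step of the levels; `κ r`: the loss of
precision. -/
def LabI {ι : Type*} {m : ℕ} (S : PCl m) (e : ℕ → Fin m) (n : ℕ) (L : ℕ → ℝ → ℝ → ℝ)
    (Lx : ι → ℕ → ℝ → ℝ → ℝ) (OK : ι → ℝ → ℝ → Prop) (p : ℕ → Prop) [DecidablePred p]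
    (σ : ℕ → ℝ) (g : ℝ) (W : Set ℝ) (Att : ι → Set (ℝ × ℝ)) (ε₀ : ℝ) : Prop :=
  ∀ s : ℕ, (∀ i ≤ n + 1, σ i ≤ s) → ∃ (K : ℕ) (C₁' C₂ ρ' a : ℝ), 1 ≤ C₁' ∧ 0 ≤ C₂ ∧ 0 < ρ' ∧
    ρ' ≤ 1 ∧ 0 < a ∧ a ≤ 1 ∧ ∀ (c c' M U : ℕ) (T₀ : ℝ), 2 ≤ T₀ → 1 ≤ U →
    ∃ ω : ℝ, 0 < ω ∧ (M + 2) * ω ≤ 1 / 8 ∧ ∀ κ₁ : ℝ, 0 < κ₁ →
    ∃ (κ X e' ε r₁ : ℝ) (K₀ : Finset ℝ), 0 < κ ∧ κ ≤ κ₁ ∧ 0 ≤ X ∧ 0 < e' ∧ 0 < ε ∧ 0 < r₁ ∧
    ∀ (x : ι) (r b : ℝ), 0 < r → r < r₁ → |b - g| ≤ r → OK x e' (2 * r) →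
      CellI (Lx x) n (fun i => σ (i + 1)) s b r ε → Gnr W (Att x) K₀ b r →
      ∃ K₁ Lc τr : ℝ, 0 < K₁ ∧ 0 ≤ Lc ∧ 0 < τr ∧ Bas S (fun _ F A =>
        LabR F A L p e n K M U σ b (ω * r) (κ * r) C₁' C₂ ρ' a Lc T₀ c c' K₁ (X * r) ε₀ τr)

/-- The diagonals near a point where they are differentiable, with any error. -/
theorem diag_eps {L : ℕ → ℝ → ℝ → ℝ} {σ : ℕ → ℝ} {g : ℝ} {N : ℕ}
    (hder : ∀ i ≤ N, HasDerivAt (fun x => L i x x) (σ i) g) {ε : ℝ} (hε : 0 < ε) :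
    ∃ d : ℝ, 0 < d ∧ ∀ i ≤ N, ∀ y : ℝ, |y - g| ≤ d →
      |L i y y - L i g g - σ i * (y - g)| ≤ ε * |y - g| := by
  have h1 := PrM.fset_small (range (N + 1)) (Q := fun i d => ∀ y : ℝ, |y - g| ≤ d →
    |L i y y - L i g g - σ i * (y - g)| ≤ ε * |y - g|) fun i hi => by
      have hi' : i ≤ N := Nat.lt_succ_iff.1 (mem_range.1 hi)
      have h2 := ((hder i hi').isLittleO).def hε
      obtain ⟨d, hd0, hd⟩ := Metric.eventually_nhds_iff.1 h2
      refine ⟨d / 2, half_pos hd0, fun e' he' hed y hy => ?_⟩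
      have h3 := hd (y := y) (by rw [Real.dist_eq]; linarith)
      rw [Real.norm_eq_abs, Real.norm_eq_abs, smul_eq_mul, mul_comm (y - g)] at h3
      exact h3
  obtain ⟨d, hd, h1⟩ := h1
  exact ⟨d, hd, fun i hi => h1 d hd le_rfl i (mem_range.2 (Nat.lt_succ_of_le hi))⟩

variable {m n : ℕ} {S : PCl m} {e : ℕ → Fin m} {L : ℕ → ℝ → ℝ → ℝ} {θ : ℝ}
  {P' : List (Fin m) × Fin m → ℝ → ℝ → ℝ} {ρ : ℝ → ℝ}

/-- **The play against the affine cells**, from the labels. -/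
theorem gmI_of_labI {ι : Type*} (H : Ctx S e n L θ P' ρ) {Lx : ι → ℕ → ℝ → ℝ → ℝ}
    {OK : ι → ℝ → ℝ → Prop} {p : ℕ → Prop} [DecidablePred p] (hp : Stc p (n + 1)) {σ : ℕ → ℝ}
    {g : ℝ} {W : Set ℝ} {Att : ι → Set (ℝ × ℝ)} (hE : ExIn S e n L W)
    (hLab : LabI S e n L Lx OK p σ g W Att (θ * g / 8)) (hg0 : 0 < g)
    (hder : ∀ i ≤ n + 1, HasDerivAt (fun x => L i x x) (σ i) g) (hσ0 : σ 0 = 1)
    (hσ : ∀ i, 1 ≤ σ i) (hlt : ∀ i ≤ n + 1, L i g g < 1) :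
    STR.GmI Lx OK n (fun i => σ (i + 1)) g W Att := by
  classical
  intro s
  -- the bound of the slopes
  obtain ⟨B, hB, hB1⟩ : ∃ B : ℕ, (∀ i ≤ n + 1, σ i ≤ B) ∧ s ≤ B := by
    obtain ⟨B, hB⟩ := exists_nat_ge ((∑ i ∈ range (n + 2), σ i) + s)
    have h0 : 0 ≤ ∑ i ∈ range (n + 2), σ i :=
      Finset.sum_nonneg fun i _ => zero_le_one.trans (hσ i)
    refine ⟨B, fun i hi => ?_, ?_⟩
    · have h1 := Finset.single_le_sum (f := σ) (fun i _ => zero_le_one.trans (hσ i))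
        (mem_range.2 (by omega : i < n + 2))
      have h2 : (0 : ℝ) ≤ s := Nat.cast_nonneg s
      linarith
    · have : (s : ℝ) ≤ B := by linarith
      exact_mod_cast this
  have hBr : (1 : ℝ) ≤ B := (hσ 0).trans (hB 0 (Nat.zero_le _))
  have hg1 : g < 1 := lt_of_le_of_lt (by rw [H.zero]) (hlt 0 (Nat.zero_le _))
  obtain ⟨K, C₁', C₂, ρ', a, hC₁, hC₂, hρ, hρ1, ha, ha1, hLab⟩ := hLab B hB
  obtain ⟨Kd, c, c', cX, T₀, c₆, hT₀, hG, hD⟩ :=
    cst_staR n K p hp σ C₁' C₂ ρ' a hσ0 hσ hC₁ hC₂ hρ hρ1 ha ha1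
  have hθg : 0 < θ * g := mul_pos H.θ_pos hg0
  obtain ⟨ω, hω, hωM, hLab⟩ := hLab c c' c₆.M c₆.U T₀ hT₀ c₆.U_pos
  have hM0 : (0 : ℝ) ≤ c₆.M := Nat.cast_nonneg _
  have hn0 : (0 : ℝ) ≤ n := Nat.cast_nonneg _
  obtain ⟨κm, hκm⟩ : ∃ κm, κm = min c₆.κ 1 := ⟨_, rfl⟩
  have hκ0 : 0 < κm := by rw [hκm]; exact lt_min c₆.κ_pos one_pos
  have hκ1 : κm ≤ 1 := by rw [hκm]; exact min_le_right _ _
  -- the small number
  obtain ⟨q, hq⟩ : ∃ q : ℝ, q = κm * ω / (16 * (n + 1)) := ⟨_, rfl⟩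
  have hq0 : 0 < q := by rw [hq]; positivity
  have hqn : (n + 1) * q = κm * ω / 16 := by
    rw [hq]
    field_simp
  have hκω : κm * ω ≤ ω := mul_le_of_le_one_left hω.le hκ1
  have hq8 : q ≤ ω / 8 := by
    have h1 : q ≤ (n + 1) * q := le_mul_of_one_le_left hq0.le (by linarith)
    linarith
  obtain ⟨κ, X, e', ε, r₂, K₀, hκ00, hκq, hX, he', hε, hr₂, hLab⟩ := hLab q hq0
  have hω16 : ω ≤ 1 / 16 := by
    have h1 : 2 * ω ≤ (c₆.M + 2) * ω := mul_le_mul_of_nonneg_right (by linarith) hω.le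
    linarith
  -- the diagonals
  obtain ⟨d, hd, hdg⟩ := diag_eps hder (ε := q / 3) (by positivity)
  obtain ⟨d', hd', hdn⟩ := diag_near hder (fun i _ => zero_le_one.trans (hσ i)) hB
  obtain ⟨lam, hlam, hlam'⟩ : ∃ lam : ℝ, 0 < lam ∧ ∀ i ≤ n + 1, L i g g + lam ≤ 1 := by
    obtain ⟨x, hx, h1⟩ := PrM.fset_small (range (n + 2)) (Q := fun i x => L i g g + x ≤ 1)
      fun i hi => ⟨1 - L i g g, by
        have := hlt i (Nat.lt_succ_iff.1 (mem_range.1 hi))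
        linarith, fun e' _ he' => by linarith⟩
    exact ⟨x, hx, fun i hi => h1 x hx le_rfl i (mem_range.2 (by omega))⟩
  have hC₆ := c₆.C₆_nonneg
  obtain ⟨Y, hY⟩ : ∃ Y : ℝ, Y = 1 + 2 * c₆.C₆ + cX * X := ⟨_, rfl⟩
  have hY0 : 0 < Y := by rw [hY]; positivity
  obtain ⟨r₁, hr₁⟩ : ∃ r₁, r₁ = min (min (min r₂ (d / 2)) (min d' (g / 4)))
      (min (min ((1 - g) / 4) (lam / (8 * (B + 1)))) (θ * g / (16 * Y))) := ⟨_, rfl⟩
  refine ⟨ε, hε, e', he', r₁, ?_, K₀ ∪ (range (c₆.M + 1)).image (fun k : ℕ => -((k : ℝ) * ω)),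
    fun x r b hr hrr hba hok C hK hAt => ?_⟩
  · rw [hr₁]
    exact lt_min (lt_min (lt_min hr₂ (by linarith)) (lt_min hd' (by linarith)))
      (lt_min (lt_min (by linarith) (by positivity)) (by positivity))
  have q1 : r < r₂ := hrr.trans_le (by
    rw [hr₁]; exact (min_le_left _ _).trans ((min_le_left _ _).trans (min_le_left _ _)))
  have q2 : r < d / 2 := hrr.trans_le (by
    rw [hr₁]; exact (min_le_left _ _).trans ((min_le_left _ _).trans (min_le_right _ _)))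
  have q3 : r < d' := hrr.trans_le (by
    rw [hr₁]; exact (min_le_left _ _).trans ((min_le_right _ _).trans (min_le_left _ _)))
  have q4 : r < g / 4 := hrr.trans_le (by
    rw [hr₁]; exact (min_le_left _ _).trans ((min_le_right _ _).trans (min_le_right _ _)))
  have q5 : r < (1 - g) / 4 := hrr.trans_le (by
    rw [hr₁]; exact (min_le_right _ _).trans ((min_le_left _ _).trans (min_le_left _ _)))
  have q6 : r < lam / (8 * (B + 1)) := hrr.trans_le (by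
    rw [hr₁]; exact (min_le_right _ _).trans ((min_le_left _ _).trans (min_le_right _ _)))
  have q7 : r < θ * g / (16 * Y) := hrr.trans_le (by
    rw [hr₁]; exact (min_le_right _ _).trans (min_le_right _ _))
  rw [lt_div_iff₀ (by positivity)] at q6 q7
  obtain ⟨hb1, hb2⟩ := abs_le.1 hba
  have hb : 0 < b := by linarith
  -- the step
  have hζ0 : 0 < ω * r := mul_pos hω hr
  have hζM : ((c₆.M : ℝ) + 2) * (ω * r) ≤ r / 8 := by
    have h1 := mul_le_mul_of_nonneg_right hωM hr.le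
    have e1 : ((c₆.M : ℝ) + 2) * (ω * r) = (c₆.M + 2) * ω * r := by ring
    rw [e1]
    linarith
  have hζr : ω * r ≤ r / 16 := by
    have h1 := mul_le_mul_of_nonneg_right hω16 hr.le
    linarith
  have hqr : 0 < q * r := mul_pos hq0 hr
  have hqr8 : q * r ≤ ω * r / 8 := by
    have h1 := mul_le_mul_of_nonneg_right hq8 hr.le
    linarith
  have hqr16 : (n + 1) * (q * r) = κm * (ω * r) / 16 := by
    have e1 : ((n : ℝ) + 1) * (q * r) = (n + 1) * q * r := by ring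
    rw [e1, hqn]
    ring
  have hκr : κ * r ≤ q * r := mul_le_mul_of_nonneg_right hκq hr.le
  obtain ⟨K₁, Lc, τr, hK₁, hLc, hτr, hlab⟩ := hLab x r b hr q1 hba hok
    (C.mono_s hr hB1) ⟨fun k hk => hK k (mem_union_left _ hk), hAt⟩
  obtain ⟨η, hη⟩ : ∃ η, η = min (lam / 2) (θ * g / 16) := ⟨_, rfl⟩
  have hη0 : 0 < η := by
    rw [hη]
    exact lt_min (by positivity) (by positivity)
  have e1 : η ≤ lam / 2 := by rw [hη]; exact min_le_left _ _
  have e2 : η ≤ θ * g / 16 := by rw [hη]; exact min_le_right _ _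
  have hBr0 : 0 ≤ (B : ℝ) * r := mul_nonneg (by linarith) hr.le
  refine cell_falseR H hE hp hG hD (by linarith) hσ hB (b := b) (ζ := ω * r) (δ := κ * r)
    (η := η) (εr := q * r) hb hζ0 (by linarith) (fun i hi a' h1 h2 => ?_) hqr.le
    (fun k hk => ?_) (mul_pos hκ00 hr) hqr8 ?_ (hκr.trans hqr8) ?_ hη0 (fun i hi => ?_)
    (ε₀ := θ * g / 8) (ε₁ := θ * g / 4) (q := X * r) (by positivity) (mul_nonneg hX hr.le)
    ?_ ?_ hK₁ hLc hτr hlab
  · -- the diagonals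
    have k1 := abs_le.1 (hdg i hi a' (by rw [abs_le]; constructor <;> linarith))
    have k2 := abs_le.1 (hdg i hi b (by rw [abs_le]; constructor <;> linarith))
    have k3 : |a' - g| ≤ 2 * r := by rw [abs_le]; constructor <;> linarith
    have k4 : q / 3 * |a' - g| ≤ q / 3 * (2 * r) := mul_le_mul_of_nonneg_left k3 (by positivity)
    have k5 : q / 3 * |b - g| ≤ q / 3 * r := mul_le_mul_of_nonneg_left hba (by positivity)
    rw [abs_le]
    constructor <;> linarith [k1.1, k1.2, k2.1, k2.2]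
  · have h1 := hK (-((k : ℝ) * ω)) (mem_union_right _
      (mem_image_of_mem _ (mem_range.2 (by omega))))
    have h2 : b - -((k : ℝ) * ω) * r = b + k * (ω * r) := by ring
    rw [h2] at h1
    exact h1
  · rw [← hκm, hqr16]
  · rw [← hκm, ← hqr16]
    exact mul_le_mul_of_nonneg_left hκr (by positivity)
  · have h1 := (abs_le.1 (hdn i hi b (hba.trans q3.le))).2
    have h2 := hlam' i hi
    have h3 : ((B : ℝ) + 1) * |b - g| ≤ (B + 1) * r := mul_le_mul_of_nonneg_left hba (by positivity)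
    have h4 : (B : ℝ) * (((c₆.M : ℝ) + 2) * (ω * r)) ≤ B * (r / 8) :=
      mul_le_mul_of_nonneg_left hζM (by linarith)
    linarith
  · have h1 : (1 + 2 * c₆.C₆) * (ω * r) ≤ (1 + 2 * c₆.C₆) * r :=
      mul_le_mul_of_nonneg_left (by linarith) (by linarith)
    have h2 : Y * r = (1 + 2 * c₆.C₆) * r + cX * (X * r) := by rw [hY]; ring
    have h3 : r * (16 * Y) = 16 * (Y * r) := by ring
    rw [h3] at q7
    linarith
  · have h1 : θ * (g / 2) ≤ θ * b := mul_le_mul_of_nonneg_left (by linarith) H.θ_pos.le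
    have h2 : θ * (g / 2) = θ * g / 2 := by ring
    linarith

end Pool.STA
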