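import Pool.Agent.H77.STAT.StaG
import Pool.Agent.H77.STAT.TopI

/-!
# The play of the selected families, from the labels

`CellD.PlD`: the class facts for one order `o` at one window `g`: the thresholds along the order
(`Ctx`), exactness at the good windows (`ExIn`) and the labels of the affine cells (`LabI`).
`CellD.fullI_of`: charts without cells and with these facts at almost all windows are full
(`FullI`).
-/

set_option autoImplicit false

namespace Pool.STR.CellD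

open MeasureTheory Set Filter Topology Pool.LEV Pool.STA
open Pool.GEN Pool.S6C Pool.STAT Pool.PB Pool.STK Pool.KS3 Pool.KA Pool.K2S
open Pool.STAT.DPP (Stc)

/-- The slopes, with the radius as the coordinate `0`. -/
noncomputable def sg {P : ℝ → ℝ → ℝ} {ρ : ℝ → ℝ} (E : CellD P ρ) (o : E.O) (g : ℝ) : ℕ → ℝ
  | 0 => 1
  | i + 1 => deriv (E.dg o i) g

variable {P : ℝ → ℝ → ℝ} {ρ : ℝ → ℝ} (E : CellD P ρ)

/-- **The class facts** for the order `o` at the window `g`. -/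
structure PlD {m : ℕ} (S : PCl m) (o : E.O) (e : ℕ → Fin m) (L : ℕ → ℝ → ℝ → ℝ) (θ : ℝ)
    (P' : List (Fin m) × Fin m → ℝ → ℝ → ℝ) (W' : E.O → Set ℝ) (Att : E.α → Set (ℝ × ℝ))
    (g : ℝ) : Prop where
  ctx : Ctx S e E.m L θ P' ρ
  exin : ExIn S e E.m L (W' o)
  dia : ∀ i (h : i < E.m), ∀ a, 0 ≤ a → a ≤ 1 → L (i + 1) a a = E.D o (E.f o ⟨i, h⟩) a
  tgt : ∀ a, 0 ≤ a → a ≤ 1 → L (E.m + 1) a a = P a a
  lab : ∃ (p : ℕ → Prop) (_ : DecidablePred p), Stc p (E.m + 1) ∧ ∀ Q c : ℝ,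
    E.RowO W' Q o c g → (∀ i < E.m, 1 ≤ deriv (E.dg o i) g ∧ E.dg o i g < 1) →
    LabI S e E.m L (E.lv o) (fun x e r => E.Ad c (x, o) Q g (fac P g * r) ∧
      E.dfr (x, o) g (fac P g * r) ≤ e * (fac P g * r)) p (E.sg o g) g (W' o) Att (θ * g / 8)

variable {E}

/-- **The play**, from the class facts. -/
theorem PlD.play {m : ℕ} {S : PCl m} {o : E.O} {e : ℕ → Fin m} {L : ℕ → ℝ → ℝ → ℝ} {θ : ℝ}
    {P' : List (Fin m) × Fin m → ℝ → ℝ → ℝ} {W' : E.O → Set ℝ} {Att : E.α → Set (ℝ × ℝ)}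
    {g Q c : ℝ} (H : E.PlD S o e L θ P' W' Att g) (R : E.RowO W' Q o c g) (hQ : Q < 1)
    (hlt : ∀ i < E.m, 1 ≤ deriv (E.dg o i) g ∧ E.dg o i g < 1) :
    GmI (E.lv o) (fun x e r => E.Ad c (x, o) Q g (fac P g * r) ∧
        E.dfr (x, o) g (fac P g * r) ≤ e * (fac P g * r)) E.m
      (fun i => deriv (E.dg o i) g) g (W' o) Att := by
  have hg0 := R.g0
  have hg1 := R.g1
  -- the diagonals
  have hdia : ∀ i ≤ E.m, ∀ a, 0 ≤ a → a ≤ 1 → L (i + 1) a a = E.dg o i a := by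
    intro i hi a h0 h1
    rcases hi.lt_or_eq with h | h
    · rw [H.dia i h a h0 h1, E.dg_i o i h]
    · rw [h, H.tgt a h0 h1, E.dg_m]
  have hdd : ∀ i ≤ E.m, DifferentiableAt ℝ (E.dg o i) g := by
    intro i hi
    rcases hi.lt_or_eq with h | h
    · rw [E.dg_i o i h]
      exact R.difD _
    · rw [h, E.dg_m]
      exact R.dif
  obtain ⟨p, hdp, hp, hlab⟩ := H.lab
  have h1 : GmI (E.lv o) (fun x e r => E.Ad c (x, o) Q g (fac P g * r) ∧
        E.dfr (x, o) g (fac P g * r) ≤ e * (fac P g * r)) E.m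
      (fun i => E.sg o g (i + 1)) g (W' o) Att := by
    refine gmI_of_labI H.ctx hp H.exin (hlab Q c R hlt) hg0 (fun i hi => ?_) rfl
      (fun i => ?_) (fun i hi => ?_)
    · rcases i with _ | i
      · have e1 : (fun x => L 0 x x) = fun x => x := by
          funext x
          rw [H.ctx.zero]
        rw [e1]
        exact hasDerivAt_id g
      · have h2 : (fun x => L (i + 1) x x) =ᶠ[𝓝 g] E.dg o i := by
          filter_upwards [Ioo_mem_nhds hg0 hg1] with x hx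
          exact hdia i (by omega) x hx.1.le hx.2.le
        exact ((hdd i (by omega)).hasDerivAt).congr_of_eventuallyEq h2
    · rcases i with _ | i
      · exact le_rfl
      · show 1 ≤ deriv (E.dg o i) g
        rcases Nat.lt_or_ge i E.m with h | h
        · exact (hlt i h).1
        · have e1 : E.dg o i = fun a => P a a := by
            funext a
            unfold dg
            rw [dif_neg (by omega)]
          rw [e1]
          exact R.der
    · rcases i with _ | i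
      · rw [H.ctx.zero]
        exact hg1
      · rw [hdia i (by omega) g hg0.le hg1.le]
        rcases Nat.lt_or_ge i E.m with h | h
        · exact (hlt i h).2
        · have : i = E.m := by omega
          rw [this, E.dg_m]
          show P g g < 1
          rw [R.val]
          exact hQ
  exact h1

/-- **Charts without cells, with the class facts at almost all windows, are full.** -/
theorem fullI_of {m : ℕ} {S : PCl m} (hJ : E.NoJ) (hF : E.NoF)
    (hnn : ∀ k a, 0 ≤ a → a ≤ 1 → 0 ≤ E.PB k a a) {W' : E.O → Set ℝ}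
    {Att : E.O → E.α → Set (ℝ × ℝ)} {Z : Set ℝ} (hW' : ∀ o, MeasurableSet (W' o))
    (hGW : ∀ o, ∀ᵐ g : ℝ, g ∈ E.G o → 0 < g → g < 1 → g ∈ W' o)
    (hAtt : ∀ o x, AttN (Att o x)) (hZ : volume Z = 0)
    (hbas : ∀ᵐ Q : ℝ, RowD P ρ Zᶜ Q → ∀ o, Lv P (Q, 0) ∈ E.G o → ∀ j,
      E.D o (E.f o j) (Lv P (Q, 0)) < 1 ∧ (deriv (E.D o (E.f o j)) (Lv P (Q, 0)) = 1 ∨
        ∀ x a w, 0 ≤ w → w ≤ a → a ≤ 1 → E.be (x, o) j a w ≤ E.be (x, o) j w w + (a - w)))
    {e : E.O → ℕ → Fin m} {L : E.O → ℕ → ℝ → ℝ → ℝ} {θ : E.O → ℝ}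
    {P' : E.O → List (Fin m) × Fin m → ℝ → ℝ → ℝ}
    (hpl : ∀ᵐ Q : ℝ, RowD P ρ Zᶜ Q → ∀ o, Lv P (Q, 0) ∈ E.G o →
      E.PlD S o (e o) (L o) (θ o) (P' o) W' (Att o) (Lv P (Q, 0))) : E.FullI := by
  refine ⟨hJ, hF, hnn, W', Att, Z, hW', hGW, hAtt, hZ, hbas, ?_⟩
  filter_upwards [hpl] with Q hpl hrow o c g R hlt
  have hpl := hpl hrow o (by rw [← R.eq]; exact R.mem)
  rw [← R.eq] at hpl
  exact hpl.play R hrow.Q1 hlt

end Pool.STR.CellD
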