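import Pool.Agent.H82.STAT.Grx
import Pool.Agent.H77.STAT.Rls
import Pool.Agent.H77.STAT.StaG

/-!
# The labels of the affine cells, from the joint chains and the rows

`RowsI`: the rows of the target over the fat labels in all small affine cells near `g`.
`labI_of`: the labels `LabI` of the affine cells, from the joint chains `JatN` near `g` and the
rows.
-/

set_option autoImplicit false

namespace Pool.STAT

open Finset Pool.LEV Pool.STAT.GRD Pool.STAT.DPP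

/-- The levels, with the radius as the level `0`. -/
def shL (Lc : ℕ → ℝ → ℝ → ℝ) : ℕ → ℝ → ℝ → ℝ
  | 0 => fun a _ => a
  | i + 1 => Lc i

theorem CellI.shL {Lc : ℕ → ℝ → ℝ → ℝ} {n : ℕ} {σ : ℕ → ℝ} {s : ℕ} {b r ε : ℝ}
    (H : CellI Lc n (fun i => σ (i + 1)) s b r ε) (hσ0 : σ 0 = 1) (hε : 0 ≤ ε) (hr : 0 < r)
    (hs1 : (1 : ℝ) ≤ s) : CellI (shL Lc) (n + 1) σ s b r ε := by
  have hεr : 0 ≤ ε * r := mul_nonneg hε hr.le
  refine ⟨H.lo, H.hi, H.one, fun i hi a' w' h1 h2 h3 => ?_, H.tgt, fun i hi v h1 h2 => ?_⟩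
  · rcases i with _ | i
    · show |a' - b - (a' - b) - (σ 0 - 1) * (w' - b)| ≤ ε * r
      rw [hσ0, sub_self, sub_self, zero_mul, sub_zero, abs_zero]
      exact hεr
    · exact H.bas i (by omega) a' w' h1 h2 h3
  · rcases i with _ | i
    · show b - (b - v) ≤ s * v + ε * r
      have : v ≤ s * v := le_mul_of_one_le_left h1 hs1
      linarith
    · exact H.sl i (by omega) v h1 h2

/-- The diagonals in the cell. -/
theorem CellI.dg {L : ℕ → ℝ → ℝ → ℝ} {n : ℕ} {σ : ℕ → ℝ} {s : ℕ} {b r ε : ℝ}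
    (H : CellI L (n + 1) σ s b r ε) {i : ℕ} (hi : i ≤ n + 1) {x : ℝ} (h1 : b - r ≤ x)
    (h2 : x ≤ b + r) : |L i x x - L i b b - σ i * (x - b)| ≤ ε * r := by
  rcases Nat.lt_or_ge n i with h | h
  · obtain rfl : i = n + 1 := by omega
    exact H.tgt x x h1 le_rfl h2
  · have h3 := H.bas i (by omega) x x h1 le_rfl h2
    have e1 : L i x x - L i b b - (x - b) - (σ i - 1) * (x - b) =
      L i x x - L i b b - σ i * (x - b) := by ring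
    rwa [e1] at h3

/-- The levels near the centre are at most the ones at `g`, up to the size. -/
theorem CellI.le_g {L : ℕ → ℝ → ℝ → ℝ} {n : ℕ} {σ : ℕ → ℝ} {s : ℕ} {b r ε g : ℝ}
    (H : CellI L (n + 1) σ s b r ε) (hL : ∀ i, Law (L i))
    (hs : ∀ i ≤ n + 1, σ i ≤ s) (hr : 0 < r) (hε : 0 ≤ ε) (hg1 : g ≤ 1) (hbg : |b - g| ≤ r)
    {i : ℕ} (hi : i ≤ n + 1) {x : ℝ} (h0 : 0 ≤ x) (h2 : x ≤ r) :
    L i (b + x) (b + x) ≤ L i g g + (2 * s + 2 * ε) * r := by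
  obtain ⟨g1, g2⟩ := abs_le.1 hbg
  have hb : 0 ≤ b := by have := H.lo; linarith
  have hs0 : (0 : ℝ) ≤ s := Nat.cast_nonneg s
  have hsr : 0 ≤ s * r := mul_nonneg hs0 hr.le
  have hεr : 0 ≤ ε * r := mul_nonneg hε hr.le
  have h3 := (abs_le.1 (H.dg hi (x := b + x) (by linarith) (by linarith))).2
  have h4 : σ i * (b + x - b) ≤ s * r := by
    rw [add_sub_cancel_left]
    exact mul_le_mul (hs i hi) h2 h0 hs0
  have e1 : (2 * s + 2 * ε) * r = 2 * (s * r) + 2 * (ε * r) := by ring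
  rcases le_total b g with h5 | h5
  · have h6 := (hL i).mono hb le_rfl h5 h5 le_rfl hg1
    linarith
  · have h6 := (abs_le.1 (H.dg hi (x := g) (by linarith) (by linarith))).1
    have h7 : σ i * (b - g) ≤ s * r := mul_le_mul (hs i hi) (by linarith) (by linarith) hs0
    have e2 : σ i * (g - b) = -(σ i * (b - g)) := by ring
    linarith

/-- **The points of the grid are good pairs.** -/
theorem grid_att {Att : Set (ℝ × ℝ)} {b r : ℝ}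
    (hAt : ∀ p₁ q₁ p₂ q₂ : ℚ, 0 < b - p₂ - q₂ * r → b - p₂ - q₂ * r ≤ b - p₁ - q₁ * r →
      b - p₁ - q₁ * r < 1 → (b - p₁ - q₁ * r, b - p₂ - q₂ * r) ∈ Att) {Rd P T : ℕ} {ω : ℚ}
    {j t : ℕ} (h0 : 0 < lnW (Rd + 2) b (lx Rd * r) j + xo T (ω / P * r) t)
    (h1 : lnW (Rd + 2) b (lx Rd * r) j ≤ b) (h2 : b + xo T (ω / P * r) t < 1) :
    (b + xo T (ω / P * r) t, lnW (Rd + 2) b (lx Rd * r) j + xo T (ω / P * r) t) ∈ Att := by
  obtain ⟨q₁, hq₁⟩ : ∃ q₁ : ℚ, q₁ = ((T : ℚ) - t) * (ω / P) := ⟨_, rfl⟩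
  obtain ⟨q₂, hq₂⟩ : ∃ q₂ : ℚ, q₂ = (((Rd + 2 : ℕ) : ℚ) - j) * (1 / (8 * ((Rd + 2 : ℕ) : ℚ))) + q₁ :=
    ⟨_, rfl⟩
  have e1 : b - ((0 : ℚ) : ℝ) - (q₁ : ℝ) * r = b + xo T (ω / P * r) t := by
    rw [hq₁]
    unfold xo
    push_cast
    ring
  have e2 : b - ((0 : ℚ) : ℝ) - (q₂ : ℝ) * r =
      lnW (Rd + 2) b (lx Rd * r) j + xo T (ω / P * r) t := by
    rw [hq₂, hq₁]
    unfold xo lnW lx
    push_cast
    ring
  have h3 := hAt 0 q₁ 0 q₂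
  rw [e1, e2] at h3
  exact h3 h0 (by linarith) h2

end Pool.STAT

namespace Pool.STA

open Finset MvPolynomial
open Pool.Agent.H49.Ent Pool.Agent.H32.Dense Pool.STK Pool.KS3 Pool.KA Pool.KSAT Pool.K2S Pool.PB
open Pool.GEN Pool.S6C Pool.STAT Pool.LEV
open Pool.STAT.DPP (Stc)
open Pool.STAT.GRD
open Pool.CHT (TmH)
open Pool.STAT.CLO (Inj)
open Pool.TRC (JatN)

/-- **The rows of the target over the fat labels**, in all small affine cells near `g`. The grid of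
the cell: the lines `lnW (Rd + 2) b (lx Rd * r)`, the depth `T η ≈ ρ₀`, the mesh `η = ω r / P`, the
step `ω r`, the loss `κ r`; further points `(ax k, wx k)` may be added to the grid. -/
def RowsI {m : ℕ} (S : PCl m) (e : ℕ → Fin m) (n : ℕ) (Lc : ℕ → ℝ → ℝ → ℝ) (p : ℕ → Prop)
    [DecidablePred p] (σ : ℕ → ℝ) (g : ℝ) (W : Set ℝ) (Att : Set (ℝ × ℝ)) (ρJ E e' ρ' : ℝ) :
    Prop :=
  ∀ (s Rd c KH : ℕ) (ρ₀ L₀ : ℝ), (∀ i ≤ n + 1, σ i ≤ s) → n ≤ Rd + 1 → 1 ≤ c → 1 ≤ L₀ → 0 < ρ₀ →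
    ∃ ρr a C₂ : ℝ, 0 < ρr ∧ ρr ≤ 1 ∧ 0 < a ∧ a ≤ 1 ∧ 0 ≤ C₂ ∧
    ∀ M U : ℕ, 1 ≤ U → ∃ ω₂ : ℝ, 0 < ω₂ ∧
    ∀ ω : ℚ, (0 : ℝ) < ω → (ω : ℝ) ≤ ω₂ → (M + 2) * (ω : ℝ) ≤ 1 / 8 →
    ∃ y κ₂ : ℝ, (ω : ℝ) ≤ y ∧ 0 < κ₂ ∧
    ∀ κ : ℝ, 0 < κ → κ ≤ κ₂ → κ ≤ ω → ∃ P₂ : ℕ, ∀ P : ℕ, P₂ ≤ P → 1 ≤ P →
    ∃ (ε₁ r₁ : ℝ) (K₀ : Finset ℝ), 0 < ε₁ ∧ 0 < r₁ ∧
    ∀ r b : ℝ, 0 < r → r < r₁ → |b - g| ≤ r → CellI Lc n (fun i => σ (i + 1)) s b r ε₁ →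
      Gnr W Att K₀ b r →
    ∀ T : ℕ, 1 ≤ T → ρ₀ ≤ T * (ω / P * r) → T * (ω / P * r) ≤ ρ₀ + ω / P * r →
    ∃ (Nx : ℕ) (ax wx : ℕ → ℝ) (φ₁ : ℝ), 0 < φ₁ ∧
      (∀ k < Nx, (ax k, wx k) ∈ Att ∧ wx k ≤ ax k ∧ |ax k - g| ≤ ρJ ∧ |wx k - g| ≤ ρJ) ∧
    ∀ (K : ℕ) (dl δl : ℕ → ℝ) (Ka Kc : ℝ), 0 < Ka → 0 < Kc →
      (∀ l ≤ n, 0 < dl l ∧ dl l ≤ φ₁ ∧ 0 ≤ δl l ∧ δl l ≤ φ₁) →
    ∃ τ Kb : ℝ, 0 < τ ∧ 0 < Kb ∧ Bas S (fun _ F A₀ => ∀ (A : F.Ω → Prop)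
        (G : ℕ → PtT F → ℕ → MvPolynomial (Option (Fin m)) ℝ)
        (H : ℕ → LnT F → ℕ → MvPolynomial (Option (Fin m)) ℝ), (∀ ω, A ω → A₀ ω) →
        Pe F.p A₀ ≤ Ka * Pe F.p A →
        ChL F e n K ((Rd + 2 + 1) * (T + M * P) + Nx) (shL Lc)
          (bga b (ω / P * r) T (T + M * P) ((Rd + 2 + 1) * (T + M * P)) ax)
          (bgw (lnW (Rd + 2) b (lx Rd * r)) (ω / P * r) T (T + M * P)
            ((Rd + 2 + 1) * (T + M * P)) wx) E e' ρ' g dl δl A G H →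
        ∃ B : F.Ω → Prop, (∀ ω, B ω → A ω) ∧ Pe F.p A ≤ Kb * Pe F.p B ∧
          RowsF F A₀ B (shL Lc) σ p e n KH c M P T U (lnW (Rd + 2) b (lx Rd * r)) b
            (T * (ω / P * r)) (ω / P * r) (κ * r) (ω * r) (y * r) Kc L₀ ρr a C₂ τ dl G)

theorem RowsI.mono_W {m : ℕ} {S : PCl m} {e : ℕ → Fin m} {n : ℕ} {Lc : ℕ → ℝ → ℝ → ℝ}
    {p : ℕ → Prop} [DecidablePred p] {σ : ℕ → ℝ} {g : ℝ} {W W' : Set ℝ} {Att : Set (ℝ × ℝ)}
    {ρJ E e' ρ' : ℝ} (h : RowsI S e n Lc p σ g W Att ρJ E e' ρ') (hW : W' ⊆ W) :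
    RowsI S e n Lc p σ g W' Att ρJ E e' ρ' := by
  intro s Rd c KH ρ₀ L₀ h1 h2 h3 h4 h5
  obtain ⟨ρr, a, C₂, k1, k2, k3, k4, k5, H⟩ := h s Rd c KH ρ₀ L₀ h1 h2 h3 h4 h5
  refine ⟨ρr, a, C₂, k1, k2, k3, k4, k5, fun M U hU => ?_⟩
  obtain ⟨ω₂, hω₂, H⟩ := H M U hU
  refine ⟨ω₂, hω₂, fun ω q1 q2 q3 => ?_⟩
  obtain ⟨y, κ₂, q4, q5, H⟩ := H ω q1 q2 q3
  refine ⟨y, κ₂, q4, q5, fun κ q6 q7 q8 => ?_⟩
  obtain ⟨P₂, H⟩ := H κ q6 q7 q8
  refine ⟨P₂, fun P q9 q10 => ?_⟩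
  obtain ⟨ε₁, r₁, K₀, q11, q12, H⟩ := H P q9 q10
  exact ⟨ε₁, r₁, K₀, q11, q12, fun r b j1 j2 j3 j4 j5 =>
    H r b j1 j2 j3 j4 ⟨fun k hk => hW (j5.1 k hk), j5.2⟩⟩

/-- **The labels of the affine cells**, from the joint chains and the rows. -/
theorem labI_of {ι : Type*} {m n : ℕ} {S : PCl m} {e : ℕ → Fin m} {L Lc : ℕ → ℝ → ℝ → ℝ}
    {Lx : ι → ℕ → ℝ → ℝ → ℝ} {OK : ι → ℝ → ℝ → Prop} {p : ℕ → Prop} [DecidablePred p]
    {σ : ℕ → ℝ} {g : ℝ} {W : Set ℝ} {Att : Set (ℝ × ℝ)} {ε₀ : ℝ} (hTm : TmH S)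
    (hinj : Inj (fun l => e (l + 1)) (n + 1)) (hg0 : 0 < g) (hg1 : g < 1) (hε₀ : 0 < ε₀)
    (hlaw : ∀ i, Law (Lc i)) (hge : ∀ i a w, 0 ≤ w → w ≤ a → a ≤ 1 → a ≤ Lc i a w)
    (hcell : ∀ (s : ℕ) (ε : ℝ), 0 < ε → ∃ ε' r₀ : ℝ, 0 < ε' ∧ 0 < r₀ ∧ ∀ (x : ι) (r b : ℝ),
      0 < r → r < r₀ → |b - g| ≤ r → b ∈ W → CellI (Lx x) n (fun i => σ (i + 1)) s b r ε' →
      CellI Lc n (fun i => σ (i + 1)) s b r ε) (hbig : ∀ i, n < i → ∀ a w, Lc i a w = a)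
    (hzero : ∀ a w, L 0 a w = a) (hbig' : ∀ i, n + 1 < i → ∀ a w, L i a w = a)
    (hdia : ∀ i < n, ∀ a, 0 ≤ a → a ≤ 1 → L (i + 1) a a = Lc i a a)
    (htgt : ∀ b ∈ W, 0 < b → b < 1 → L (n + 1) b b = Lc n b b)
    (hσ0 : σ 0 = 1) (hσ : ∀ i, 1 ≤ σ i) (hp : Stc p (n + 1))
    (hps : ∀ i ≤ n, p i ↔ σ i = 1) {ρJ E : ℝ} (hρJ : 0 < ρJ) (hE : 0 ≤ E) (hgE : g + E < 1)
    (htop : ∀ i ≤ n, Lc i g g + E < 1) {ρ' : ℝ} (hρ' : 0 < ρ')
    (hJat : JatE S (fun l => e (l + 1)) n Lc g Att ρJ E (ε₀ / 2) ρ')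
    (hrow : RowsI S e n Lc p σ g W Att ρJ E (ε₀ / 2) ρ') :
    LabI S e n L Lx OK p σ g W (fun _ => Att) ε₀ := by
  intro s hs
  -- the dynamic slopes
  obtain ⟨β, hβ, hpd⟩ : ∃ β : ℝ, 0 < β ∧ ∀ i ≤ n, ¬ p i → 1 + 2 * β ≤ σ i := by
    obtain ⟨x, hx, h1⟩ := PrM.fset_small (range (n + 1))
      (Q := fun i x => ¬ p i → 1 + 2 * x ≤ σ i) fun i hi => by
        have hi' : i ≤ n := Nat.lt_succ_iff.1 (mem_range.1 hi)
        rcases (hσ i).eq_or_lt with h | h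
        · exact ⟨1, one_pos, fun _ _ _ h2 => absurd ((hps i hi').2 h.symm) h2⟩
        · exact ⟨(σ i - 1) / 2, by linarith, fun e' _ h2 _ => by linarith⟩
    exact ⟨x, hx, fun i hi => h1 x hx le_rfl i (mem_range.2 (Nat.lt_succ_of_le hi))⟩
  -- the margin
  obtain ⟨lam, hlam, hlam'⟩ : ∃ lam : ℝ, 0 < lam ∧ ∀ i ≤ n + 1, shL Lc i g g + E + 2 * lam ≤ 1 := by
    obtain ⟨x, hx, h1⟩ := PrM.fset_small (range (n + 2))
      (Q := fun i x => shL Lc i g g + E + 2 * x ≤ 1) fun i hi => by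
        have hi' : i ≤ n + 1 := Nat.lt_succ_iff.1 (mem_range.1 hi)
        have h2 : shL Lc i g g + E < 1 := by
          rcases i with _ | i
          · exact hgE
          · exact htop i (by omega)
        exact ⟨(1 - (shL Lc i g g + E)) / 2, by linarith, fun e' _ h3 => by linarith⟩
    exact ⟨x, hx, fun i hi => h1 x hx le_rfl i (mem_range.2 (Nat.lt_succ_of_le hi))⟩
  -- the depth of the lines
  obtain ⟨r₀, hr₀⟩ : ∃ r₀, r₀ = min ρJ ρ' := ⟨_, rfl⟩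
  have hr₀0 : 0 < r₀ := by rw [hr₀]; exact lt_min hρJ hρ'
  obtain ⟨ρ₀, hρ₀⟩ : ∃ ρ₀, ρ₀ = min (r₀ / 2) (g / 8) := ⟨_, rfl⟩
  have hρ₀0 : 0 < ρ₀ := by rw [hρ₀]; exact lt_min (by linarith) (by linarith)
  have hρ₀1 : ρ₀ ≤ r₀ / 2 := by rw [hρ₀]; exact min_le_left _ _
  have hρ₀2 : ρ₀ ≤ g / 8 := by rw [hρ₀]; exact min_le_right _ _
  obtain ⟨S₀, hS₀⟩ := exists_nat_ge (2 / ρ₀)
  obtain ⟨Sn, hSn⟩ : ∃ Sn : ℕ, Sn = 2 * s + S₀ + 1 := ⟨_, rfl⟩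
  have hSρ : 2 ≤ (Sn : ℝ) * ρ₀ := by
    rw [div_le_iff₀ hρ₀0] at hS₀
    have h1 : (S₀ : ℝ) ≤ Sn := by
      rw [hSn]
      push_cast
      have : (0 : ℝ) ≤ s := Nat.cast_nonneg s
      linarith
    have h2 := mul_le_mul_of_nonneg_right h1 hρ₀0.le
    linarith
  obtain ⟨c, KH, L₀, hc, hL₀, hbas⟩ := labR_bas n Sn n (by omega)
  obtain ⟨ρr, a, C₂, hρr, hρr1, ha, ha1, hC₂, hrow⟩ := hrow s n c KH ρ₀ L₀ hs (by omega) hc hL₀
    hρ₀0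
  refine ⟨KH, 1, C₂, ρr, a, le_rfl, hC₂, hρr, hρr1, ha, ha1, fun c₁ c₂ M U T₀ hT₀ hU => ?_⟩
  obtain ⟨Λ, hΛ, hbas⟩ := hbas c₁ c₂ U T₀
  obtain ⟨ω₂, hω₂, hrow⟩ := hrow M U hU
  obtain ⟨ω, hω, hωω₂, hωM, hrl⟩ := rl_ex Λ s Sn M (gp := 2 * β * lx n)
    (mul_pos (by linarith) (lx_pos n)) hω₂
  obtain ⟨y, κ₂, hy, hκ₂, hrow⟩ := hrow ω hω hωω₂ hωM
  refine ⟨ω, hω, hωM, fun κ₁ hκ₁ => ?_⟩
  obtain ⟨κ, ε, φ, P₁, hκκ, hφκ, hrl⟩ := hrl (min κ₁ κ₂) (lt_min hκ₁ hκ₂)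
  have hrl₀ := hrl (max P₁ 1) (le_max_left _ _) (le_max_right _ _)
  obtain ⟨P₂, hrow⟩ := hrow κ hrl₀.κ_pos (hκκ.trans (min_le_right _ _)) hrl₀.κω'
  obtain ⟨P, hP⟩ : ∃ P, P = max (max P₁ 1) P₂ := ⟨_, rfl⟩
  have hP1 : 1 ≤ P := by rw [hP]; exact (le_max_right _ _).trans (le_max_left _ _)
  have hPP1 : P₁ ≤ P := by rw [hP]; exact (le_max_left _ _).trans (le_max_left _ _)
  have hPP2 : P₂ ≤ P := by rw [hP]; exact le_max_right _ _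
  have R := hrl P hPP1 hP1
  obtain ⟨ε₁, r₁, K₀, hε₁, hr₁, hrow⟩ := hrow P hPP2 hP1
  have hs0 : (0 : ℝ) ≤ s := Nat.cast_nonneg s
  have hs1 : (1 : ℝ) ≤ s := (hσ 0).trans (hs 0 (Nat.zero_le _))
  have hy0 : 0 < y := lt_of_lt_of_le hω hy
  have hκ0 := R.κ_pos
  have hε0 := R.ε_pos
  have hM0 : (0 : ℝ) ≤ M := Nat.cast_nonneg M
  have hΛ0 : (0 : ℝ) ≤ Λ := Nat.cast_nonneg Λ
  -- the size
  obtain ⟨Z, hZ⟩ : ∃ Z : ℝ, Z = 2 * s + 2 * ε + y + 4 * κ := ⟨_, rfl⟩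
  have hZ0 : 0 < Z := by rw [hZ]; positivity
  obtain ⟨ε₂, rc, hε₂, hrc, hcell⟩ := hcell s (min ε ε₁) (lt_min hε0 hε₁)
  obtain ⟨r₂, hr₂⟩ : ∃ r₂, r₂ = min (min (min r₁ rc) (min (r₀ / 4) (g / 4)))
      (min (min ρ₀ (ε₀ / 2)) (min ((1 - g) / 4) (lam / (2 * Z)))) := ⟨_, rfl⟩
  refine ⟨κ, Λ * (s * ((M + 1) * ω) + 2 * ε) + 1, 1, ε₂, r₂, insert 0 K₀, hκ0,
    hκκ.trans (min_le_left _ _), by positivity, one_pos, hε₂, ?_,
    fun x r b hr hrr hbg _ C hG => ?_⟩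
  · rw [hr₂]
    exact lt_min (lt_min (lt_min hr₁ hrc) (lt_min (by linarith) (by linarith)))
      (lt_min (lt_min hρ₀0 (by linarith)) (lt_min (by linarith) (by positivity)))
  have q0 : r < rc := hrr.trans_le (by
    rw [hr₂]; exact (min_le_left _ _).trans ((min_le_left _ _).trans (min_le_right _ _)))
  have q1 : r < r₁ := hrr.trans_le (by
    rw [hr₂]; exact (min_le_left _ _).trans ((min_le_left _ _).trans (min_le_left _ _)))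
  have q2 : r < r₀ / 4 := hrr.trans_le (by
    rw [hr₂]; exact (min_le_left _ _).trans ((min_le_right _ _).trans (min_le_left _ _)))
  have q3 : r < g / 4 := hrr.trans_le (by
    rw [hr₂]; exact (min_le_left _ _).trans ((min_le_right _ _).trans (min_le_right _ _)))
  have q4 : r < ρ₀ := hrr.trans_le (by
    rw [hr₂]; exact (min_le_right _ _).trans ((min_le_left _ _).trans (min_le_left _ _)))
  have q5 : r < ε₀ / 2 := hrr.trans_le (by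
    rw [hr₂]; exact (min_le_right _ _).trans ((min_le_left _ _).trans (min_le_right _ _)))
  have q6 : r < (1 - g) / 4 := hrr.trans_le (by
    rw [hr₂]; exact (min_le_right _ _).trans ((min_le_right _ _).trans (min_le_left _ _)))
  have q7 : r < lam / (2 * Z) := hrr.trans_le (by
    rw [hr₂]; exact (min_le_right _ _).trans ((min_le_right _ _).trans (min_le_right _ _)))
  rw [lt_div_iff₀ (by positivity)] at q7
  obtain ⟨hb1, hb2⟩ := abs_le.1 hbg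
  have hb : 0 < b := by linarith
  -- the cell
  have hbW : b ∈ W := by
    have h0 := hG.1 0 (mem_insert_self _ _)
    rwa [zero_mul, sub_zero] at h0
  have C₀ : ∀ ε' : ℝ, min ε ε₁ ≤ ε' → CellI Lc n (fun i => σ (i + 1)) s b r ε' := by
    intro ε' hε'
    have hεr : min ε ε₁ * r ≤ ε' * r := mul_le_mul_of_nonneg_right hε' hr.le
    have C' := hcell x r b hr q0 hbg hbW C
    exact ⟨C'.lo, C'.hi, C'.one, fun i hi a' w' h1 h2 h3 => (C'.bas i hi a' w' h1 h2 h3).trans hεr,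
      fun a' w' h1 h2 h3 => (C'.tgt a' w' h1 h2 h3).trans hεr, fun i hi v h1 h2 => by
        have := C'.sl i hi v h1 h2
        linarith⟩
  have hlaw' : ∀ i, Law (shL Lc i) := by
    intro i
    rcases i with _ | i
    · exact ⟨fun _ _ _ _ _ h _ => h, fun _ _ _ _ _ _ _ => le_rfl, fun _ _ _ _ _ _ _ =>
        min_le_right _ _⟩
    · exact hlaw i
  have hge' : ∀ i a w, 0 ≤ w → w ≤ a → a ≤ 1 → a ≤ shL Lc i a w := by
    intro i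
    rcases i with _ | i
    · exact fun _ _ _ _ _ => le_rfl
    · exact hge i
  have CS := (C₀ ε (min_le_left _ _)).shL hσ0 hε0.le hr hs1
  have hωr : 0 < ω * r := mul_pos hω hr
  have hMω : (M : ℝ) * (ω * r) + 2 * (ω * r) ≤ r / 8 := by
    have h1 := mul_le_mul_of_nonneg_right hωM hr.le
    have e1 : (M + 2) * (ω : ℝ) * r = M * (ω * r) + 2 * (ω * r) := by ring
    rw [e1] at h1
    linarith
  have hMω0 : 0 ≤ (M : ℝ) * (ω * r) := by positivity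
  have hηr : 0 < (ω : ℝ) / P * r := mul_pos R.η_pos hr
  have hηω : (ω : ℝ) / P * r ≤ ω * r := mul_le_mul_of_nonneg_right R.ηω hr.le
  have hZr : Z * r = (2 * s + 2 * ε) * r + y * r + 4 * (κ * r) := by rw [hZ]; ring
  have hyr : 0 < y * r := mul_pos hy0 hr
  have hκr : 0 < κ * r := mul_pos hκ0 hr
  have hsr : 0 ≤ (2 * s + 2 * ε) * r := by positivity
  have key := CS.real hlaw' hge' hσ hs hp (β := β)
    (fun i hi => (hps i hi).1) hpd (Rd := n) (M := M) (S := Sn) (P := P) (Λ := Λ) (by omega) hr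
    (X₀ := 1 - E - lam) (y := y) (E := E) (ε₀ := ε₀) (e' := ε₀ / 2) hP1 R hρ₀0 (by linarith)
    hSρ q4.le (by omega) (fun i hi => ?_) hE (by linarith) hy (by linarith) ?_ hφκ
  · obtain ⟨T, hT1, hT2, hT3, CG, RL⟩ := key
    -- the further points and the rows
    obtain ⟨Nx, ax, wx, φ₁, hφ₁, hpts, hrow⟩ := hrow r b hr q1 hbg (C₀ ε₁ (min_le_right _ _))
      ⟨fun k hk => hG.1 k (mem_insert_of_mem hk), hG.2⟩ T hT1 hT2 hT3
    -- a smaller loss of the labels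
    obtain ⟨φ', hφ'0, hφ'1, RL'⟩ : ∃ φ' : ℝ, 0 < φ' ∧ φ' ≤ φ₁ ∧
        Rls Λ (shL Lc) (n + 1) σ M Sn P T (lnW (n + 2) b (lx n * r)) b (T * (ω / P * r))
        (M * (ω * r)) (b / 2) (ω / P * r) (2 * (ε * r) + s * (ω / P * r))
        (2 * β * lx n * r - 2 * (ε * r)) (s * (M * (P * (ω / P * r))) + 2 * (ε * r)) (κ * r) φ'
        (s * ((M + 1) * (ω * r)) + 2 * (ε * r)) E (ω * r) (1 - E - lam) (y * r)
        ((Λ * (s * ((M + 1) * ω) + 2 * ε) + 1) * r) ε₀ (ε₀ / 2) := by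
      have hφr : 0 ≤ φ * r := mul_nonneg R.φ_pos.le hr.le
      refine Rls.phi { RL with φ_nn := le_rfl, c₀_ge := ?_, small := ?_ } hφ₁
      · have := RL.c₀_ge
        linarith
      · have := RL.small
        have h1 : (Λ : ℝ) * (2 * (ε * r) + s * (ω / P * r) + (Sn + 2) * (ω / P * r) + φ * r) =
          Λ * (2 * (ε * r) + s * (ω / P * r) + (Sn + 2) * (ω / P * r) + 0) + Λ * (φ * r) := by ring
        rw [h1] at this
        have h2 : 0 ≤ Λ * (φ * r) := by positivity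
        linarith
    have hWlo : b - r / 8 ≤ lnW (n + 2) b (lx n * r) 0 := by
      rw [lnW_zero, ← mul_assoc, lx_mul]
      linarith
    have key := hbas (L' := L) (σ := σ) (p := p) (M := M) (P := P) (T := T)
      (Nx := Nx) (r₀ := r₀) (ρr := ρr) (a := a) (C₂ := C₂) (ax := ax) (wx := wx) hTm hinj hJat
      CG RL' hφ'0 le_rfl hσ0 hσ (fun i => ?_)
      (by rw [hr₀]; exact min_le_left _ _) (by rw [hr₀]; exact min_le_right _ _) (by linarith)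
      (by linarith) (fun j hj t ht => ?_) hpts (fun K dl δl Ka Kc h1 h2 h3 => ?_)
    · obtain ⟨K₁, τ, hK₁, hτ, hb⟩ := key
      exact ⟨K₁, L₀, τ, hK₁, by linarith, hτ, hb⟩
    · -- the diagonals
      rcases i with _ | i
      · exact hzero b b
      · show L (i + 1) b b = Lc i b b
        rcases Nat.lt_trichotomy i n with h | h | h
        · exact hdia i h b hb.le (by linarith [C.hi])
        · rw [h]
          exact htgt b hbW hb (by linarith)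
        · rw [hbig i h, hbig' (i + 1) (by omega)]
    · -- the points of the grid
      have hTR : (t : ℝ) ≤ T + M * P := by exact_mod_cast ht.le
      have hx2 : xo T (ω / P * r) t ≤ M * (ω * r) := by
        unfold xo
        have h1 : ((t : ℝ) - T) * (ω / P * r) ≤ M * P * (ω / P * r) :=
          mul_le_mul_of_nonneg_right (by linarith) hηr.le
        have hP0 : (0 : ℝ) < P := by exact_mod_cast (by omega : 0 < P)
        have e1 : (M : ℝ) * P * (ω / P * r) = M * (ω * r) := by field_simp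
        rwa [e1] at h1
      have hx1 : -(T * (ω / P * r)) ≤ xo T (ω / P * r) t := by
        rw [← xo_zero]
        exact xo_mono hηr.le (Nat.zero_le t)
      refine grid_att hG.2 ?_ (lnW_le (mul_nonneg (lx_pos n).le hr.le) hj) (by linarith)
      have h3 := lnW_ge (Q := n + 2) (b := b) (mul_nonneg (lx_pos n).le hr.le) j
      rw [← mul_assoc, lx_mul] at h3
      linarith
    · exact hrow K dl δl Ka Kc h1 h2 fun l hl => by
        obtain ⟨d1, d2, d3, d4⟩ := h3 l hl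
        exact ⟨d1, d2.trans hφ'1, d3, d4.trans hφ'1⟩
  · have h1 := CS.le_g hlaw' hs hr hε0.le hg1.le hbg hi (x := M * (ω * r)) hMω0 (by linarith)
    have h2 := hlam' i hi
    linarith
  · have h1 : Λ * (κ * r) = Λ * κ * r := by ring
    have h2 : Λ * κ * r ≤ ω * r := mul_le_mul_of_nonneg_right R.κω.le hr.le
    linarith

end Pool.STA
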