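import Pool.Agent.H77.STAT.StaI
import Pool.Agent.H77.STAT.PlayI

/-!
# The labels at the rows whose target has slope one

At a window `g` where the diagonal of the target has slope `1`, the labels of the affine cells are
taken over the fattest boxes, with the smallest precisions `Pool.RTS.iso` of all diagonals, also
for the target (`NumI.Li`). `cellI_iso`: the cells for these levels. `NumI.labI_one`: the labels,
from the joint chains and the rows.
-/

set_option autoImplicit false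

namespace Pool.STAT

open Pool.LEV

/-- **The cell of the smallest levels**: the target has slope one. -/
theorem cellI_iso {D : ℝ → ℝ} (hD : RTS.Diag D) {n : ℕ} {σ : ℕ → ℝ} {s : ℕ} {g : ℝ}
    (hder : HasDerivAt D 1 g) (hσn : σ n = 1) (hg0 : 0 < g) (hg1 : g < 1) (hDg : D g < 1)
    {ε : ℝ} (hε : 0 < ε) : ∃ r₀ : ℝ, 0 < r₀ ∧
      ∀ (Lx Lt : ℕ → ℝ → ℝ → ℝ) (r b : ℝ), (∀ i < n, Lt i = Lx i) → Lt n = RTS.iso D →
        (∀ w, 0 ≤ w → w ≤ 1 → Lx n w w ≤ D w) → Lx n b b = D b → 0 < r → r < r₀ →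
        |b - g| ≤ r → CellI Lx n σ s b r ε → CellI Lt n σ s b r ε := by
  obtain ⟨d, hd0, hd⟩ := Metric.eventually_nhds_iff.1 ((hder.isLittleO).def
    (show (0 : ℝ) < ε / 8 by positivity))
  obtain ⟨r₀, hr₀⟩ : ∃ r₀ : ℝ, r₀ = min (min (d / 3) (g / 8)) (min ((1 - g) / 8)
    ((1 - D g) / (4 + ε))) := ⟨_, rfl⟩
  refine ⟨r₀, ?_, fun Lx Lt r b hLt hLn hle hbb hr hrr hbg C => ?_⟩
  · rw [hr₀]
    exact lt_min (lt_min (by positivity) (by positivity)) (lt_min (by linarith)
      (div_pos (by linarith) (by positivity)))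
  have r1 : r < d / 3 := hrr.trans_le (by
    rw [hr₀]; exact (min_le_left _ _).trans (min_le_left _ _))
  have r2 : r < g / 8 := hrr.trans_le (by
    rw [hr₀]; exact (min_le_left _ _).trans (min_le_right _ _))
  have r3 : r < (1 - g) / 8 := hrr.trans_le (by
    rw [hr₀]; exact (min_le_right _ _).trans (min_le_left _ _))
  have r4 : r < (1 - D g) / (4 + ε) := hrr.trans_le (by
    rw [hr₀]; exact (min_le_right _ _).trans (min_le_right _ _))
  rw [lt_div_iff₀ (by positivity)] at r4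
  have hεr : 0 < ε * r := mul_pos hε hr
  have e0 : r * (4 + ε) = 4 * r + ε * r := by ring
  rw [e0] at r4
  obtain ⟨b1, b2⟩ := abs_le.1 hbg
  have hnear : ∀ y, |y - g| ≤ 2 * r → |D y - D g - (y - g)| ≤ ε * r / 4 := by
    intro y hy
    have h1 := hd (y := y) (by rw [Real.dist_eq]; linarith)
    rw [Real.norm_eq_abs, Real.norm_eq_abs, smul_eq_mul, mul_one] at h1
    refine h1.trans ?_
    have h2 : ε / 8 * |y - g| ≤ ε / 8 * (2 * r) := mul_le_mul_of_nonneg_left hy (by positivity)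
    linarith
  refine ⟨C.lo, C.hi, C.one, fun i hi a' w' h1 h2 h3 => ?_, fun a' w' h1 h2 h3 => ?_,
    fun i hi v h1 h2 => ?_⟩
  · rw [hLt i hi]
    exact C.bas i hi a' w' h1 h2 h3
  · have hb := hnear b (by linarith [abs_le.1 hbg, abs_nonneg (b - g)])
    have hw := hnear w' (by rw [abs_le]; constructor <;> linarith)
    obtain ⟨u1, u2⟩ := abs_le.1 hb
    obtain ⟨u3, u4⟩ := abs_le.1 hw
    rw [hLn, RTS.iso_dia hD (by linarith) (by linarith), hσn]
    have e1 : RTS.iso D a' w' = D w' + (a' - w') := min_eq_right (by linarith)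
    rw [e1, abs_le]
    constructor <;> linarith
  · have h3 := C.sl i hi v h1 h2
    rcases hi.lt_or_eq with h | h
    · rw [hLt i h]
      exact h3
    · have hb1 : b ≤ 1 := by linarith
      rw [h] at h3 ⊢
      rw [hLn, RTS.iso_dia hD (by linarith) hb1, RTS.iso_dia hD (by linarith) (by linarith)]
      have h4 := hle (b - v) (by linarith) (by linarith)
      rw [hbb] at h3
      linarith

end Pool.STAT

namespace Pool.STR.NumI

open MeasureTheory Set Filter Topology Pool.LEV Pool.RTS Pool.STA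
open Pool.GEN Pool.S6C Pool.STAT Pool.PB Pool.STK Pool.KS3 Pool.KA Pool.K2S
open Pool.STAT.DPP (Stc)
open Pool.STAT.GRD
open Pool.CHT (TmH)
open Pool.STAT.CLO (Inj)
open Pool.TRC (JatN)

variable {P : ℝ → ℝ → ℝ} {ρ : ℝ → ℝ} (nk : NumI P ρ)

/-- The diagonals; the one of the target has another value at `0`. -/
noncomputable def dz (o : nk.O) (i : ℕ) (a : ℝ) : ℝ :=
  if i = nk.m ∧ a = 0 then nk.PT o 0 0 else nk.dg o i a

theorem dz_pos (o : nk.O) (i : ℕ) {a : ℝ} (h : 0 < a) : nk.dz o i a = nk.dg o i a :=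
  if_neg fun h1 => h.ne' h1.2

theorem dz_lt (o : nk.O) {i : ℕ} (h : i < nk.m) : nk.dz o i = nk.dg o i := by
  funext a
  exact if_neg fun h1 => by omega

/-- **The smallest levels**, also for the target. -/
noncomputable def Li (o : nk.O) (i : ℕ) : ℝ → ℝ → ℝ :=
  if i ≤ nk.m then iso (nk.dz o i) else fun a _ => a

theorem li_le (o : nk.O) {i : ℕ} (h : i ≤ nk.m) : nk.Li o i = iso (nk.dz o i) := if_pos h

theorem li_big (o : nk.O) {i : ℕ} (h : nk.m < i) (a w : ℝ) : nk.Li o i a w = a := by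
  unfold Li
  rw [if_neg (by omega)]

/-- The static coordinates: the radius, the target and the coordinates of slope one. -/
def pst (o : nk.O) (g : ℝ) (i : ℕ) : Prop := nk.sg o g i = 1 ∨ nk.m + 1 ≤ i

noncomputable instance (o : nk.O) (g : ℝ) : DecidablePred (nk.pst o g) :=
  fun _ => Classical.propDecidable _

theorem stc_pst (o : nk.O) (g : ℝ) : Stc (nk.pst o g) (nk.m + 1) :=
  ⟨Or.inl rfl, fun _ h => Or.inr h⟩

variable {nk}

/-- The diagonals have the properties of diagonals. -/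
theorem diag_dg (hP : Law P) (hP01 : ∀ a : ℝ, 0 ≤ a → a ≤ 1 → a ≤ P a a ∧ P a a ≤ 1) (o : nk.O)
    {i : ℕ} (hi : i ≤ nk.m) : Diag (nk.dg o i) := by
  rcases hi.lt_or_eq with h | h
  · rw [nk.dg_lt o h]
    exact nk.hD o _
  · rw [h, nk.dg_m]
    exact diag_of (D := P) hP (fun a h0 h1 => (hP01 a h0 h1).1) fun a h0 h1 => (hP01 a h0 h1).2

theorem diag_dz (hP : Law P) (hP01 : ∀ a : ℝ, 0 ≤ a → a ≤ 1 → a ≤ P a a ∧ P a a ≤ 1) (o : nk.O)
    {i : ℕ} (hi : i ≤ nk.m) : Diag (nk.dz o i) := by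
  rcases hi.lt_or_eq with h | h
  · rw [nk.dz_lt o h]
    exact diag_dg hP hP01 o hi
  · have hd := diag_dg hP hP01 o hi
    subst h
    have h0 : nk.dz o nk.m 0 = nk.PT o 0 0 := if_pos ⟨rfl, rfl⟩
    have hl := nk.lPT o 0 0 le_rfl le_rfl zero_le_one
    refine ⟨fun {w v} h1 h2 h3 => ?_, fun {w} h1 h2 => ?_, fun {w} h1 h2 => ?_⟩
    · rcases h1.eq_or_lt with h4 | h4
      · rw [← h4, h0, zero_add]
        rcases h2.eq_or_lt with h5 | h5
        · rw [← h5, h0, add_zero]
          exact min_le_right _ _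
        · rw [nk.dz_pos o _ h5, nk.dg_m]
          have h6 := (nk.hPT o).slope 0 0 v le_rfl le_rfl h2 (by linarith)
          have h7 := (nk.hPT o).mono_w (0 + v) 0 (0 + v) le_rfl (by linarith) le_rfl (by linarith)
          rw [zero_add] at h6 h7
          exact (h6.trans h7).trans (nk.hle o v v h5 le_rfl (by linarith))
      · rw [nk.dz_pos o _ h4, nk.dz_pos o _ (by linarith)]
        exact hd.gsl h1 h2 h3
    · rcases h1.eq_or_lt with h4 | h4
      · rw [← h4, h0]
        exact hl.1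
      · rw [nk.dz_pos o _ h4]
        exact hd.low h1 h2
    · rcases h1.eq_or_lt with h4 | h4
      · rw [← h4, h0]
        exact hl.2
      · rw [nk.dz_pos o _ h4]
        exact hd.up h1 h2

/-- **The labels at a row whose target has slope one.** -/
theorem labI_one (hP : Law P) (hP01 : ∀ a : ℝ, 0 ≤ a → a ≤ 1 → a ≤ P a a ∧ P a a ≤ 1)
    {m : ℕ} {S : PCl m} {o : nk.O} {e : ℕ → Fin m} {L : ℕ → ℝ → ℝ → ℝ} {θ g : ℝ}
    {P' : List (Fin m) × Fin m → ℝ → ℝ → ℝ} {W : Set ℝ} {Att : Set (ℝ × ℝ)}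
    (H : Ctx S e nk.m L θ P' ρ) (hTm : TmH S) (R : nk.RwD o g)
    (hdia : ∀ i ≤ nk.m, ∀ a, 0 ≤ a → a ≤ 1 → L (i + 1) a a = nk.dg o i a)
    (hPT : ∀ b ∈ W, 0 < b → b < 1 → nk.PT o b b = P b b)
    (hone : deriv (fun a => P a a) g = 1) {ρJ E : ℝ} (hρJ : 0 < ρJ) (hE : 0 ≤ E)
    (htop : ∀ i ≤ nk.m, nk.dg o i g + E < 1)
    (hJat : JatN S (fun l => e (l + 1)) nk.m (nk.Li o) g Att ρJ E)
    (hrow : ∀ ρ' : ℝ, 0 < ρ' → JatE S (fun l => e (l + 1)) nk.m (nk.Li o) g Att ρJ E
      (θ * g / 8 / 2) ρ' → RowsI S e nk.m (nk.Li o) (nk.pst o g) (nk.sg o g) g W Att ρJ E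
      (θ * g / 8 / 2) ρ') :
    ∃ (p : ℕ → Prop) (_ : DecidablePred p), Stc p (nk.m + 1) ∧
      LabI S e nk.m L (fun _ : Unit => nk.Lc o) (fun _ _ _ => True) p (nk.sg o g) g W
        (fun _ => Att) (θ * g / 8) := by
  have hg0 := R.g0
  have hg1 := R.g1
  have hlt := R.lt
  have hθg : 0 < θ * g / 8 := by
    have := mul_pos H.θ_pos hg0
    positivity
  obtain ⟨ρ', hρ', hJE⟩ := jatE_of hJat (show (0 : ℝ) < θ * g / 8 / 2 by positivity)
  have hdm : HasDerivAt (nk.dz o nk.m) 1 g := by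
    have h1 := (R.dif nk.m le_rfl).hasDerivAt
    have e1 : deriv (nk.dg o nk.m) g = 1 := by rw [nk.dg_m]; exact hone
    rw [e1] at h1
    refine h1.congr_of_eventuallyEq ?_
    filter_upwards [lt_mem_nhds hg0] with v hv
    exact nk.dz_pos o _ hv
  refine ⟨nk.pst o g, inferInstance, nk.stc_pst o g, ?_⟩
  refine labI_of (n := nk.m) (Lc := nk.Li o) (ρJ := ρJ) (E := E) (ρ' := ρ') hTm ?_ hg0 hg1 hθg
    (fun i => ?_) (fun i a w h0 h1 h2 => ?_) (fun s ε hε => ?_)
    (fun i hi a w => nk.li_big o hi a w) (fun a w => H.zero a w) (fun i hi a w => H.big i hi a w)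
    (fun i hi a h0 h1 => ?_) (fun b hb h0 h1 => ?_) rfl (fun i => ?_) (nk.stc_pst o g)
    (fun i hi => ?_) hρJ hE ?_ (fun i hi => ?_) hρ' hJE (hrow ρ' hρ' hJE)
  · intro l hl l' hl' h
    have := H.inj (l + 1) (l' + 1) (by omega) (by omega) (by omega) (by omega) h
    omega
  · rcases Nat.lt_or_ge nk.m i with h | h
    · have : nk.Li o i = fun a _ => a := by
        funext a w
        exact nk.li_big o h a w
      rw [this]
      exact ⟨fun _ _ _ _ _ h _ => h, fun _ _ _ _ _ _ _ => le_rfl, fun _ _ _ _ _ _ _ =>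
        min_le_right _ _⟩
    · rw [nk.li_le o h]
      exact iso_law (diag_dz hP hP01 o h)
  · rcases Nat.lt_or_ge nk.m i with h | h
    · rw [nk.li_big o h]
    · rw [nk.li_le o h]
      exact iso_low (diag_dz hP hP01 o h) h0 h1 h2
  · -- the cells
    obtain ⟨r₀, hr₀, h1⟩ := cellI_iso (n := nk.m) (σ := fun i => nk.sg o g (i + 1)) (s := s)
      (diag_dz hP hP01 o le_rfl) hdm (by
        show deriv (nk.dg o nk.m) g = 1
        rw [nk.dg_m]
        exact hone) hg0 hg1 (by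
        rw [nk.dz_pos o _ hg0]
        exact hlt nk.m le_rfl) hε
    refine ⟨ε, r₀, hε, hr₀, fun _ r b hr hrr hbg hbW C => ?_⟩
    have hb := abs_le.1 hbg
    have hb0 : 0 < b := by
      have := C.lo
      linarith
    have hb1 : b < 1 := by
      have := C.hi
      linarith
    refine h1 (nk.Lc o) (nk.Li o) r b (fun i hi => ?_) (nk.li_le o le_rfl) (fun w h2 h3 => ?_) ?_
      hr hrr hbg C
    · rw [nk.li_le o hi.le, nk.dz_lt o hi, nk.dg_lt o hi, nk.lc_lt o hi]
    · rw [nk.lc_m]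
      rcases h2.eq_or_lt with h4 | h4
      · rw [← h4]
        exact (if_pos ⟨rfl, rfl⟩ : nk.dz o nk.m 0 = _).ge
      · rw [nk.dz_pos o _ h4, nk.dg_m]
        exact nk.hle o w w h4 le_rfl h3
    · rw [nk.lc_m, nk.dz_pos o _ hb0, nk.dg_m]
      exact hPT b hbW hb0 hb1
  · rw [nk.li_le o hi.le, iso_dia (diag_dz hP hP01 o hi.le) h0 h1, nk.dz_lt o hi]
    exact hdia i hi.le a h0 h1
  · rw [nk.li_le o le_rfl, iso_dia (diag_dz hP hP01 o le_rfl) h0.le h1.le, nk.dz_pos o _ h0]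
    exact hdia nk.m le_rfl b h0.le h1.le
  · rcases i with _ | i
    · exact le_rfl
    · show 1 ≤ deriv (nk.dg o i) g
      rcases Nat.lt_or_ge nk.m i with h | h
      · have e1 : nk.dg o i = fun a => P a a := by
          funext a
          unfold dg
          rw [dif_neg (by omega)]
        rw [e1, hone]
      · exact R.one i h
  · constructor
    · rintro (h | h)
      · exact h
      · omega
    · exact fun h => Or.inl h
  · have h1 := htop nk.m le_rfl
    rw [nk.dg_m] at h1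
    have h2 := (hP01 g hg0.le hg1.le).1
    linarith
  · rw [nk.li_le o hi, iso_dia (diag_dz hP hP01 o hi) hg0.le hg1.le, nk.dz_pos o _ hg0]
    exact htop i hi

end Pool.STR.NumI
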