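import Pool.Agent.H77.STAT.SelO

/-!
# The micro statement and the static statement from the same families

`CellG n`: charts without cells, and a strategy against the wide cells of the selected families.
This gives both `Mic n` and `Sta n`.
-/

set_option autoImplicit false

namespace Pool.STR

open MeasureTheory Set Filter Topology Pool.LEV

/-- **Charts without cells and with a strategy** against the wide cells of the selected families. -/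
structure CellD.Full {P : ℝ → ℝ → ℝ} {ρ : ℝ → ℝ} (E : CellD P ρ) : Prop where
  noJ : E.NoJ
  noF : E.NoF
  nn : ∀ k a, 0 ≤ a → a ≤ 1 → 0 ≤ E.PB k a a
  play : ∃ (W' : E.O → Set ℝ) (Att : E.O → E.α → Set (ℝ × ℝ)) (Z : Set ℝ),
    (∀ o, MeasurableSet (W' o)) ∧ (∀ o, ∀ᵐ g : ℝ, g ∈ E.G o → 0 < g → g < 1 → g ∈ W' o) ∧
    (∀ o x, AttN (Att o x)) ∧ volume Z = 0 ∧ ∀ᵐ Q : ℝ, RowD P ρ Zᶜ Q → E.Play W' Att Q

theorem CellD.Full.ful {P : ℝ → ℝ → ℝ} {ρ : ℝ → ℝ} {E : CellD P ρ} (H : E.Full) (hP : Law P)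
    (hP01 : ∀ a : ℝ, 0 ≤ a → a ≤ 1 → 0 ≤ P a a ∧ P a a ≤ 1) (hρ : LipschitzWith 1 ρ) :
    ∀ᵐ Q : ℝ, 0 < Q → Q < 1 → 0 < Lv P (Q, 0) →
      DifferentiableAt ℝ (fun Q => Lv P (Q, 0)) Q → 0 < deriv (fun Q => Lv P (Q, 0)) Q →
      DifferentiableAt ℝ ρ Q → 1 ≤ deriv ρ Q := by
  obtain ⟨W', Att, Z, h1, h2, h3, h4, h5⟩ := H.play
  exact E.ful hP hP01 hρ H.nn H.noJ H.noF h1 h2 h3 h4 h5

theorem CellD.Full.micW {P : ℝ → ℝ → ℝ} {ρ : ℝ → ℝ} {E : CellD P ρ} (H : E.Full) (hP : Law P)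
    (hP01 : ∀ a : ℝ, 0 ≤ a → a ≤ 1 → 0 ≤ P a a ∧ P a a ≤ 1) (hρ : LipschitzWith 1 ρ) :
    MicW P ρ := by
  filter_upwards [H.ful hP hP01 hρ] with Q hQ h0 h1 h2 h3 h4 h5 h6
  exact absurd (hQ h0 h1 h2 h3 h4 h5) (not_le.2 h6)

theorem CellD.Full.staU {P : ℝ → ℝ → ℝ} {ρ : ℝ → ℝ} {E : CellD P ρ} (H : E.Full) (hP : Law P)
    (hP01 : ∀ a : ℝ, 0 ≤ a → a ≤ 1 → 0 ≤ P a a ∧ P a a ≤ 1) (hρ : LipschitzWith 1 ρ) :
    StaU P ρ := by
  intro h hh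
  filter_upwards [H.ful hP hP01 hρ] with Q hQ h0 h1 h2 h3 h4 _ h5
  linarith [hQ h0 h1 h2 h3 h4 h5]

end Pool.STR

namespace Pool.ONE

open Set Pool.KA Pool.GEN Pool.STR Pool.LEV Pool.ALL

/-- **Charts without cells and with a strategy.** -/
def CellG (n : ℕ) : Prop := LocN n fun P r => ∃ E : CellD P r, E.Full

/-- **The micro statement and the static statement** from the same families. -/
theorem micSta_of {n : ℕ} (h : CellG n) : Mic n ∧ Sta n := by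
  have h01 : ∀ {P : ℝ → ℝ → ℝ}, (∀ a w : ℝ, 0 ≤ w → w ≤ a → a ≤ 1 → a ≤ P a w ∧ P a w ≤ 1) →
      ∀ a : ℝ, 0 ≤ a → a ≤ 1 → 0 ≤ P a a ∧ P a a ≤ 1 := fun h2 a h0 h1 =>
    ⟨h0.trans (h2 a a h0 le_rfl h1).1, (h2 a a h0 le_rfl h1).2⟩
  constructor
  · refine LocN.mono h fun P r h1 h2 h3 _ _ h6 => ?_
    obtain ⟨E, hE⟩ := h6
    exact hE.micW h1 (h01 h2) h3
  · refine LocN.mono h fun P r h1 h2 h3 _ _ h6 => ?_
    obtain ⟨E, hE⟩ := h6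
    exact hE.staU h1 (h01 h2) h3

end Pool.ONE
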